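import Mathlib

/-!
# The intrinsic distance of a subset of a normed space
-/

set_option autoImplicit false

open scoped Topology

namespace Pool.Agent.H82.AX

variable {E : Type} [NormedAddCommGroup E]

/-- `x` and `y` are joined in `M` by a path of length at most `l`. -/
def PD (M : Set E) (x y : E) (l : ℝ) : Prop :=
  0 ≤ l ∧ ∃ c : ℝ → E, LipschitzOnWith 1 c (Set.Icc 0 l) ∧ (∀ t ∈ Set.Icc 0 l, c t ∈ M) ∧
    c 0 = x ∧ c l = y

variable {M : Set E}

theorem lip_norm {c : ℝ → E} {s : Set ℝ} (hc : LipschitzOnWith 1 c s) {a b : ℝ} (ha : a ∈ s)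
    (hb : b ∈ s) : ‖c b - c a‖ ≤ |b - a| := by
  have := hc.dist_le_mul b hb a ha
  rwa [NNReal.coe_one, one_mul, dist_eq_norm, Real.dist_eq] at this

theorem lip_of_norm {c : ℝ → E} {s : Set ℝ}
    (hc : ∀ a ∈ s, ∀ b ∈ s, a ≤ b → ‖c b - c a‖ ≤ b - a) : LipschitzOnWith 1 c s := by
  refine LipschitzOnWith.of_dist_le_mul fun a ha b hb => ?_
  rw [NNReal.coe_one, one_mul, dist_eq_norm, Real.dist_eq]
  rcases le_total a b with hab | hab
  · rw [abs_sub_comm, abs_of_nonneg (sub_nonneg.2 hab), norm_sub_rev]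
    exact hc a ha b hb hab
  · rw [abs_of_nonneg (sub_nonneg.2 hab)]
    exact hc b hb a ha hab

theorem PD.refl {x : E} (hx : x ∈ M) : PD M x x 0 :=
  ⟨le_rfl, fun _ => x, lip_of_norm (fun a _ b _ hab => by
    rw [sub_self, norm_zero]; linarith), fun _ _ => hx, rfl, rfl⟩

theorem PD.left_mem {x y : E} {l : ℝ} (h : PD M x y l) : x ∈ M := by
  obtain ⟨h0, c, _, h2, h3, _⟩ := h
  exact h3 ▸ h2 0 ⟨le_rfl, h0⟩

theorem PD.right_mem {x y : E} {l : ℝ} (h : PD M x y l) : y ∈ M := by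
  obtain ⟨h0, c, _, h2, _, h3⟩ := h
  exact h3 ▸ h2 l ⟨h0, le_rfl⟩

theorem PD.symm {x y : E} {l : ℝ} (h : PD M x y l) : PD M y x l := by
  obtain ⟨h0, c, h1, h2, h3, h4⟩ := h
  have hm : ∀ t ∈ Set.Icc 0 l, l - t ∈ Set.Icc 0 l := fun t ht =>
    ⟨by linarith [ht.2], by linarith [ht.1]⟩
  refine ⟨h0, fun t => c (l - t), lip_of_norm fun a ha b hb hab => ?_, fun t ht => h2 _ (hm t ht),
    by simpa using h4, by simpa using h3⟩
  have := lip_norm h1 (hm a ha) (hm b hb)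
  rw [abs_of_nonpos (by linarith)] at this
  linarith

theorem PD.norm_le {x y : E} {l : ℝ} (h : PD M x y l) : ‖y - x‖ ≤ l := by
  obtain ⟨h0, c, h1, h2, h3, h4⟩ := h
  have := lip_norm h1 (Set.left_mem_Icc.2 h0) (Set.right_mem_Icc.2 h0)
  rwa [h3, h4, sub_zero, abs_of_nonneg h0] at this

theorem PD.trans {x y z : E} {l l' : ℝ} (h : PD M x y l) (h' : PD M y z l') :
    PD M x z (l + l') := by
  obtain ⟨h0, c, h1, h2, h3, h4⟩ := h
  obtain ⟨k0, d, k1, k2, k3, k4⟩ := h'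
  have hm1 : ∀ t ∈ Set.Icc 0 (l + l'), t ≤ l → t ∈ Set.Icc 0 l := fun t ht h => ⟨ht.1, h⟩
  have hm2 : ∀ t ∈ Set.Icc 0 (l + l'), l ≤ t → t - l ∈ Set.Icc 0 l' := fun t ht h =>
    ⟨by linarith, by linarith [ht.2]⟩
  obtain ⟨f, hf⟩ : ∃ f : ℝ → E, f = fun t => if t ≤ l then c t else d (t - l) := ⟨_, rfl⟩
  have hd : ∀ t, l ≤ t → f t = d (t - l) := by
    intro t ht
    rw [hf]
    rcases ht.lt_or_eq with h | h
    · exact if_neg (not_le.2 h)
    · subst h
      simp only [le_refl, if_true, sub_self, h4, k3]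
  have hc : ∀ t, t ≤ l → f t = c t := fun t ht => by rw [hf]; exact if_pos ht
  refine ⟨by linarith, f, lip_of_norm ?_, ?_, ?_, ?_⟩
  · intro a ha b hb hab
    rcases le_total b l with h | h
    · rw [hc b h, hc a (hab.trans h)]
      have := lip_norm h1 (hm1 a ha (hab.trans h)) (hm1 b hb h)
      rwa [abs_of_nonneg (by linarith)] at this
    · rcases le_total a l with h' | h'
      · rw [hd b h, hc a h']
        have e1 := lip_norm h1 (hm1 a ha h') (Set.right_mem_Icc.2 h0)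
        have e2 := lip_norm k1 (Set.left_mem_Icc.2 k0) (hm2 b hb h)
        rw [abs_of_nonneg (by linarith)] at e1 e2
        rw [h4] at e1
        rw [k3] at e2
        calc ‖d (b - l) - c a‖ = ‖(d (b - l) - y) + (y - c a)‖ := by congr 1; abel
          _ ≤ ‖d (b - l) - y‖ + ‖y - c a‖ := norm_add_le _ _
          _ ≤ _ := by linarith
      · rw [hd b h, hd a h']
        have := lip_norm k1 (hm2 a ha h') (hm2 b hb h)
        rw [abs_of_nonneg (by linarith)] at this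
        linarith
  · intro t ht
    rcases le_total t l with h | h
    · rw [hc t h]; exact h2 t (hm1 t ht h)
    · rw [hd t h]; exact k2 _ (hm2 t ht h)
  · rw [hc 0 h0, h3]
  · rw [hd (l + l') (by linarith), add_sub_cancel_left, k4]

/-- A Lipschitz path on `[0, 1]`. -/
theorem PD.of_lip {K : ℝ} (hK : 0 ≤ K) {c : ℝ → E}
    (hc : ∀ a ∈ Set.Icc (0 : ℝ) 1, ∀ b ∈ Set.Icc (0 : ℝ) 1, a ≤ b → ‖c b - c a‖ ≤ K * (b - a))
    (hM : ∀ t ∈ Set.Icc (0 : ℝ) 1, c t ∈ M) : PD M (c 0) (c 1) K := by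
  rcases hK.eq_or_lt with h | h
  · have h1 := hc 0 ⟨le_rfl, zero_le_one⟩ 1 ⟨zero_le_one, le_rfl⟩ zero_le_one
    rw [← h, zero_mul] at h1
    rw [sub_eq_zero.1 (norm_le_zero_iff.1 h1), ← h]
    exact PD.refl (hM 0 ⟨le_rfl, zero_le_one⟩)
  · have hm : ∀ t ∈ Set.Icc 0 K, t / K ∈ Set.Icc (0 : ℝ) 1 := fun t ht =>
      ⟨div_nonneg ht.1 h.le, (div_le_one h).2 ht.2⟩
    refine ⟨hK, fun t => c (t / K), lip_of_norm fun a ha b hb hab => ?_, fun t ht => hM _ (hm t ht),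
      by simp, by simp [h.ne']⟩
    have := hc _ (hm a ha) _ (hm b hb) (by gcongr)
    refine this.trans (le_of_eq ?_)
    field_simp

/-- Sub-paths. -/
theorem PD.of_sub {l : ℝ} {c : ℝ → E} (h1 : LipschitzOnWith 1 c (Set.Icc 0 l))
    (h2 : ∀ t ∈ Set.Icc 0 l, c t ∈ M) {s t : ℝ} (hs : s ∈ Set.Icc 0 l) (ht : t ∈ Set.Icc 0 l)
    (hst : s ≤ t) : PD M (c s) (c t) (t - s) := by
  have hm : ∀ a ∈ Set.Icc 0 (t - s), s + a ∈ Set.Icc 0 l := fun a ha =>
    ⟨by linarith [ha.1, hs.1], by linarith [ha.2, ht.2]⟩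
  refine ⟨by linarith, fun a => c (s + a), lip_of_norm fun a ha b hb hab => ?_,
    fun a ha => h2 _ (hm a ha), by simp, by simp⟩
  have := lip_norm h1 (hm a ha) (hm b hb)
  rw [abs_of_nonneg (by linarith)] at this
  linarith

/-- Isometries. -/
theorem PD.map {x y : E} {l : ℝ} (h : PD M x y l) {f : E → E} (hf : ∀ x ∈ M, f x ∈ M)
    (hi : ∀ x y, ‖f x - f y‖ = ‖x - y‖) : PD M (f x) (f y) l := by
  obtain ⟨h0, c, h1, h2, h3, h4⟩ := h
  refine ⟨h0, fun t => f (c t), lip_of_norm fun a ha b hb hab => ?_, fun t ht => hf _ (h2 t ht),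
    congrArg f h3, congrArg f h4⟩
  rw [hi]
  have := lip_norm h1 ha hb
  rwa [abs_of_nonneg (by linarith)] at this

/-- `M` is connected by rectifiable paths. -/
def PConn (M : Set E) : Prop := ∀ x ∈ M, ∀ y ∈ M, ∃ l, PD M x y l

/-- intrinsic distance -/
noncomputable def dM (M : Set E) (x y : E) : ℝ := sInf {l | PD M x y l}

theorem dM_le {x y : E} {l : ℝ} (h : PD M x y l) : dM M x y ≤ l :=
  csInf_le ⟨0, fun _ h => h.1⟩ h

theorem dM_nonneg (x y : E) : 0 ≤ dM M x y := Real.sInf_nonneg fun _ h => h.1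

theorem exists_PD_lt (hM : PConn M) {x y : E} (hx : x ∈ M) (hy : y ∈ M) {a : ℝ}
    (h : dM M x y < a) : ∃ l, PD M x y l ∧ l < a := by
  obtain ⟨l, h1, h2⟩ := exists_lt_of_csInf_lt (hM x hx y hy) h
  exact ⟨l, h1, h2⟩

theorem le_dM (hM : PConn M) {x y : E} (hx : x ∈ M) (hy : y ∈ M) {a : ℝ}
    (h : ∀ l, PD M x y l → a ≤ l) : a ≤ dM M x y :=
  le_csInf (hM x hx y hy) h

theorem norm_le_dM (hM : PConn M) {x y : E} (hx : x ∈ M) (hy : y ∈ M) : ‖y - x‖ ≤ dM M x y :=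
  le_dM hM hx hy fun _ h => h.norm_le

theorem dM_self {x : E} (hx : x ∈ M) : dM M x x = 0 :=
  le_antisymm (dM_le (PD.refl hx)) (dM_nonneg _ _)

theorem dM_comm (x y : E) : dM M x y = dM M y x := by
  unfold dM
  congr 1
  ext l
  exact ⟨PD.symm, PD.symm⟩

theorem dM_triangle (hM : PConn M) {x y z : E} (hx : x ∈ M) (hy : y ∈ M) (hz : z ∈ M) :
    dM M x z ≤ dM M x y + dM M y z := by
  refine le_of_forall_pos_lt_add fun ε hε => ?_
  obtain ⟨l, h1, h2⟩ := exists_PD_lt hM hx hy (lt_add_of_pos_right (dM M x y) (half_pos hε))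
  obtain ⟨l', h1', h2'⟩ := exists_PD_lt hM hy hz (lt_add_of_pos_right (dM M y z) (half_pos hε))
  have := dM_le (h1.trans h1')
  linarith

theorem dM_map {f : E → E} (hf : ∀ x ∈ M, f x ∈ M)
    (hi : ∀ x y, ‖f x - f y‖ = ‖x - y‖) {g : E → E} (hg : ∀ x ∈ M, g x ∈ M)
    (hi' : ∀ x y, ‖g x - g y‖ = ‖x - y‖) (hgf : ∀ x, g (f x) = x) (x y : E) :
    dM M (f x) (f y) = dM M x y := by
  unfold dM
  congr 1
  ext l
  refine ⟨fun h => ?_, fun h => PD.map h hf hi⟩
  have := PD.map h hg hi'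
  rwa [hgf, hgf] at this

/-- Local to global principle for Lipschitz constants. -/
theorem lip_local {l : ℝ} {c : ℝ → E} (hc : ContinuousOn c (Set.Icc 0 l))
    (h : ∀ s ∈ Set.Ico 0 l, ∀ r : ℝ, 1 < r → ∀ᶠ t in 𝓝[>] s, ‖c t - c s‖ ≤ r * (t - s)) :
    LipschitzOnWith 1 c (Set.Icc 0 l) := by
  refine lip_of_norm fun a ha b hb hab => ?_
  have hsub : Set.Icc a b ⊆ Set.Icc 0 l := Set.Icc_subset_Icc ha.1 hb.2
  refine image_le_of_liminf_slope_right_le_deriv_boundary (f := fun t => ‖c t - c a‖) (a := a)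
    (b := b) (B := fun t => t - a) (B' := fun _ => 1) ?_ ?_ ?_ ?_ ?_ (Set.right_mem_Icc.2 hab)
  · exact ((hc.mono hsub).sub continuousOn_const).norm
  · simp
  · fun_prop
  · exact fun x _ => ((hasDerivAt_id x).sub_const a).hasDerivWithinAt
  · intro s hs r hr
    refine Filter.Eventually.frequently ?_
    obtain ⟨r', hr1, hr2⟩ := exists_between hr
    have h1 := h s ⟨ha.1.trans hs.1, hs.2.trans_le hb.2⟩ r' hr1
    filter_upwards [h1, self_mem_nhdsWithin] with t ht hst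
    have hst' : 0 < t - s := sub_pos.2 hst
    rw [slope_def_field, div_lt_iff₀ hst']
    have h2 : ‖c t - c a‖ ≤ ‖c t - c s‖ + ‖c s - c a‖ := by
      have := norm_add_le (c t - c s) (c s - c a)
      simpa using this
    have h3 : r' * (t - s) < r * (t - s) := by gcongr
    linarith

end Pool.Agent.H82.AX
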