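import Pool.Agent.H82.AX.Exp
import Pool.Agent.H82.AX.Path

/-!
# Surjectivity of the exponential map, normal coordinates and the intrinsic distance
-/

set_option autoImplicit false

open scoped Topology InnerProductSpace

namespace Pool.Agent.H82.AX

open Pool.Agent.H75.AX.Spec

variable {E : Type} [NormedAddCommGroup E] [InnerProductSpace ℝ E]

variable {M : Set E} {n : ℕ} {Pi : E → E →L[ℝ] E} {Q : E → E →L[ℝ] E →L[ℝ] E} {C r : ℝ}

variable (h : Geom M n Pi Q C r) (hC1 : 1 ≤ C)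
include h hC1

theorem ex_half {x v w : E} (hx : x ∈ M) (hvt : Pi x v = v) (hwt : Pi x w = w)
    (hv : ‖v‖ ≤ rad C r) (hw : ‖w‖ ≤ rad C r) :
    ‖ex M Pi Q x w - ex M Pi Q x v - (w - v)‖ ≤ ‖w - v‖ / 2 := by
  have h1 := ex_sub h hC1 hx hvt hwt hv hw le_rfl
  have h2 := rad_C h (le_refl (rad C r))
  have h3 : 6 * C * rad C r * ‖w - v‖ ≤ 1 / 2 * ‖w - v‖ := by
    have : 6 * C * rad C r ≤ 1 / 2 := by linarith
    gcongr
  linarith

theorem exists_solve [CompleteSpace E] {x u : E} (hx : x ∈ M) (hu : Pi x u = u)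
    (hur : ‖u‖ ≤ rad C r / 2) :
    ∃ v, Pi x v = v ∧ ‖v‖ ≤ 2 * ‖u‖ ∧ Pi x (ex M Pi Q x v - x) = u := by
  have hr0 := rad_pos h
  obtain ⟨f, hf⟩ : ∃ f : E → E, f = fun v => v - Pi x (ex M Pi Q x v - x) + u := ⟨_, rfl⟩
  obtain ⟨s, hs⟩ : ∃ s : Set E, s = {v | Pi x v = v} ∩ Metric.closedBall 0 (rad C r) := ⟨_, rfl⟩
  have hms : ∀ v, v ∈ s ↔ Pi x v = v ∧ ‖v‖ ≤ rad C r := by
    intro v; rw [hs]; simp
  have hsc : IsComplete s := by
    rw [hs]
    exact ((isClosed_eq (Pi x).continuous continuous_id).inter Metric.isClosed_closedBall).isComplete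
  have hz0 : Pi x 0 = 0 := map_zero _
  have hsub : ∀ v ∈ s, ∀ w ∈ s, ‖f w - f v‖ ≤ 1 / 2 * ‖w - v‖ := by
    intro v hv w hw
    rw [hms] at hv hw
    have e : f w - f v = -(Pi x (ex M Pi Q x w - ex M Pi Q x v - (w - v))) := by
      rw [hf]
      simp only [map_sub, hv.1, hw.1]
      abel
    rw [e, norm_neg]
    have := ex_half h hC1 hx hv.1 hw.1 hv.2 hw.2
    exact (norm_Pi_le h hx _).trans (by linarith)
  have h0s : (0 : E) ∈ s := by rw [hms]; exact ⟨hz0, by simpa using hr0.le⟩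
  have hf0 : f 0 = u := by rw [hf]; simp [ex_zero h hC1 hx]
  have hfs : Set.MapsTo f s s := by
    intro v hv
    have h1 := hsub 0 h0s v hv
    rw [hf0, sub_zero] at h1
    rw [hms] at hv ⊢
    refine ⟨?_, ?_⟩
    · rw [hf]
      simp only [map_add, map_sub, hv.1, hu]
      rw [h.idem x hx, h.idem x hx]
    · have h2 : ‖f v‖ ≤ ‖f v - u‖ + ‖u‖ := by
        have := norm_add_le (f v - u) u
        simpa using this
      linarith [hv.2]
  have hcontr : ContractingWith (1 / 2) (hfs.restrict f s s) := by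
    refine ⟨by norm_num, LipschitzWith.of_dist_le_mul fun v w => ?_⟩
    rw [Subtype.dist_eq, Subtype.dist_eq, dist_eq_norm, dist_eq_norm]
    have := hsub w w.2 v v.2
    simpa using this
  obtain ⟨v, hv, hfix, _, _⟩ := ContractingWith.exists_fixedPoint' hsc hfs hcontr h0s
    (edist_ne_top _ _)
  have h1 : f v = v := hfix
  have hv' := (hms v).1 hv
  have h2 : Pi x (ex M Pi Q x v - x) = u := by
    rw [hf] at h1
    simp only at h1
    have : v - Pi x (ex M Pi Q x v - x) + u = v := h1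
    have h3 : u - Pi x (ex M Pi Q x v - x) = 0 := by
      have h4 : v - Pi x (ex M Pi Q x v - x) + u = v + (u - Pi x (ex M Pi Q x v - x)) := by abel
      rw [h4] at this
      exact add_eq_left.1 this
    exact (sub_eq_zero.1 h3).symm
  refine ⟨v, hv'.1, ?_, h2⟩
  have h3 := hsub 0 h0s v hv
  rw [hf0, h1, sub_zero] at h3
  have h4 : ‖v‖ ≤ ‖v - u‖ + ‖u‖ := by
    have := norm_add_le (v - u) u
    simpa using this
  linarith

theorem ex_norm_le {x v : E} (hx : x ∈ M) (hvt : Pi x v = v) (hv : ‖v‖ ≤ rad C r) :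
    ‖ex M Pi Q x v - x‖ ≤ ‖v‖ := by
  have h1 := ex_ray h hC1 hx hvt hv mem0 mem1
  rw [one_smul, zero_smul, ex_zero h hC1 hx] at h1
  simpa using h1

/-- A point of `M` near `x` is determined by its tangential coordinate. -/
theorem tan_inj {x p q : E} (hx : x ∈ M) (hp : p ∈ M) (hq : q ∈ M)
    (hpx : ‖p - x‖ ≤ rad C r) (hqx : ‖q - x‖ ≤ rad C r)
    (he : Pi x (p - x) = Pi x (q - x)) : p = q := by
  have hC := h.C_pos
  have h12 := rad_C h (le_refl (rad C r))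
  have h1 : Pi x (p - q) = 0 := by
    have : p - q = (p - x) - (q - x) := by abel
    rw [this, map_sub, he, sub_self]
  have h2 := h.chord q hq p hp
  have h3 : ‖Pi q (p - q)‖ ≤ C * rad C r * ‖p - q‖ := by
    have e : Pi q (p - q) = (Pi q - Pi x) (p - q) := by rw [sub_apply, h1, sub_zero]
    rw [e]
    refine ((Pi q - Pi x).le_opNorm _).trans ?_
    gcongr
    exact (h.lip_Pi q hq x hx).trans (by gcongr)
  have h4 : ‖p - q‖ ≤ ‖p - q - Pi q (p - q)‖ + ‖Pi q (p - q)‖ := by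
    have := norm_add_le (p - q - Pi q (p - q)) (Pi q (p - q))
    simpa using this
  have h5 : ‖p - q‖ ≤ 2 * rad C r := by
    have : p - q = (p - x) - (q - x) := by abel
    rw [this]
    exact (norm_sub_le _ _).trans (by linarith)
  have h6 : C * ‖p - q‖ ^ 2 ≤ 2 * (C * rad C r) * ‖p - q‖ := by
    have : ‖p - q‖ ^ 2 ≤ 2 * rad C r * ‖p - q‖ := by
      rw [sq]; gcongr
    nlinarith
  have h7 : C * rad C r ≤ 1 / 12 := by linarith
  have h8 : C * rad C r * ‖p - q‖ ≤ 1 / 12 * ‖p - q‖ := by gcongr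
  have h9 : ‖p - q‖ ≤ 0 := by nlinarith [norm_nonneg (p - q)]
  exact sub_eq_zero.1 (norm_le_zero_iff.1 h9)

/-- Points near `x` are in the image of the exponential map. -/
theorem near_ex [CompleteSpace E] {x q : E} (hx : x ∈ M) (hq : q ∈ M)
    (hqx : ‖q - x‖ ≤ rad C r / 2) :
    ∃ v, Pi x v = v ∧ ‖v‖ ≤ 2 * ‖Pi x (q - x)‖ ∧ ex M Pi Q x v = q := by
  have hr0 := rad_pos h
  obtain ⟨v, h1, h2, h3⟩ := exists_solve h hC1 hx (u := Pi x (q - x)) (h.idem x hx _)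
    ((norm_Pi_le h hx _).trans hqx)
  have hv : ‖v‖ ≤ rad C r := by
    have := norm_Pi_le h hx (q - x)
    linarith
  refine ⟨v, h1, h2, tan_inj h hC1 hx (ex_mem h hC1 hx h1 hv) hq
    ((ex_norm_le h hC1 hx h1 hv).trans hv) (by linarith) h3⟩

/-- Rays. -/
theorem PD_ray {x v : E} (hx : x ∈ M) (hvt : Pi x v = v) (hv : ‖v‖ ≤ rad C r) :
    PD M x (ex M Pi Q x v) ‖v‖ := by
  have h1 := PD.of_lip (M := M) (norm_nonneg v) (c := fun t => ex M Pi Q x (t • v))
    (fun a ha b hb hab => by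
      have := ex_ray h hC1 hx hvt hv ha hb
      rwa [abs_of_nonneg (sub_nonneg.2 hab)] at this)
    (fun t ht => by
      refine ex_mem h hC1 hx (tan_smul hvt t) ?_
      rw [norm_smul, Real.norm_eq_abs, abs_of_nonneg ht.1]
      have := mul_le_mul_of_nonneg_right ht.2 (norm_nonneg v)
      linarith)
  simpa [ex_zero h hC1 hx] using h1

theorem PD_near [CompleteSpace E] {x q : E} (hx : x ∈ M) (hq : q ∈ M)
    (hqx : ‖q - x‖ ≤ rad C r / 2) : ∃ l, PD M x q l ∧ l ≤ 2 * ‖q - x‖ := by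
  obtain ⟨v, h1, h2, h3⟩ := near_ex h hC1 hx hq hqx
  have h4 := norm_Pi_le h hx (q - x)
  refine ⟨‖v‖, h3 ▸ PD_ray h hC1 hx h1 (by linarith), by linarith⟩

theorem pconn [CompleteSpace E] : PConn M := by
  have hr0 := rad_pos h
  intro x hx y hy
  refine IsPreconnected.induction₂ h.conn.isPreconnected (fun x y => ∃ l, PD M x y l) ?_ ?_ ?_
    hx hy
  · intro x hx
    have h1 : ∀ᶠ q in 𝓝[M] x, ‖q - x‖ < rad C r / 2 := by
      refine Filter.Eventually.filter_mono nhdsWithin_le_nhds ?_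
      have := Metric.ball_mem_nhds x (half_pos hr0)
      filter_upwards [this] with q hq
      rwa [mem_ball_iff_norm] at hq
    filter_upwards [h1, self_mem_nhdsWithin] with q hq hqM
    obtain ⟨l, h2, _⟩ := PD_near h hC1 hx hqM hq.le
    exact ⟨l, h2⟩
  · rintro x y z _ _ _ ⟨l, h1⟩ ⟨l', h2⟩
    exact ⟨_, h1.trans h2⟩
  · rintro x y _ _ ⟨l, h1⟩
    exact ⟨l, h1.symm⟩

theorem dM_near [CompleteSpace E] {x q : E} (hx : x ∈ M) (hq : q ∈ M)
    (hqx : ‖q - x‖ ≤ rad C r / 2) : dM M x q ≤ 2 * ‖q - x‖ := by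
  obtain ⟨l, h1, h2⟩ := PD_near h hC1 hx hq hqx
  exact (dM_le h1).trans h2

omit h hC1 in
theorem bm_small {v : E} (hv0 : v ≠ 0) {η : ℝ} (hη : 0 < η) :
    ∀ᶠ w in 𝓝 v, w ≠ 0 ∧ |‖w‖ - ‖v‖| + ‖(‖v‖ / ‖w‖) • w - v‖ < η := by
  have hv : ‖v‖ ≠ 0 := norm_ne_zero_iff.2 hv0
  have h1 : ContinuousAt (fun w : E => |‖w‖ - ‖v‖| + ‖(‖v‖ / ‖w‖) • w - v‖) v := by
    have h2 : ContinuousAt (fun w : E => ‖v‖ / ‖w‖) v :=
      continuousAt_const.div continuous_norm.continuousAt hv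
    exact ((continuous_norm.continuousAt.sub continuousAt_const).abs).add
      ((h2.smul continuousAt_id).sub continuousAt_const).norm
  have h3 : |‖v‖ - ‖v‖| + ‖(‖v‖ / ‖v‖) • v - v‖ = 0 := by
    simp [div_self hv]
  have h4 := h1.eventually_lt (continuousAt_const (y := η)) (by rw [h3]; exact hη)
  filter_upwards [h4, isOpen_ne.mem_nhds hv0] with w hw hw0
  exact ⟨hw0, hw⟩

/-- The norm is locally `(1 + ε)`-Lipschitz in exponential coordinates. -/
theorem norm_local {x v : E} (hx : x ∈ M) (hvt : Pi x v = v) (hv : ‖v‖ ≤ rad C r) {a : ℝ}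
    (ha : 1 < a) : ∀ᶠ w in 𝓝 v, Pi x w = w → ‖w‖ ≤ rad C r →
      ‖w‖ - ‖v‖ ≤ a * ‖ex M Pi Q x w - ex M Pi Q x v‖ := by
  have hC := h.C_pos
  have ha0 : 0 < a := by linarith
  rcases eq_or_ne v 0 with rfl | hv0
  · have h1 : ∀ᶠ w : E in 𝓝 0, 6 * C * ‖w‖ < 1 - 1 / a := by
      have h2 : ContinuousAt (fun w : E => 6 * C * ‖w‖) 0 := by fun_prop
      refine h2.eventually_lt (continuousAt_const (y := 1 - 1 / a)) ?_
      simp only [norm_zero, mul_zero]
      have : 1 / a < 1 := by rw [div_lt_one ha0]; exact ha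
      linarith
    filter_upwards [h1] with w hw hwt hwr
    have h2 := ex_sub h hC1 hx (map_zero (Pi x)) hwt (ρ := ‖w‖) (by simp) le_rfl hwr
    rw [sub_zero] at h2
    have h3 : ‖w‖ ≤ ‖ex M Pi Q x w - ex M Pi Q x 0‖ +
        ‖ex M Pi Q x w - ex M Pi Q x 0 - w‖ := by
      have e : w = (ex M Pi Q x w - ex M Pi Q x 0) - (ex M Pi Q x w - ex M Pi Q x 0 - w) := by abel
      conv_lhs => rw [e]
      exact norm_sub_le _ _
    have h4 : 6 * C * ‖w‖ * ‖w‖ ≤ (1 - 1 / a) * ‖w‖ := by gcongr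
    have h5 : 1 / a * ‖w‖ ≤ ‖ex M Pi Q x w - ex M Pi Q x 0‖ := by linarith
    rw [norm_zero, sub_zero]
    calc ‖w‖ = a * (1 / a * ‖w‖) := by field_simp
      _ ≤ _ := by gcongr
  · have hv' : 0 < ‖v‖ := norm_pos_iff.2 hv0
    obtain ⟨K, hK⟩ : ∃ K, K = 6 * C + 14 / ‖v‖ := ⟨_, rfl⟩
    have hK0 : 0 < K := by rw [hK]; positivity
    obtain ⟨δ, hδ⟩ : ∃ δ, δ = min (1 / 4) (1 - 1 / a ^ 2) := ⟨_, rfl⟩
    have hδ0 : 0 < δ := by
      rw [hδ]
      refine lt_min (by norm_num) ?_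
      have : 1 / a ^ 2 < 1 := by
        rw [div_lt_one (by positivity)]
        nlinarith
      linarith
    have hδ1 : δ ≤ 1 / 4 := hδ ▸ min_le_left _ _
    have hδ2 : δ ≤ 1 - 1 / a ^ 2 := hδ ▸ min_le_right _ _
    filter_upwards [bm_small hv0 (show 0 < δ / (2 * K) by positivity)] with w hw hwt hwr
    obtain ⟨hw0, hw1⟩ := hw
    have h1 := ex_local h hC1 hx hvt hwt hv hwr hv0 hw0
    have hw' : ‖(‖v‖ / ‖w‖) • w‖ ≤ rad C r := by
      rw [norm_smul, Real.norm_eq_abs, abs_of_pos (by have := norm_pos_iff.2 hw0; positivity),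
        div_mul_cancel₀ _ (norm_ne_zero_iff.2 hw0)]
      exact hv
    have h2 := ex_lower h hC1 hx hvt (tan_smul hwt (‖v‖ / ‖w‖)) hv hw'
    rw [← hK] at h1
    obtain ⟨m, hm⟩ : ∃ m, m = ‖(‖v‖ / ‖w‖) • w - v‖ := ⟨_, rfl⟩
    obtain ⟨b, hb⟩ : ∃ b, b = |‖w‖ - ‖v‖| := ⟨_, rfl⟩
    obtain ⟨D, hD⟩ : ∃ D, D = ‖ex M Pi Q x w - ex M Pi Q x v‖ := ⟨_, rfl⟩
    obtain ⟨D', hD'⟩ : ∃ D', D' = ‖ex M Pi Q x ((‖v‖ / ‖w‖) • w) - ex M Pi Q x v‖ := ⟨_, rfl⟩
    rw [← hm, ← hb] at hw1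
    rw [← hD, ← hD', ← hm, ← hb, ← sq_abs (‖w‖ - ‖v‖), ← hb] at h1
    rw [← hm, ← hD'] at h2
    rw [← hD]
    have hm0 : 0 ≤ m := hm ▸ norm_nonneg _
    have hb0 : 0 ≤ b := hb ▸ abs_nonneg _
    have hD0 : 0 ≤ D := hD ▸ norm_nonneg _
    have h3 : K * (b + m) ^ 3 ≤ δ * (b ^ 2 + m ^ 2) := by
      have h4 : K * (b + m) ≤ δ / 2 := by
        rw [lt_div_iff₀ (by positivity)] at hw1
        linarith
      have h5 : (b + m) ^ 2 ≤ 2 * (b ^ 2 + m ^ 2) := by nlinarith [sq_nonneg (b - m)]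
      calc K * (b + m) ^ 3 = K * (b + m) * (b + m) ^ 2 := by ring
        _ ≤ δ / 2 * (2 * (b ^ 2 + m ^ 2)) := by gcongr
        _ = _ := by ring
    have h4 : D ^ 2 ≥ b ^ 2 + D' ^ 2 - K * (b + m) ^ 3 := by
      have := (abs_le.1 h1).1
      linarith
    have h5 : m ^ 2 / 4 ≤ D' ^ 2 := by
      have : (m / 2) ^ 2 ≤ D' ^ 2 := by gcongr
      linarith [this, show (m / 2) ^ 2 = m ^ 2 / 4 by ring]
    have h6 : b ^ 2 / a ^ 2 ≤ D ^ 2 := by
      have e1 : b ^ 2 / a ^ 2 = 1 / a ^ 2 * b ^ 2 := by ring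
      have e2 : δ * m ^ 2 ≤ 1 / 4 * m ^ 2 := by gcongr
      have e3 : δ * b ^ 2 ≤ (1 - 1 / a ^ 2) * b ^ 2 := by gcongr
      rw [e1]
      linarith
    have h7 : b ≤ a * D := by
      rw [div_le_iff₀ (by positivity)] at h6
      refine le_of_sq_le_sq ?_ (by positivity)
      linarith [show (a * D) ^ 2 = D ^ 2 * a ^ 2 by ring]
    exact (le_abs_self _).trans (hb ▸ h7)

/-- The intrinsic distance along a ray. -/
theorem dM_ray [CompleteSpace E] {x v : E} (hx : x ∈ M) (hvt : Pi x v = v)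
    (hv : ‖v‖ ≤ rad C r / 2) : dM M x (ex M Pi Q x v) = ‖v‖ := by
  have hr0 := rad_pos h
  have hv' : ‖v‖ ≤ rad C r := by linarith
  refine le_antisymm (dM_le (PD_ray h hC1 hx hvt hv')) ?_
  refine le_dM (pconn h hC1) hx (ex_mem h hC1 hx hvt hv') ?_
  rintro l ⟨h0, c, h1, h2, h3, h4⟩
  by_contra hlt
  rw [not_le] at hlt
  have hcx : ∀ t ∈ Set.Icc 0 l, ‖c t - x‖ ≤ rad C r / 2 := by
    intro t ht
    have := lip_norm h1 (Set.left_mem_Icc.2 h0) ht
    rw [h3, sub_zero, abs_of_nonneg ht.1] at this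
    linarith [ht.2]
  have hex : ∀ t, ∃ u, t ∈ Set.Icc 0 l → (Pi x u = u ∧ ‖u‖ ≤ rad C r ∧ ex M Pi Q x u = c t) := by
    intro t
    by_cases ht : t ∈ Set.Icc 0 l
    · obtain ⟨u, e1, e2, e3⟩ := near_ex h hC1 hx (h2 t ht) (hcx t ht)
      refine ⟨u, fun _ => ⟨e1, ?_, e3⟩⟩
      have := norm_Pi_le h hx (c t - x)
      have := hcx t ht
      linarith
    · exact ⟨0, fun h => absurd h ht⟩
  choose u hu using hex
  have hul : ∀ s ∈ Set.Icc 0 l, ∀ t ∈ Set.Icc 0 l, ‖u t - u s‖ ≤ 2 * |t - s| := by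
    intro s hs t ht
    obtain ⟨a1, a2, a3⟩ := hu s hs
    obtain ⟨b1, b2, b3⟩ := hu t ht
    have e1 := ex_lower h hC1 hx a1 b1 a2 b2
    rw [a3, b3] at e1
    have e2 := lip_norm h1 hs ht
    linarith
  have huc : ContinuousOn u (Set.Icc 0 l) := by
    have : LipschitzOnWith 2 u (Set.Icc 0 l) := by
      refine LipschitzOnWith.of_dist_le_mul fun a ha b hb => ?_
      rw [dist_eq_norm, Real.dist_eq]
      exact hul b hb a ha
    exact this.continuousOn
  have hend : u l = v := by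
    obtain ⟨a1, a2, a3⟩ := hu l (Set.right_mem_Icc.2 h0)
    have e1 := ex_lower h hC1 hx hvt a1 hv' a2
    rw [a3, h4, sub_self, norm_zero] at e1
    exact sub_eq_zero.1 (norm_le_zero_iff.1 (by linarith))
  have hstart : u 0 = 0 := by
    obtain ⟨a1, a2, a3⟩ := hu 0 (Set.left_mem_Icc.2 h0)
    have e1 := ex_lower h hC1 hx (map_zero (Pi x)) a1 (by simpa using hr0.le) a2
    rw [a3, h3, ex_zero h hC1 hx, sub_self, norm_zero, sub_zero] at e1
    exact norm_le_zero_iff.1 (by linarith)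
  have key : ‖u l‖ ≤ l := by
    refine image_le_of_liminf_slope_right_le_deriv_boundary (f := fun t => ‖u t‖) (a := 0)
      (b := l) (B := fun t => t) (B' := fun _ => 1) ?_ ?_ ?_ ?_ ?_ (Set.right_mem_Icc.2 h0)
    · exact huc.norm
    · rw [hstart, norm_zero]
    · fun_prop
    · exact fun x _ => (hasDerivAt_id x).hasDerivWithinAt
    · intro s hs a ha
      refine Filter.Eventually.frequently ?_
      obtain ⟨a', ha1, ha2⟩ := exists_between ha
      have hs' : s ∈ Set.Icc 0 l := ⟨hs.1, hs.2.le⟩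
      obtain ⟨a1, a2, a3⟩ := hu s hs'
      have e1 := norm_local h hC1 hx a1 a2 ha1
      have e2 : Filter.Tendsto u (𝓝[>] s) (𝓝 (u s)) := by
        have := huc s hs'
        refine this.mono_left ?_
        have e3 : 𝓝[>] s = 𝓝[Set.Ioc s l] s := (nhdsWithin_Ioc_eq_nhdsGT hs.2).symm
        rw [e3]
        exact nhdsWithin_mono _ fun t ht => ⟨hs.1.trans ht.1.le, ht.2⟩
      filter_upwards [e2.eventually e1, Ioc_mem_nhdsGT hs.2] with t ht hst
      have ht' : t ∈ Set.Icc 0 l := ⟨hs.1.trans hst.1.le, hst.2⟩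
      obtain ⟨b1, b2, b3⟩ := hu t ht'
      have e4 := ht b1 b2
      rw [a3, b3] at e4
      have hst' : 0 < t - s := sub_pos.2 hst.1
      have e5 := lip_norm h1 hs' ht'
      rw [abs_of_pos hst'] at e5
      rw [slope_def_field, div_lt_iff₀ hst']
      have e6 : a' * ‖c t - c s‖ ≤ a' * (t - s) := by
        have : 0 ≤ a' := by linarith
        gcongr
      have e7 : a' * (t - s) < a * (t - s) := by gcongr
      linarith
  rw [hend] at key
  linarith

end Pool.Agent.H82.AX
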