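import Pool.Agent.H82.AX.Geo

/-!
# The exponential map of a submanifold with second-order data
-/

set_option autoImplicit false

open scoped Topology InnerProductSpace

namespace Pool.Agent.H82.AX

open Pool.Agent.H75.AX.Spec

variable {E : Type} [NormedAddCommGroup E] [InnerProductSpace ℝ E]

variable {M : Set E} {n : ℕ} {Pi : E → E →L[ℝ] E} {Q : E → E →L[ℝ] E →L[ℝ] E} {C r : ℝ}

theorem mem0 : (0 : ℝ) ∈ Set.Icc (0 : ℝ) 1 := ⟨le_rfl, zero_le_one⟩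

theorem mem1 : (1 : ℝ) ∈ Set.Icc (0 : ℝ) 1 := ⟨zero_le_one, le_rfl⟩

/-- Gauss lemma. -/
theorem Geo.gauss (h : Geom M n Pi Q C r) (hC1 : 1 ≤ C) {x v w : E} {γ γ' η η' : ℝ → E}
    (g : Geo M Pi Q x v γ γ') (k : Geo M Pi Q x w η η') (hvw : ‖w‖ = ‖v‖)
    (hρ : 6 * C * ‖v‖ ≤ 1) (hρ1 : ‖v‖ ≤ 1) :
    |⟪η 1 - γ 1, γ' 1⟫_ℝ| ≤ 3 * ‖w - v‖ ^ 2 := by
  have hC := h.C_pos
  obtain ⟨e1, e2, e3, e4⟩ := g.sub_est h k le_rfl hvw.le hρ hρ1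
  obtain ⟨D, hD⟩ : ∃ D, D = ‖w - v‖ := ⟨_, rfl⟩
  have hD0 : 0 ≤ D := hD ▸ norm_nonneg _
  rw [← hD] at e1 e2 e3 e4 ⊢
  have hder : ∀ t ∈ Set.Icc (0 : ℝ) 1, HasDerivWithinAt (fun t => ⟪η t - γ t, γ' t⟫_ℝ)
      (⟪η t - γ t, Q (γ t) (γ' t) (γ' t)⟫_ℝ + ⟪η' t - γ' t, γ' t⟫_ℝ) (Set.Icc 0 1) t :=
    fun t ht => ((k.der t ht).sub (g.der t ht)).inner ℝ (g.der' t ht)
  have hb : ∀ t ∈ Set.Icc (0 : ℝ) 1,
      ‖⟪η t - γ t, Q (γ t) (γ' t) (γ' t)⟫_ℝ + ⟪η' t - γ' t, γ' t⟫_ℝ‖ ≤ 3 * D ^ 2 := by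
    intro t ht
    have h1 : ⟪η' t - γ' t, γ' t⟫_ℝ = -(‖η' t - γ' t‖ ^ 2) / 2 := by
      have h2 : ‖η' t‖ ^ 2 = ‖γ' t‖ ^ 2 := by rw [k.speed t ht, g.speed t ht, hvw]
      have h3 : ‖η' t‖ ^ 2 = ‖(η' t - γ' t) + γ' t‖ ^ 2 := by rw [sub_add_cancel]
      rw [norm_add_sq_real] at h3
      linarith
    have h4 : ‖⟪η' t - γ' t, γ' t⟫_ℝ‖ ≤ 2 * D ^ 2 := by
      rw [h1, Real.norm_eq_abs, abs_div, abs_neg, abs_of_nonneg (sq_nonneg _), abs_two]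
      have := e1 t ht
      have h5 : ‖η' t - γ' t‖ ^ 2 ≤ (2 * D) ^ 2 := by gcongr
      linarith
    have h5 : ‖⟪η t - γ t, Q (γ t) (γ' t) (γ' t)⟫_ℝ‖ ≤ D ^ 2 := by
      obtain ⟨q, hq⟩ : ∃ q, q = Q (γ t) (γ' t) (γ' t) := ⟨_, rfl⟩
      have hqn : ‖q‖ ≤ C * ‖v‖ ^ 2 := by
        rw [hq]
        refine (norm_Q_le h (g.mem t ht) _ _).trans ?_
        rw [g.speed t ht]
        exact le_of_eq (by ring)
      have hPq : Pi (γ t) q = 0 := by rw [hq]; exact h.normal _ (g.mem t ht) _ _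
      rw [← hq]
      have e : ⟪η t - γ t, q⟫_ℝ = ⟪(η t - γ t) - Pi (γ t) (η t - γ t), q⟫_ℝ := by
        rw [inner_sub_left (η t - γ t) (Pi (γ t) (η t - γ t)),
          h.symm _ (g.mem t ht), hPq, inner_zero_right, sub_zero]
      rw [e]
      refine (norm_inner_le_norm _ _).trans ?_
      have h6 := h.chord _ (g.mem t ht) _ (k.mem t ht)
      have h7 := e2 t ht
      have h8 : ‖η t - γ t - Pi (γ t) (η t - γ t)‖ ≤ C * (2 * D) ^ 2 :=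
        h6.trans (by gcongr)
      have h9 : ‖η t - γ t - Pi (γ t) (η t - γ t)‖ * ‖q‖ ≤ (C * (2 * D) ^ 2) * (C * ‖v‖ ^ 2) := by
        gcongr
      refine h9.trans ?_
      have h10 : (6 * C * ‖v‖) ^ 2 ≤ 1 := by
        have : 0 ≤ 6 * C * ‖v‖ := by positivity
        nlinarith
      have h11 : 0 ≤ D ^ 2 := by positivity
      nlinarith
    calc _ ≤ _ := norm_add_le _ _
      _ ≤ _ := by linarith
  have h1 := Convex.norm_image_sub_le_of_norm_hasDerivWithin_le hder hb (convex_Icc _ _) mem0 mem1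
  simp only [k.zero, g.zero, sub_self, sub_zero, inner_zero_left, norm_one, mul_one] at h1
  exact h1

/-- Second-order expansion along a geodesic. -/
theorem Geo.taylor (h : Geom M n Pi Q C r) {x v : E} {γ γ' : ℝ → E}
    (g : Geo M Pi Q x v γ γ') {s t : ℝ} (hs : s ∈ Set.Icc (0 : ℝ) 1)
    (ht : t ∈ Set.Icc (0 : ℝ) 1) :
    ‖γ t - γ s - (t - s) • γ' s‖ ≤ C * ‖v‖ ^ 2 * (t - s) ^ 2 := by
  have hC := h.C_pos
  have hsub : Set.uIcc s t ⊆ Set.Icc (0 : ℝ) 1 := by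
    intro u hu
    rw [Set.mem_uIcc] at hu
    rcases hu with ⟨h1, h2⟩ | ⟨h1, h2⟩
    · exact ⟨hs.1.trans h1, h2.trans ht.2⟩
    · exact ⟨ht.1.trans h1, h2.trans hs.2⟩
  have hacc : ∀ u ∈ Set.Icc (0 : ℝ) 1, ‖Q (γ u) (γ' u) (γ' u)‖ ≤ C * ‖v‖ ^ 2 := by
    intro u hu
    refine (norm_Q_le h (g.mem u hu) _ _).trans ?_
    rw [g.speed u hu]
    exact le_of_eq (by ring)
  have hd1 : ∀ u ∈ Set.uIcc s t, ‖γ' u - γ' s‖ ≤ C * ‖v‖ ^ 2 * |t - s| := by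
    intro u hu
    have h1 := Convex.norm_image_sub_le_of_norm_hasDerivWithin_le g.der' hacc (convex_Icc _ _)
      hs (hsub hu)
    refine h1.trans ?_
    rw [Real.norm_eq_abs]
    have h2 : |u - s| ≤ |t - s| := by
      rw [Set.mem_uIcc] at hu
      rcases hu with ⟨h1, h2⟩ | ⟨h1, h2⟩
      · rw [abs_of_nonneg (by linarith), abs_of_nonneg (by linarith)]; linarith
      · rw [abs_of_nonpos (by linarith), abs_of_nonpos (by linarith)]; linarith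
    gcongr
  have hder : ∀ u ∈ Set.uIcc s t, HasDerivWithinAt (fun u => γ u - (u - s) • γ' s)
      (γ' u - γ' s) (Set.uIcc s t) u := by
    intro u hu
    have h2 : HasDerivWithinAt (fun u : ℝ => (u - s) • γ' s) ((1 : ℝ) • γ' s)
        (Set.uIcc s t) u := ((hasDerivWithinAt_id u _).sub_const s).smul_const (γ' s)
    rw [one_smul] at h2
    exact ((g.der u (hsub hu)).mono hsub).sub h2
  have h1 := Convex.norm_image_sub_le_of_norm_hasDerivWithin_le hder hd1 (convex_uIcc _ _)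
    Set.left_mem_uIcc Set.right_mem_uIcc
  simp only [sub_self, zero_smul, sub_zero] at h1
  have e : γ t - γ s - (t - s) • γ' s = γ t - (t - s) • γ' s - γ s := by abel
  rw [e]
  refine h1.trans ?_
  rw [Real.norm_eq_abs, mul_assoc, ← abs_mul, ← sq, abs_of_nonneg (sq_nonneg _)]

open Classical in
/-- The exponential map. -/
noncomputable def ex (M : Set E) (Pi : E → E →L[ℝ] E) (Q : E → E →L[ℝ] E →L[ℝ] E) (x v : E) : E :=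
  if h : ∃ γ γ' : ℝ → E, Geo M Pi Q x v γ γ' then h.choose 1 else x

/-- A safe radius. -/
noncomputable def rad (C r : ℝ) : ℝ := min r (1 / (12 * C))

theorem rad_pos (h : Geom M n Pi Q C r) : 0 < rad C r :=
  lt_min h.r_pos (by have := h.C_pos; positivity)

theorem rad_le (C r : ℝ) : rad C r ≤ r := min_le_left _ _

theorem rad_C (h : Geom M n Pi Q C r) {ρ : ℝ} (hρ : ρ ≤ rad C r) : 12 * C * ρ ≤ 1 := by
  have hC := h.C_pos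
  have h1 : ρ ≤ 1 / (12 * C) := hρ.trans (min_le_right _ _)
  rw [le_div_iff₀ (by positivity)] at h1
  linarith

theorem rad_6 (h : Geom M n Pi Q C r) {ρ : ℝ} (h0 : 0 ≤ ρ) (hρ : ρ ≤ rad C r) :
    6 * C * ρ ≤ 1 := by
  have := rad_C h hρ
  have := h.C_pos
  have : 0 ≤ C * ρ := by positivity
  linarith

theorem rad_1 (h : Geom M n Pi Q C r) (hC1 : 1 ≤ C) {ρ : ℝ} (h0 : 0 ≤ ρ) (hρ : ρ ≤ rad C r) :
    ρ ≤ 1 := by
  have := rad_C h hρ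
  nlinarith

theorem tan_smul {x v : E} (hv : Pi x v = v) (s : ℝ) : Pi x (s • v) = s • v := by
  rw [map_smul, hv]

/-- The exponential map is given by any geodesic. -/
theorem ex_eq (h : Geom M n Pi Q C r) (hC1 : 1 ≤ C) {x v : E} {γ γ' : ℝ → E}
    (g : Geo M Pi Q x v γ γ') (hv : ‖v‖ ≤ rad C r) : ex M Pi Q x v = γ 1 := by
  have hex : ∃ γ γ' : ℝ → E, Geo M Pi Q x v γ γ' := ⟨γ, γ', g⟩
  rw [ex, dif_pos hex]
  obtain ⟨k', hk⟩ := hex.choose_spec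
  exact (g.unique h hk (rad_6 h (norm_nonneg _) hv) (rad_1 h hC1 (norm_nonneg _) hv) mem1).1

theorem exists_ex (h : Geom M n Pi Q C r) (hC1 : 1 ≤ C) {x v : E} (hx : x ∈ M)
    (hvt : Pi x v = v) (hv : ‖v‖ ≤ rad C r) : ∃ γ γ' : ℝ → E, Geo M Pi Q x v γ γ' ∧
      ∀ s ∈ Set.Icc (0 : ℝ) 1, ex M Pi Q x (s • v) = γ s := by
  obtain ⟨γ, γ', g⟩ := Geom.exists_geo h hx hvt (hv.trans (rad_le _ _))
  refine ⟨γ, γ', g, fun s hs => ?_⟩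
  have h1 : ‖s • v‖ ≤ rad C r := by
    rw [norm_smul, Real.norm_eq_abs, abs_of_nonneg hs.1]
    have := mul_le_mul hs.2 hv (norm_nonneg v) zero_le_one
    linarith
  rw [ex_eq h hC1 (g.scale hs) h1, mul_one]

variable (h : Geom M n Pi Q C r) (hC1 : 1 ≤ C)
include h hC1

theorem ex_zero {x : E} (hx : x ∈ M) : ex M Pi Q x 0 = x := by
  obtain ⟨γ, γ', g, h1⟩ := exists_ex h hC1 hx (map_zero (Pi x)) (by
    rw [norm_zero]; exact (rad_pos h).le)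
  have := h1 0 mem0
  rwa [smul_zero, g.zero] at this

theorem ex_mem {x v : E} (hx : x ∈ M) (hvt : Pi x v = v) (hv : ‖v‖ ≤ rad C r) :
    ex M Pi Q x v ∈ M := by
  obtain ⟨γ, γ', g, h1⟩ := exists_ex h hC1 hx hvt hv
  have := h1 1 mem1
  rw [one_smul] at this
  rw [this]
  exact g.mem 1 mem1

theorem ex_sub {x v w : E} (hx : x ∈ M) (hvt : Pi x v = v) (hwt : Pi x w = w) {ρ : ℝ}
    (hv : ‖v‖ ≤ ρ) (hw : ‖w‖ ≤ ρ) (hρ : ρ ≤ rad C r) :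
    ‖ex M Pi Q x w - ex M Pi Q x v - (w - v)‖ ≤ 6 * C * ρ * ‖w - v‖ := by
  have hρ0 : 0 ≤ ρ := (norm_nonneg v).trans hv
  obtain ⟨γ, γ', g, h1⟩ := exists_ex h hC1 hx hvt (hv.trans hρ)
  obtain ⟨η, η', k, h2⟩ := exists_ex h hC1 hx hwt (hw.trans hρ)
  have e1 := h1 1 mem1
  have e2 := h2 1 mem1
  rw [one_smul] at e1 e2
  rw [e1, e2]
  have := (g.sub_est h k hv hw (rad_6 h hρ0 hρ) (rad_1 h hC1 hρ0 hρ)).2.2.2 1 mem1
  rwa [one_smul] at this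

theorem ex_upper {x v w : E} (hx : x ∈ M) (hvt : Pi x v = v) (hwt : Pi x w = w) {ρ : ℝ}
    (hv : ‖v‖ ≤ ρ) (hw : ‖w‖ ≤ ρ) (hρ : ρ ≤ rad C r) :
    ‖ex M Pi Q x w - ex M Pi Q x v‖ ≤ (1 + 24 * C ^ 2 * ρ ^ 2) * ‖w - v‖ := by
  have hρ0 : 0 ≤ ρ := (norm_nonneg v).trans hv
  obtain ⟨γ, γ', g, h1⟩ := exists_ex h hC1 hx hvt (hv.trans hρ)
  obtain ⟨η, η', k, h2⟩ := exists_ex h hC1 hx hwt (hw.trans hρ)
  have e1 := h1 1 mem1
  have e2 := h2 1 mem1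
  rw [one_smul] at e1 e2
  rw [e1, e2]
  exact g.upper h hC1 hx hvt hwt k hv hw (rad_6 h hρ0 hρ) (rad_1 h hC1 hρ0 hρ)

theorem ex_lower {x v w : E} (hx : x ∈ M) (hvt : Pi x v = v) (hwt : Pi x w = w)
    (hv : ‖v‖ ≤ rad C r) (hw : ‖w‖ ≤ rad C r) :
    ‖w - v‖ / 2 ≤ ‖ex M Pi Q x w - ex M Pi Q x v‖ := by
  have h1 := ex_sub h hC1 hx hvt hwt hv hw le_rfl
  have h2 := rad_C h (le_refl (rad C r))
  have h3 : 6 * C * rad C r * ‖w - v‖ ≤ 1 / 2 * ‖w - v‖ := by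
    have : 6 * C * rad C r ≤ 1 / 2 := by linarith
    gcongr
  have h4 : ‖w - v‖ ≤ ‖ex M Pi Q x w - ex M Pi Q x v‖ +
      ‖ex M Pi Q x w - ex M Pi Q x v - (w - v)‖ := by
    have e : w - v = (ex M Pi Q x w - ex M Pi Q x v) -
        (ex M Pi Q x w - ex M Pi Q x v - (w - v)) := by abel
    conv_lhs => rw [e]
    exact norm_sub_le _ _
  linarith

theorem ex_lip {x v w : E} (hx : x ∈ M) (hvt : Pi x v = v) (hwt : Pi x w = w)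
    (hv : ‖v‖ ≤ rad C r) (hw : ‖w‖ ≤ rad C r) :
    ‖ex M Pi Q x w - ex M Pi Q x v‖ ≤ 2 * ‖w - v‖ := by
  have hρ0 := (rad_pos h).le
  obtain ⟨γ, γ', g, h1⟩ := exists_ex h hC1 hx hvt hv
  obtain ⟨η, η', k, h2⟩ := exists_ex h hC1 hx hwt hw
  have e1 := h1 1 mem1
  have e2 := h2 1 mem1
  rw [one_smul] at e1 e2
  rw [e1, e2]
  exact (g.sub_est h k hv hw (rad_6 h hρ0 le_rfl) (rad_1 h hC1 hρ0 le_rfl)).2.1 1 mem1

theorem ex_ray {x v : E} (hx : x ∈ M) (hvt : Pi x v = v) (hv : ‖v‖ ≤ rad C r) {s t : ℝ}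
    (hs : s ∈ Set.Icc (0 : ℝ) 1) (ht : t ∈ Set.Icc (0 : ℝ) 1) :
    ‖ex M Pi Q x (t • v) - ex M Pi Q x (s • v)‖ ≤ ‖v‖ * |t - s| := by
  obtain ⟨γ, γ', g, h1⟩ := exists_ex h hC1 hx hvt hv
  rw [h1 s hs, h1 t ht]
  exact g.lip hs ht

/-- radial expansion with a unit tangent vector -/
theorem ex_radial {x w : E} (hx : x ∈ M) (hwt : Pi x w = w) (hw : ‖w‖ ≤ rad C r) (hw0 : w ≠ 0)
    {a : ℝ} (ha : 0 < a) (har : a ≤ rad C r) {γ γ' : ℝ → E}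
    (g : Geo M Pi Q x ((a / ‖w‖) • w) γ γ') :
    ‖ex M Pi Q x w - ex M Pi Q x ((a / ‖w‖) • w) - ((‖w‖ - a) / a) • γ' 1‖ ≤
      C * (‖w‖ - a) ^ 2 := by
  have hb : 0 < ‖w‖ := norm_pos_iff.2 hw0
  have hw' : ‖(a / ‖w‖) • w‖ = a := by
    rw [norm_smul, Real.norm_eq_abs, abs_of_pos (by positivity), div_mul_cancel₀ _ hb.ne']
  rw [ex_eq h hC1 g (by rw [hw']; exact har)]
  rcases le_total a ‖w‖ with hab | hab
  · -- the geodesic with velocity `w`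
    obtain ⟨η, η', k, h1⟩ := exists_ex h hC1 hx hwt hw
    have hs : a / ‖w‖ ∈ Set.Icc (0 : ℝ) 1 := ⟨by positivity, (div_le_one hb).2 hab⟩
    have e1 := h1 1 mem1
    rw [one_smul] at e1
    have hu := g.unique h (k.scale hs) (rad_6 h (norm_nonneg _) (by rw [hw']; exact har))
      (rad_1 h hC1 (norm_nonneg _) (by rw [hw']; exact har)) mem1
    simp only [mul_one] at hu
    rw [e1, ← hu.1, ← hu.2, smul_smul]
    have e2 : (‖w‖ - a) / a * (a / ‖w‖) = 1 - a / ‖w‖ := by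
      field_simp
    rw [e2]
    refine (k.taylor h hs mem1).trans (le_of_eq ?_)
    field_simp
  · have hs : ‖w‖ / a ∈ Set.Icc (0 : ℝ) 1 := ⟨by positivity, (div_le_one ha).2 hab⟩
    have e1 : ex M Pi Q x w = γ (‖w‖ / a) := by
      have h1 : (‖w‖ / a) • (a / ‖w‖) • w = w := by
        rw [smul_smul]
        have : ‖w‖ / a * (a / ‖w‖) = 1 := by field_simp
        rw [this, one_smul]
      have h2 := ex_eq h hC1 (g.scale hs) (by rw [h1]; exact hw)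
      rw [h1, mul_one] at h2
      exact h2
    rw [e1]
    have e2 : (‖w‖ - a) / a = ‖w‖ / a - 1 := by field_simp
    rw [e2]
    refine (g.taylor h mem1 hs).trans (le_of_eq ?_)
    rw [hw']
    field_simp

/-- Local expansion of the distance. -/
theorem ex_local {x v w : E} (hx : x ∈ M) (hvt : Pi x v = v) (hwt : Pi x w = w)
    (hv : ‖v‖ ≤ rad C r) (hw : ‖w‖ ≤ rad C r) (hv0 : v ≠ 0) (hw0 : w ≠ 0) :
    |‖ex M Pi Q x w - ex M Pi Q x v‖ ^ 2 - ((‖w‖ - ‖v‖) ^ 2 +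
      ‖ex M Pi Q x ((‖v‖ / ‖w‖) • w) - ex M Pi Q x v‖ ^ 2)| ≤
      (6 * C + 14 / ‖v‖) * (|‖w‖ - ‖v‖| + ‖(‖v‖ / ‖w‖) • w - v‖) ^ 3 := by
  have hC := h.C_pos
  have hb : 0 < ‖w‖ := norm_pos_iff.2 hw0
  have ha : 0 < ‖v‖ := norm_pos_iff.2 hv0
  obtain ⟨w', hw'⟩ : ∃ w', w' = (‖v‖ / ‖w‖) • w := ⟨_, rfl⟩
  have hnw' : ‖w'‖ = ‖v‖ := by
    rw [hw', norm_smul, Real.norm_eq_abs, abs_of_pos (by positivity), div_mul_cancel₀ _ hb.ne']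
  have hwt' : Pi x w' = w' := by rw [hw']; exact tan_smul hwt _
  obtain ⟨γ, γ', g, hg1⟩ := exists_ex h hC1 hx hvt hv
  obtain ⟨η, η', k, hk1⟩ := exists_ex h hC1 hx hwt' (by rw [hnw']; exact hv)
  have eg := hg1 1 mem1
  have ek := hk1 1 mem1
  rw [one_smul] at eg ek
  have h6 := rad_6 h ha.le hv
  have h1' := rad_1 h hC1 ha.le hv
  obtain ⟨f1, f2, _, _⟩ := g.sub_est h k le_rfl hnw'.le h6 h1'
  have hrad : ‖ex M Pi Q x w - ex M Pi Q x w' - ((‖w‖ - ‖v‖) / ‖v‖) • η' 1‖ ≤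
      C * (‖w‖ - ‖v‖) ^ 2 := by
    have k2 := k
    rw [hw'] at k2 ⊢
    exact ex_radial h hC1 hx hwt hw hw0 ha hv k2
  have hgauss := g.gauss h hC1 k hnw' h6 h1'
  rw [← hw']
  obtain ⟨δ, hδ⟩ : ∃ δ, δ = ex M Pi Q x w' - ex M Pi Q x v := ⟨_, rfl⟩
  obtain ⟨e, he⟩ : ∃ e, e = ex M Pi Q x w - ex M Pi Q x w' := ⟨_, rfl⟩
  obtain ⟨β, hβ⟩ : ∃ β, β = ‖w‖ - ‖v‖ := ⟨_, rfl⟩
  obtain ⟨m, hm⟩ : ∃ m, m = ‖w' - v‖ := ⟨_, rfl⟩
  have hm0 : 0 ≤ m := hm ▸ norm_nonneg _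
  have hδe : δ = η 1 - γ 1 := by rw [hδ, eg, ek]
  obtain ⟨T, hT⟩ : ∃ T, T = (1 / ‖v‖) • η' 1 := ⟨_, rfl⟩
  have hTn : ‖T‖ = 1 := by
    rw [hT, norm_smul, k.speed 1 mem1, hnw', Real.norm_eq_abs, abs_of_pos (by positivity)]
    field_simp
  have hsum : ex M Pi Q x w - ex M Pi Q x v = e + δ := by rw [he, hδ]; abel
  rw [hsum, ← hδ, ← hβ, ← hm]
  rw [← he] at hrad
  have hrad' : ‖e - β • T‖ ≤ C * β ^ 2 := by
    have e1 : (β : ℝ) • T = ((‖w‖ - ‖v‖) / ‖v‖) • η' 1 := by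
      rw [hT, smul_smul, hβ]
      congr 1
      ring
    rw [e1, hβ]
    exact hrad
  have hen : ‖e‖ ≤ |β| := by
    rcases le_total ‖v‖ ‖w‖ with hab | hab
    · have hs : ‖v‖ / ‖w‖ ∈ Set.Icc (0 : ℝ) 1 := ⟨by positivity, (div_le_one hb).2 hab⟩
      have h2 := ex_ray h hC1 hx hwt hw hs mem1
      rw [one_smul, ← hw', ← he] at h2
      refine h2.trans (le_of_eq ?_)
      rw [hβ, ← abs_of_pos hb, ← abs_mul, abs_of_pos hb]
      congr 1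
      field_simp
    · have hs : ‖w‖ / ‖v‖ ∈ Set.Icc (0 : ℝ) 1 := ⟨by positivity, (div_le_one ha).2 hab⟩
      have h2 := ex_ray h hC1 hx hwt' (by rw [hnw']; exact hv) mem1 hs
      have e1 : (‖w‖ / ‖v‖) • w' = w := by
        rw [hw', smul_smul]
        have : ‖w‖ / ‖v‖ * (‖v‖ / ‖w‖) = 1 := by field_simp
        rw [this, one_smul]
      rw [one_smul, e1, ← he, hnw'] at h2
      refine h2.trans (le_of_eq ?_)
      rw [hβ, ← abs_of_pos ha, ← abs_mul, abs_of_pos ha]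
      congr 1
      field_simp
  have hδn : ‖δ‖ ≤ 2 * m := by rw [hδe, hm]; exact f2 1 mem1
  -- the three error terms
  have t1 : |‖e‖ ^ 2 - β ^ 2| ≤ 2 * C * |β| ^ 3 := by
    have e1 : ‖e‖ ^ 2 - β ^ 2 = ⟪e - β • T, e + β • T⟫_ℝ := by
      rw [inner_add_right, inner_sub_left, inner_sub_left, real_inner_self_eq_norm_sq,
        real_inner_self_eq_norm_sq, norm_smul, hTn, real_inner_comm e (β • T),
        mul_one, Real.norm_eq_abs, sq_abs]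
      ring
    rw [e1]
    refine (abs_real_inner_le_norm _ _).trans ?_
    have h2 : ‖e + β • T‖ ≤ 2 * |β| := by
      refine (norm_add_le _ _).trans ?_
      rw [norm_smul, hTn, mul_one, Real.norm_eq_abs]
      linarith
    calc ‖e - β • T‖ * ‖e + β • T‖ ≤ (C * β ^ 2) * (2 * |β|) := by gcongr
      _ = 2 * C * |β| ^ 3 := by
        rw [← sq_abs]; ring
  have t2 : |⟪e - β • T, δ⟫_ℝ| ≤ 2 * C * |β| ^ 2 * m := by
    refine (abs_real_inner_le_norm _ _).trans ?_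
    calc ‖e - β • T‖ * ‖δ‖ ≤ (C * β ^ 2) * (2 * m) := by gcongr
      _ = 2 * C * |β| ^ 2 * m := by rw [sq_abs]; ring
  have t3 : |⟪β • T, δ⟫_ℝ| ≤ 7 / ‖v‖ * |β| * m ^ 2 := by
    have e1 : ⟪β • T, δ⟫_ℝ = β / ‖v‖ * (⟪δ, γ' 1⟫_ℝ + ⟪δ, η' 1 - γ' 1⟫_ℝ) := by
      rw [hT, smul_smul, real_inner_smul_left, ← inner_add_right, add_sub_cancel,
        real_inner_comm δ (η' 1)]
      ring
    rw [e1, abs_mul, abs_div, abs_of_pos ha]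
    have h2 : |⟪δ, γ' 1⟫_ℝ + ⟪δ, η' 1 - γ' 1⟫_ℝ| ≤ 7 * m ^ 2 := by
      refine (abs_add_le _ _).trans ?_
      have h3 : |⟪δ, γ' 1⟫_ℝ| ≤ 3 * m ^ 2 := by rw [hδe, hm]; exact hgauss
      have h4 : |⟪δ, η' 1 - γ' 1⟫_ℝ| ≤ 4 * m ^ 2 := by
        refine (abs_real_inner_le_norm _ _).trans ?_
        have h5 := f1 1 mem1
        rw [← hm] at h5
        calc ‖δ‖ * ‖η' 1 - γ' 1‖ ≤ (2 * m) * (2 * m) := by gcongr
          _ = 4 * m ^ 2 := by ring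
      linarith
    calc |β| / ‖v‖ * |⟪δ, γ' 1⟫_ℝ + ⟪δ, η' 1 - γ' 1⟫_ℝ| ≤ |β| / ‖v‖ * (7 * m ^ 2) := by gcongr
      _ = 7 / ‖v‖ * |β| * m ^ 2 := by ring
  have e2 : ‖e + δ‖ ^ 2 - (β ^ 2 + ‖δ‖ ^ 2) =
      (‖e‖ ^ 2 - β ^ 2) + 2 * (⟪e - β • T, δ⟫_ℝ + ⟪β • T, δ⟫_ℝ) := by
    rw [norm_add_sq_real, ← inner_add_left, sub_add_cancel]
    ring
  rw [e2]
  have h3 : |(‖e‖ ^ 2 - β ^ 2) + 2 * (⟪e - β • T, δ⟫_ℝ + ⟪β • T, δ⟫_ℝ)| ≤
      2 * C * |β| ^ 3 + 2 * (2 * C * |β| ^ 2 * m + 7 / ‖v‖ * |β| * m ^ 2) := by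
    refine (abs_add_le _ _).trans (add_le_add t1 ?_)
    rw [abs_mul, abs_two]
    gcongr
    exact (abs_add_le _ _).trans (add_le_add t2 t3)
  refine h3.trans ?_
  have hβ0 : 0 ≤ |β| := abs_nonneg β
  obtain ⟨B, hB⟩ : ∃ B, B = |β| := ⟨_, rfl⟩
  obtain ⟨c, hc⟩ : ∃ c, c = 1 / ‖v‖ := ⟨_, rfl⟩
  have hc0 : 0 ≤ c := by rw [hc]; positivity
  have e3 : 7 / ‖v‖ = 7 * c := by rw [hc]; ring
  have e4 : 14 / ‖v‖ = 14 * c := by rw [hc]; ring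
  rw [e3, e4, ← hB]
  rw [← hB] at hβ0
  have p1 : 0 ≤ B ^ 3 := by positivity
  have p2 : 0 ≤ B ^ 2 * m := by positivity
  have p3 : 0 ≤ B * m ^ 2 := by positivity
  have p4 : 0 ≤ m ^ 3 := by positivity
  have e5 : (B + m) ^ 3 = B ^ 3 + 3 * (B ^ 2 * m) + 3 * (B * m ^ 2) + m ^ 3 := by ring
  rw [e5]
  have q1 : 0 ≤ C * B ^ 3 := by positivity
  have q2 : 0 ≤ C * (B ^ 2 * m) := by positivity
  have q3 : 0 ≤ C * (B * m ^ 2) := by positivity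
  have q4 : 0 ≤ C * m ^ 3 := by positivity
  have q5 : 0 ≤ c * B ^ 3 := by positivity
  have q6 : 0 ≤ c * (B ^ 2 * m) := by positivity
  have q7 : 0 ≤ c * (B * m ^ 2) := by positivity
  have q8 : 0 ≤ c * m ^ 3 := by positivity
  nlinarith

end Pool.Agent.H82.AX
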