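import Pool.Agent.H82.AX.Tan

/-!
# Properties of the quotient
-/

set_option autoImplicit false

open scoped Topology InnerProductSpace UpperHalfPlane
open Real (sinh cosh)

namespace Pool.Agent.H82.AX

open Pool.Agent.H75.AX.Spec Pool.Agent.H75.AX

variable {E : Type} [NormedAddCommGroup E] [InnerProductSpace ℝ E] [CompleteSpace E]

variable {M : Set E} {n : ℕ} {Pi : E → E →L[ℝ] E} {Q : E → E →L[ℝ] E →L[ℝ] E} {C r : ℝ}
variable (h : Geom M n Pi Q C r) (hC1 : 1 ≤ C)
variable {H : Type} [Group H] [Finite H] {ρ : H →* (E ≃ₗᵢ[ℝ] E)}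
  (hρ : ∀ h, ∀ x ∈ M, ρ h x ∈ M)
variable {X : Type} [MetricSpace X] {π : M → X} (hd : ∀ x y : M, dist (π x) (π y) = DX ρ M x y)
  (hs : Function.Surjective π)

omit [Finite H] in
include h hC1 hd in
theorem pi_cont : Continuous π := by
  have hr0 := rad_pos h
  rw [Metric.continuous_iff]
  intro b ε hε
  refine ⟨min (rad C r / 2) (ε / 2), lt_min (by positivity) (by positivity), fun a ha => ?_⟩
  rw [Subtype.dist_eq, dist_eq_norm] at ha
  have h1 : ‖(a : E) - b‖ < rad C r / 2 := ha.trans_le (min_le_left _ _)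
  have h2 : ‖(a : E) - b‖ < ε / 2 := ha.trans_le (min_le_right _ _)
  rw [dist_comm, hd]
  have h3 := dM_near h hC1 b.2 a.2 h1.le
  have h4 := DX_le_dM (M := M) (ρ := ρ) b a
  linarith

omit [Finite H] in
include h hC1 hd hs in
theorem X_compact : CompactSpace X := by
  have : CompactSpace M := isCompact_iff_compactSpace.1 h.compact
  exact hs.compactSpace (pi_cont h hC1 hd)

omit [Finite H] in
include h hC1 hd hs in
theorem X_conn : ConnectedSpace X := by
  have : ConnectedSpace M := isConnected_iff_connectedSpace.1 h.conn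
  exact hs.connectedSpace (pi_cont h hC1 hd)

include h hC1 hρ hd hs in
theorem X_length : IsLengthSpace X := by
  intro a b ε hε
  obtain ⟨x, rfl⟩ := hs a
  obtain ⟨y, rfl⟩ := hs b
  obtain ⟨g, hg⟩ := exists_DX (M := M) (ρ := ρ) x y
  obtain ⟨l, ⟨hl0, c, c1, c2, c3, c4⟩, hl⟩ := exists_PD_lt (pconn h hC1) x.2 (hρ g y y.2)
    (lt_add_of_pos_right (dM M x (ρ g y)) hε)
  rw [hg] at hl
  refine ⟨l, hl0, by rw [hd]; exact hl.le, ?_⟩
  classical
  refine ⟨fun t => if ht : t ∈ Set.Icc 0 l then π ⟨c t, c2 t ht⟩ else π x, ?_, ?_, ?_⟩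
  · have key : ∀ s ∈ Set.Icc 0 l, ∀ t ∈ Set.Icc 0 l, s ≤ t → ∀ hs ht,
        dist (π ⟨c s, hs⟩) (π ⟨c t, ht⟩) ≤ t - s := by
      intro s hs t ht hst hs' ht'
      rw [hd]
      exact (DX_le_dM _ _).trans (dM_le (PD.of_sub c1 c2 hs ht hst))
    refine LipschitzOnWith.of_dist_le_mul fun s hs t ht => ?_
    rw [NNReal.coe_one, one_mul, dif_pos hs, dif_pos ht, Real.dist_eq]
    rcases le_total s t with hst | hst
    · rw [abs_sub_comm, abs_of_nonneg (by linarith)]
      exact key s hs t ht hst _ _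
    · rw [abs_of_nonneg (by linarith), dist_comm]
      exact key t ht s hs hst _ _
  · have h0 : (0 : ℝ) ∈ Set.Icc 0 l := ⟨le_rfl, hl0⟩
    exact (dif_pos h0).trans (congrArg π (Subtype.ext c3))
  · have h0 : l ∈ Set.Icc 0 l := ⟨hl0, le_rfl⟩
    refine (dif_pos h0).trans ?_
    have h1 : dist (π ⟨c l, c2 l h0⟩) (π y) = 0 := by
      rw [hd]
      refine le_antisymm ?_ (DX_nonneg _ _)
      have h2 := DX_le (M := M) (ρ := ρ) (c l) (y : E) g
      rw [c4, dM_self (hρ g y y.2)] at h2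
      rw [← c4] at h2
      exact h2
    exact dist_eq_zero.1 h1

include h hC1 hρ hd hs in
theorem X_curv : CurvatureBoundedBelow X := by
  have hCp := h.C_pos
  have hr0 := rad_pos h
  obtain ⟨κ, hκ⟩ : ∃ κ, κ = 14 * C := ⟨_, rfl⟩
  have hκ0 : 0 < κ := by rw [hκ]; positivity
  refine ⟨1 / κ, by positivity, fun p => ⟨Metric.ball p (rad C r / 16),
    Metric.ball_mem_nhds p (by positivity), ?_⟩⟩
  intro q hq x hx y hy z hz q' x' y' z' e1 e2 e3 e4 e5
  rw [Metric.mem_ball] at hq hx hy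
  have scale : ∀ a b : ℝ, 1 / κ * a = b → a = κ * b := by
    intro a b hab
    rw [← hab]; field_simp
  have f1 := scale _ _ e1
  have f2 := scale _ _ e2
  have f3 := scale _ _ e3
  have f4 := scale _ _ e4
  have f5 := scale _ _ e5
  rcases (dist_nonneg (x := x) (y := z)).eq_or_lt with hxz | hxz
  · have h1 : x = z := dist_eq_zero.1 hxz.symm
    subst h1
    have h2 : x' = z' := dist_eq_zero.1 (by rw [f4, ← hxz, mul_zero])
    subst h2
    exact e1.le
  rcases (dist_nonneg (x := z) (y := y)).eq_or_lt with hzy | hzy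
  · have h1 : z = y := dist_eq_zero.1 hzy.symm
    subst h1
    have h2 : z' = y' := dist_eq_zero.1 (by rw [f5, ← hzy, mul_zero])
    subst h2
    exact e2.le
  have hst := stewart q' x' y' z' (by rw [f4, f5, f3, ← hz]; ring)
  have b1 : dist x y < rad C r / 8 := by
    have := dist_triangle_right x y p
    linarith
  have b2 : dist z x < rad C r / 8 := by rw [dist_comm z x]; linarith
  have b3 : dist z y < rad C r / 8 := by linarith
  have b4 : dist z q < rad C r / 4 := by
    have h1 := dist_triangle z x q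
    have h2 := dist_triangle_right x q p
    linarith
  obtain ⟨x, rfl⟩ := hs x
  obtain ⟨y, rfl⟩ := hs y
  obtain ⟨z, rfl⟩ := hs z
  obtain ⟨q, rfl⟩ := hs q
  simp only [hd] at *
  have key := quot_stewart h hC1 hρ q.2 x.2 y.2 z.2 b4.le (by linarith) (by linarith) hz.symm
    hxz hzy
  rw [← hκ] at key
  rw [f5, f1, f4, f2, f3, ← hz, mul_add κ (DX ρ M x z) (DX ρ M z y)] at hst
  rw [hst] at key
  have s0 : 0 < sinh (κ * DX ρ M x z + κ * DX ρ M z y) := Real.sinh_pos_iff.2 (by positivity)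
  have h1 := le_of_mul_le_mul_left key s0
  rw [Real.cosh_le_cosh, abs_of_nonneg dist_nonneg,
    abs_of_nonneg (mul_nonneg hκ0.le (DX_nonneg _ _))] at h1
  rw [one_div_mul_eq_div, div_le_iff₀ hκ0]
  linarith

end Pool.Agent.H82.AX
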