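import Pool.Agent.H75.AX.Spec

/-!
# Geodesics of a submanifold with second-order data: elementary estimates
-/

set_option autoImplicit false

open scoped Topology InnerProductSpace

namespace Pool.Agent.H82.AX

open Pool.Agent.H75.AX.Spec

variable {E : Type} [NormedAddCommGroup E] [InnerProductSpace ℝ E]

/-- `γ` is the geodesic on `[0, 1]` with initial point `x` and velocity `v`. -/
structure Geo (M : Set E) (Pi : E → E →L[ℝ] E) (Q : E → E →L[ℝ] E →L[ℝ] E) (x v : E)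
    (γ γ' : ℝ → E) : Prop where
  zero : γ 0 = x
  zero' : γ' 0 = v
  mem : ∀ t ∈ Set.Icc (0 : ℝ) 1, γ t ∈ M
  der : ∀ t ∈ Set.Icc (0 : ℝ) 1, HasDerivWithinAt γ (γ' t) (Set.Icc 0 1) t
  der' : ∀ t ∈ Set.Icc (0 : ℝ) 1,
    HasDerivWithinAt γ' (Q (γ t) (γ' t) (γ' t)) (Set.Icc 0 1) t
  tan : ∀ t ∈ Set.Icc (0 : ℝ) 1, Pi (γ t) (γ' t) = γ' t
  speed : ∀ t ∈ Set.Icc (0 : ℝ) 1, ‖γ' t‖ = ‖v‖

variable {M : Set E} {n : ℕ} {Pi : E → E →L[ℝ] E} {Q : E → E →L[ℝ] E →L[ℝ] E} {C r : ℝ}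

theorem Geom.exists_geo (h : Geom M n Pi Q C r) {x v : E} (hx : x ∈ M) (hv : Pi x v = v)
    (hvr : ‖v‖ ≤ r) : ∃ γ γ' : ℝ → E, Geo M Pi Q x v γ γ' := by
  obtain ⟨γ, γ', h1, h2, h3⟩ := h.exist x hx v hv hvr
  exact ⟨γ, γ', h1, h2, fun t ht => (h3 t ht).1, fun t ht => (h3 t ht).2.1,
    fun t ht => (h3 t ht).2.2.1, fun t ht => (h3 t ht).2.2.2.1, fun t ht => (h3 t ht).2.2.2.2⟩

/-- Enlarging the constant. -/
theorem Geom.mono (h : Geom M n Pi Q C r) {C' : ℝ} (hC : C ≤ C') : Geom M n Pi Q C' r where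
  compact := h.compact
  conn := h.conn
  C_pos := h.C_pos.trans_le hC
  r_pos := h.r_pos
  idem := h.idem
  symm := h.symm
  rank := h.rank
  lip_Pi := fun x hx y hy => (h.lip_Pi x hx y hy).trans (by gcongr)
  chord := fun x hx y hy => (h.chord x hx y hy).trans (by gcongr)
  normal := h.normal
  lip_Q := fun x hx y hy => (h.lip_Q x hx y hy).trans (by gcongr)
  bound_Q := fun x hx => (h.bound_Q x hx).trans hC
  exist := h.exist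

theorem norm_Q_le (h : Geom M n Pi Q C r) {x : E} (hx : x ∈ M) (v w : E) :
    ‖Q x v w‖ ≤ C * ‖v‖ * ‖w‖ := by
  refine ((Q x v).le_opNorm w).trans ?_
  gcongr
  exact ((Q x).le_opNorm v).trans (by gcongr; exact h.bound_Q x hx)

theorem norm_Q_sub_le (h : Geom M n Pi Q C r) {x y : E} (hx : x ∈ M) (hy : y ∈ M) (v w : E) :
    ‖Q x v w - Q y v w‖ ≤ C * ‖x - y‖ * ‖v‖ * ‖w‖ := by
  have e : Q x v w - Q y v w = (Q x - Q y) v w := by simp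
  rw [e]
  refine (((Q x - Q y) v).le_opNorm w).trans ?_
  gcongr
  exact ((Q x - Q y).le_opNorm v).trans (by gcongr; exact h.lip_Q x hx y hy)

theorem norm_Pi_le (h : Geom M n Pi Q C r) {x : E} (hx : x ∈ M) (v : E) : ‖Pi x v‖ ≤ ‖v‖ := by
  have h1 : ⟪Pi x v, Pi x v⟫_ℝ = ⟪v, Pi x v⟫_ℝ := by
    rw [h.symm x hx, h.idem x hx]
  have h2 : ‖Pi x v‖ ^ 2 ≤ ‖v‖ * ‖Pi x v‖ := by
    rw [← real_inner_self_eq_norm_sq, h1]
    exact real_inner_le_norm _ _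
  by_contra hc
  rw [not_le] at hc
  have : 0 < ‖Pi x v‖ := (norm_nonneg v).trans_lt hc
  nlinarith

theorem inner_Pi_sub (h : Geom M n Pi Q C r) {x : E} (hx : x ∈ M) (v : E) :
    ⟪Pi x v, v - Pi x v⟫_ℝ = 0 := by
  rw [inner_sub_right, h.symm x hx v (Pi x v), h.idem x hx, ← h.symm x hx]
  exact sub_self _

theorem norm_sq_eq (h : Geom M n Pi Q C r) {x : E} (hx : x ∈ M) (v : E) :
    ‖v‖ ^ 2 = ‖Pi x v‖ ^ 2 + ‖v - Pi x v‖ ^ 2 := by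
  have e : v = Pi x v + (v - Pi x v) := by abel
  conv_lhs => rw [e]
  rw [norm_add_sq_real, inner_Pi_sub h hx]
  ring

/-- difference of geodesic accelerations -/
theorem acc_sub_le (h : Geom M n Pi Q C r) {x y : E} (hx : x ∈ M) (hy : y ∈ M) {a b : E} {ρ : ℝ}
    (ha : ‖a‖ ≤ ρ) (hb : ‖b‖ ≤ ρ) :
    ‖Q y b b - Q x a a‖ ≤ C * ρ ^ 2 * ‖y - x‖ + 2 * C * ρ * ‖b - a‖ := by
  have hC := h.C_pos
  have hρ : 0 ≤ ρ := (norm_nonneg a).trans ha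
  have e : Q y b b - Q x a a = (Q y b b - Q x b b) + (Q x b (b - a) + Q x (b - a) a) := by
    simp only [map_sub, sub_apply]
    abel
  rw [e]
  have h1 := norm_Q_sub_le h hy hx b b
  have h2 := norm_Q_le h hx b (b - a)
  have h3 := norm_Q_le h hx (b - a) a
  have h4 : C * ‖y - x‖ * ‖b‖ * ‖b‖ ≤ C * ρ ^ 2 * ‖y - x‖ := by
    have : ‖b‖ * ‖b‖ ≤ ρ * ρ := mul_le_mul hb hb (norm_nonneg _) hρ
    have h5 : 0 ≤ C * ‖y - x‖ := by positivity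
    nlinarith
  have h5 : C * ‖b‖ * ‖b - a‖ ≤ C * ρ * ‖b - a‖ := by gcongr
  have h6 : C * ‖b - a‖ * ‖a‖ ≤ C * ‖b - a‖ * ρ := by gcongr
  calc _ ≤ ‖Q y b b - Q x b b‖ + (‖Q x b (b - a)‖ + ‖Q x (b - a) a‖) :=
        (norm_add_le _ _).trans (add_le_add le_rfl (norm_add_le _ _))
    _ ≤ C * ρ ^ 2 * ‖y - x‖ + (C * ρ * ‖b - a‖ + C * ‖b - a‖ * ρ) := by linarith
    _ = _ := by ring

theorem Geo.lip {x v : E} {γ γ' : ℝ → E} (g : Geo M Pi Q x v γ γ') {s t : ℝ}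
    (hs : s ∈ Set.Icc (0 : ℝ) 1) (ht : t ∈ Set.Icc (0 : ℝ) 1) : ‖γ t - γ s‖ ≤ ‖v‖ * |t - s| :=
  Convex.norm_image_sub_le_of_norm_hasDerivWithin_le (f' := γ') g.der
    (fun t ht => (g.speed t ht).le) (convex_Icc _ _) hs ht

/-- Two geodesics from the same point: first estimates. -/
theorem Geo.sub_est (h : Geom M n Pi Q C r) {x v w : E} {γ γ' η η' : ℝ → E}
    (g : Geo M Pi Q x v γ γ') (k : Geo M Pi Q x w η η') {ρ : ℝ} (hv : ‖v‖ ≤ ρ) (hw : ‖w‖ ≤ ρ)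
    (hρ : 6 * C * ρ ≤ 1) (hρ1 : ρ ≤ 1) :
    (∀ t ∈ Set.Icc (0 : ℝ) 1, ‖η' t - γ' t‖ ≤ 2 * ‖w - v‖) ∧
    (∀ t ∈ Set.Icc (0 : ℝ) 1, ‖η t - γ t‖ ≤ 2 * ‖w - v‖) ∧
    (∀ t ∈ Set.Icc (0 : ℝ) 1, ‖η' t - γ' t - (w - v)‖ ≤ 6 * C * ρ * ‖w - v‖) ∧
    (∀ t ∈ Set.Icc (0 : ℝ) 1, ‖η t - γ t - t • (w - v)‖ ≤ 6 * C * ρ * ‖w - v‖) := by
  have hC := h.C_pos
  have hρ0 : 0 ≤ ρ := (norm_nonneg v).trans hv
  have hcont : ContinuousOn (fun t => ‖η' t - γ' t‖) (Set.Icc 0 1) := by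
    refine ContinuousOn.norm (ContinuousOn.sub ?_ ?_)
    · exact fun t ht => (k.der' t ht).continuousWithinAt
    · exact fun t ht => (g.der' t ht).continuousWithinAt
  obtain ⟨t0, ht0, hmax⟩ := isCompact_Icc.exists_isMaxOn (Set.nonempty_Icc.2 zero_le_one) hcont
  obtain ⟨D, hD⟩ : ∃ D, D = ‖η' t0 - γ' t0‖ := ⟨_, rfl⟩
  have hD' : ∀ t ∈ Set.Icc (0 : ℝ) 1, ‖η' t - γ' t‖ ≤ D := fun t ht => hD ▸ hmax ht
  have hD0 : 0 ≤ D := hD ▸ norm_nonneg _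
  have hder : ∀ t ∈ Set.Icc (0 : ℝ) 1, HasDerivWithinAt (fun t => η t - γ t) (η' t - γ' t)
      (Set.Icc 0 1) t := fun t ht => (k.der t ht).sub (g.der t ht)
  have hder' : ∀ t ∈ Set.Icc (0 : ℝ) 1, HasDerivWithinAt (fun t => η' t - γ' t)
      (Q (η t) (η' t) (η' t) - Q (γ t) (γ' t) (γ' t)) (Set.Icc 0 1) t :=
    fun t ht => (k.der' t ht).sub (g.der' t ht)
  have h0 : (0 : ℝ) ∈ Set.Icc (0 : ℝ) 1 := ⟨le_rfl, zero_le_one⟩
  have hδ : ∀ t ∈ Set.Icc (0 : ℝ) 1, ‖η t - γ t‖ ≤ D := by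
    intro t ht
    have h1 := Convex.norm_image_sub_le_of_norm_hasDerivWithin_le hder hD' (convex_Icc _ _) h0 ht
    simp only [k.zero, g.zero, sub_self, sub_zero] at h1
    refine h1.trans ?_
    rw [Real.norm_eq_abs, abs_of_nonneg ht.1]
    nlinarith [ht.2]
  have hacc : ∀ t ∈ Set.Icc (0 : ℝ) 1,
      ‖Q (η t) (η' t) (η' t) - Q (γ t) (γ' t) (γ' t)‖ ≤ 3 * C * ρ * D := by
    intro t ht
    refine (acc_sub_le h (g.mem t ht) (k.mem t ht) ((g.speed t ht).le.trans hv)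
      ((k.speed t ht).le.trans hw)).trans ?_
    have h1 : C * ρ ^ 2 * ‖η t - γ t‖ ≤ C * ρ * D := by
      have h2 : ρ ^ 2 ≤ ρ := by nlinarith
      have h3 := hδ t ht
      have h4 : C * ρ ^ 2 ≤ C * ρ := by nlinarith
      have h5 : 0 ≤ C * ρ ^ 2 := by positivity
      calc C * ρ ^ 2 * ‖η t - γ t‖ ≤ C * ρ ^ 2 * D := by gcongr
        _ ≤ C * ρ * D := by gcongr
    have h2 : 2 * C * ρ * ‖η' t - γ' t‖ ≤ 2 * C * ρ * D := by
      have := hD' t ht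
      gcongr
    linarith
  have hd1 : ∀ t ∈ Set.Icc (0 : ℝ) 1, ‖η' t - γ' t - (w - v)‖ ≤ 3 * C * ρ * D := by
    intro t ht
    have h1 := Convex.norm_image_sub_le_of_norm_hasDerivWithin_le hder' hacc (convex_Icc _ _) h0 ht
    simp only [k.zero', g.zero', sub_zero] at h1
    refine h1.trans ?_
    rw [Real.norm_eq_abs, abs_of_nonneg ht.1]
    have : 0 ≤ 3 * C * ρ * D := by positivity
    nlinarith [ht.2]
  have hDle : D ≤ 2 * ‖w - v‖ := by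
    have h1 := hd1 t0 ht0
    have h2 : ‖η' t0 - γ' t0‖ ≤ ‖η' t0 - γ' t0 - (w - v)‖ + ‖w - v‖ := by
      have := norm_add_le (η' t0 - γ' t0 - (w - v)) (w - v)
      simpa using this
    rw [← hD] at h2
    have h3 : 3 * C * ρ * D ≤ 1 / 2 * D := by
      have : 3 * C * ρ ≤ 1 / 2 := by linarith
      gcongr
    linarith
  have h6 : 3 * C * ρ * D ≤ 6 * C * ρ * ‖w - v‖ := by
    have : 0 ≤ 3 * C * ρ := by positivity
    nlinarith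
  refine ⟨fun t ht => (hD' t ht).trans hDle, fun t ht => (hδ t ht).trans hDle,
    fun t ht => (hd1 t ht).trans h6, fun t ht => ?_⟩
  have hder2 : ∀ t ∈ Set.Icc (0 : ℝ) 1, HasDerivWithinAt (fun t => η t - γ t - t • (w - v))
      (η' t - γ' t - (w - v)) (Set.Icc 0 1) t := by
    intro t ht
    have h1 : HasDerivWithinAt (fun t : ℝ => t • (w - v)) ((1 : ℝ) • (w - v)) (Set.Icc 0 1) t :=
      (hasDerivWithinAt_id t _).smul_const (w - v)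
    rw [one_smul] at h1
    exact (hder t ht).sub h1
  have h1 := Convex.norm_image_sub_le_of_norm_hasDerivWithin_le hder2
    (fun t ht => (hd1 t ht).trans h6) (convex_Icc _ _) h0 ht
  simp only [k.zero, g.zero, sub_self, sub_zero, zero_smul] at h1
  refine h1.trans ?_
  rw [Real.norm_eq_abs, abs_of_nonneg ht.1]
  have : 0 ≤ 6 * C * ρ * ‖w - v‖ := by positivity
  nlinarith [ht.2]

/-- Uniqueness of geodesics. -/
theorem Geo.unique (h : Geom M n Pi Q C r) {x v : E} {γ γ' η η' : ℝ → E}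
    (g : Geo M Pi Q x v γ γ') (k : Geo M Pi Q x v η η') (hρ : 6 * C * ‖v‖ ≤ 1) (hρ1 : ‖v‖ ≤ 1)
    {t : ℝ} (ht : t ∈ Set.Icc (0 : ℝ) 1) : η t = γ t ∧ η' t = γ' t := by
  obtain ⟨h1, h2, _, _⟩ := g.sub_est h k le_rfl le_rfl hρ hρ1
  have h3 := h1 t ht
  have h4 := h2 t ht
  simp only [sub_self, norm_zero, mul_zero] at h3 h4
  exact ⟨sub_eq_zero.1 (norm_le_zero_iff.1 h4), sub_eq_zero.1 (norm_le_zero_iff.1 h3)⟩

/-- Reparametrization. -/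
theorem Geo.scale {x v : E} {γ γ' : ℝ → E} (g : Geo M Pi Q x v γ γ') {s : ℝ}
    (hs : s ∈ Set.Icc (0 : ℝ) 1) :
    Geo M Pi Q x (s • v) (fun t => γ (s * t)) (fun t => s • γ' (s * t)) := by
  have hm : ∀ t ∈ Set.Icc (0 : ℝ) 1, s * t ∈ Set.Icc (0 : ℝ) 1 := fun t ht =>
    ⟨mul_nonneg hs.1 ht.1, mul_le_one₀ hs.2 ht.1 ht.2⟩
  have hsc : ∀ t, HasDerivWithinAt (fun t : ℝ => s * t) s (Set.Icc 0 1) t := by
    intro t
    simpa using (hasDerivWithinAt_id t (Set.Icc (0 : ℝ) 1)).const_mul s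
  refine ⟨by simp [g.zero], by simp [g.zero'], fun t ht => g.mem _ (hm t ht), fun t ht => ?_,
    fun t ht => ?_, fun t ht => ?_, fun t ht => ?_⟩
  · exact (g.der _ (hm t ht)).scomp t (hsc t) (fun t ht => hm t ht)
  · have h1 := ((g.der' _ (hm t ht)).scomp t (hsc t) (fun t ht => hm t ht)).const_smul s
    have e : Q (γ (s * t)) (s • γ' (s * t)) (s • γ' (s * t)) =
        s • s • Q (γ (s * t)) (γ' (s * t)) (γ' (s * t)) := by
      rw [map_smul, map_smul]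
      rfl
    rw [e]
    exact h1
  · simp [g.tan _ (hm t ht)]
  · rw [norm_smul, norm_smul, g.speed _ (hm t ht)]

/-- Upper Lipschitz estimate. -/
theorem Geo.upper (h : Geom M n Pi Q C r) (hC1 : 1 ≤ C) {x v w : E} {γ γ' η η' : ℝ → E}
    (hx : x ∈ M) (hvt : Pi x v = v) (hwt : Pi x w = w)
    (g : Geo M Pi Q x v γ γ') (k : Geo M Pi Q x w η η') {ρ : ℝ} (hv : ‖v‖ ≤ ρ) (hw : ‖w‖ ≤ ρ)
    (hρ : 6 * C * ρ ≤ 1) (hρ1 : ρ ≤ 1) :
    ‖η 1 - γ 1‖ ≤ (1 + 24 * C ^ 2 * ρ ^ 2) * ‖w - v‖ := by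
  have hC := h.C_pos
  have hρ0 : 0 ≤ ρ := (norm_nonneg v).trans hv
  obtain ⟨e1, e2, e3, e4⟩ := g.sub_est h k hv hw hρ hρ1
  have h0 : (0 : ℝ) ∈ Set.Icc (0 : ℝ) 1 := ⟨le_rfl, zero_le_one⟩
  have h1 : (1 : ℝ) ∈ Set.Icc (0 : ℝ) 1 := ⟨zero_le_one, le_rfl⟩
  obtain ⟨D, hD⟩ : ∃ D, D = ‖w - v‖ := ⟨_, rfl⟩
  have hD0 : 0 ≤ D := hD ▸ norm_nonneg _
  rw [← hD] at e1 e2 e3 e4 ⊢
  -- the tangential part of the acceleration
  have hPQ : ∀ t ∈ Set.Icc (0 : ℝ) 1, ∀ a b : E, ‖Pi x (Q (γ t) a b)‖ ≤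
      C * ρ * (C * ‖a‖ * ‖b‖) := by
    intro t ht a b
    have e : Pi x (Q (γ t) a b) = (Pi x - Pi (γ t)) (Q (γ t) a b) := by
      rw [sub_apply, h.normal _ (g.mem t ht), sub_zero]
    rw [e]
    refine ((Pi x - Pi (γ t)).le_opNorm _).trans ?_
    have h2 : ‖Pi x - Pi (γ t)‖ ≤ C * ρ := by
      refine (h.lip_Pi x hx _ (g.mem t ht)).trans ?_
      gcongr
      have h3 := g.lip h0 ht
      rw [g.zero, sub_zero, abs_of_nonneg ht.1, norm_sub_rev] at h3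
      refine h3.trans ?_
      have : ‖v‖ * t ≤ ρ * 1 := mul_le_mul hv ht.2 ht.1 hρ0
      linarith
    exact mul_le_mul h2 (norm_Q_le h (g.mem t ht) a b) (norm_nonneg _) (by positivity)
  have hacc : ∀ t ∈ Set.Icc (0 : ℝ) 1,
      ‖Pi x (Q (η t) (η' t) (η' t) - Q (γ t) (γ' t) (γ' t))‖ ≤ 6 * C ^ 2 * ρ ^ 2 * D := by
    intro t ht
    have e : Pi x (Q (η t) (η' t) (η' t) - Q (γ t) (γ' t) (γ' t)) =
        Pi x (Q (η t) (η' t) (η' t) - Q (γ t) (η' t) (η' t)) +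
        (Pi x (Q (γ t) (η' t) (η' t - γ' t)) + Pi x (Q (γ t) (η' t - γ' t) (γ' t))) := by
      simp only [map_sub, sub_apply]
      abel
    rw [e]
    have hη' : ‖η' t‖ ≤ ρ := (k.speed t ht).le.trans hw
    have hγ' : ‖γ' t‖ ≤ ρ := (g.speed t ht).le.trans hv
    have h2 : ‖Pi x (Q (η t) (η' t) (η' t) - Q (γ t) (η' t) (η' t))‖ ≤ 2 * C * ρ ^ 2 * D := by
      refine (norm_Pi_le h hx _).trans
        ((norm_Q_sub_le h (k.mem t ht) (g.mem t ht) _ _).trans ?_)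
      have h3 := e2 t ht
      calc C * ‖η t - γ t‖ * ‖η' t‖ * ‖η' t‖ ≤ C * (2 * D) * ρ * ρ := by gcongr
        _ = 2 * C * ρ ^ 2 * D := by ring
    have h3 : ‖Pi x (Q (γ t) (η' t) (η' t - γ' t))‖ ≤ 2 * C ^ 2 * ρ ^ 2 * D := by
      refine (hPQ t ht _ _).trans ?_
      have h4 := e1 t ht
      calc C * ρ * (C * ‖η' t‖ * ‖η' t - γ' t‖) ≤ C * ρ * (C * ρ * (2 * D)) := by gcongr
        _ = 2 * C ^ 2 * ρ ^ 2 * D := by ring
    have h4 : ‖Pi x (Q (γ t) (η' t - γ' t) (γ' t))‖ ≤ 2 * C ^ 2 * ρ ^ 2 * D := by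
      refine (hPQ t ht _ _).trans ?_
      have h4 := e1 t ht
      calc C * ρ * (C * ‖η' t - γ' t‖ * ‖γ' t‖) ≤ C * ρ * (C * (2 * D) * ρ) := by gcongr
        _ = 2 * C ^ 2 * ρ ^ 2 * D := by ring
    have h5 : 2 * C * ρ ^ 2 * D ≤ 2 * C ^ 2 * ρ ^ 2 * D := by
      have : C ≤ C ^ 2 := by nlinarith
      have h6 : 0 ≤ ρ ^ 2 * D := by positivity
      nlinarith
    calc _ ≤ _ := (norm_add_le _ _).trans (add_le_add le_rfl (norm_add_le _ _))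
      _ ≤ _ := by linarith
  have hder' : ∀ t ∈ Set.Icc (0 : ℝ) 1, HasDerivWithinAt (fun t => Pi x (η' t - γ' t))
      (Pi x (Q (η t) (η' t) (η' t) - Q (γ t) (γ' t) (γ' t))) (Set.Icc 0 1) t :=
    fun t ht => (Pi x).hasFDerivAt.comp_hasDerivWithinAt t ((k.der' t ht).sub (g.der' t ht))
  have htan : Pi x (w - v) = w - v := by rw [map_sub, hvt, hwt]
  have hd1 : ∀ t ∈ Set.Icc (0 : ℝ) 1, ‖Pi x (η' t - γ' t) - (w - v)‖ ≤
      6 * C ^ 2 * ρ ^ 2 * D := by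
    intro t ht
    have h2 := Convex.norm_image_sub_le_of_norm_hasDerivWithin_le hder' hacc (convex_Icc _ _) h0 ht
    simp only [k.zero', g.zero', sub_zero, htan] at h2
    refine h2.trans ?_
    rw [Real.norm_eq_abs, abs_of_nonneg ht.1]
    have : 0 ≤ 6 * C ^ 2 * ρ ^ 2 * D := by positivity
    nlinarith [ht.2]
  have hder2 : ∀ t ∈ Set.Icc (0 : ℝ) 1,
      HasDerivWithinAt (fun t => Pi x (η t - γ t) - t • (w - v))
      (Pi x (η' t - γ' t) - (w - v)) (Set.Icc 0 1) t := by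
    intro t ht
    have h2 : HasDerivWithinAt (fun t : ℝ => t • (w - v)) ((1 : ℝ) • (w - v)) (Set.Icc 0 1) t :=
      (hasDerivWithinAt_id t _).smul_const (w - v)
    rw [one_smul] at h2
    exact ((Pi x).hasFDerivAt.comp_hasDerivWithinAt t ((k.der t ht).sub (g.der t ht))).sub h2
  have hP : ‖Pi x (η 1 - γ 1) - (w - v)‖ ≤ 6 * C ^ 2 * ρ ^ 2 * D := by
    have h2 := Convex.norm_image_sub_le_of_norm_hasDerivWithin_le hder2 hd1 (convex_Icc _ _) h0 h1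
    simpa [k.zero, g.zero] using h2
  have hP' : ‖Pi x (η 1 - γ 1)‖ ≤ (1 + 6 * C ^ 2 * ρ ^ 2) * D := by
    have h2 : ‖Pi x (η 1 - γ 1)‖ ≤ ‖Pi x (η 1 - γ 1) - (w - v)‖ + ‖w - v‖ := by
      have := norm_add_le (Pi x (η 1 - γ 1) - (w - v)) (w - v)
      simpa using this
    rw [← hD] at h2
    linarith
  have hN : ‖(η 1 - γ 1) - Pi x (η 1 - γ 1)‖ ≤ 6 * C * ρ * D := by
    obtain ⟨u, hu⟩ : ∃ u, u = η 1 - γ 1 - (w - v) := ⟨_, rfl⟩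
    have e : (η 1 - γ 1) - Pi x (η 1 - γ 1) = u - Pi x u := by
      rw [hu, map_sub (Pi x) (η 1 - γ 1) (w - v), htan]
      abel
    rw [e]
    have h2 : ‖u - Pi x u‖ ≤ ‖u‖ := by
      have h3 := norm_sq_eq h hx u
      have h4 : ‖u - Pi x u‖ ^ 2 ≤ ‖u‖ ^ 2 := by
        have := sq_nonneg ‖Pi x u‖
        linarith
      exact le_of_sq_le_sq h4 (norm_nonneg _)
    refine h2.trans ?_
    have h5 := e4 1 h1
    rw [one_smul] at h5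
    rw [hu]; exact h5
  have hsq := norm_sq_eq h hx (η 1 - γ 1)
  have h2 : ‖Pi x (η 1 - γ 1)‖ ^ 2 ≤ ((1 + 6 * C ^ 2 * ρ ^ 2) * D) ^ 2 := by gcongr
  have h3 : ‖(η 1 - γ 1) - Pi x (η 1 - γ 1)‖ ^ 2 ≤ (6 * C * ρ * D) ^ 2 := by gcongr
  have h4 : ‖η 1 - γ 1‖ ^ 2 ≤ ((1 + 24 * C ^ 2 * ρ ^ 2) * D) ^ 2 := by
    have h5 : ((1 + 6 * C ^ 2 * ρ ^ 2) * D) ^ 2 + (6 * C * ρ * D) ^ 2 ≤
        ((1 + 24 * C ^ 2 * ρ ^ 2) * D) ^ 2 := by
      have h6 : 0 ≤ (C ^ 2 * ρ ^ 2) ^ 2 * D ^ 2 := by positivity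
      nlinarith
    linarith
  exact le_of_sq_le_sq h4 (by positivity)

end Pool.Agent.H82.AX
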