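import Mathlib

/-!
# The hyperboloid in exponential coordinates
-/

set_option autoImplicit false

open scoped Topology InnerProductSpace
open Real (sinh cosh)

namespace Pool.Agent.H82.AX

theorem sq_le_cosh (t : ℝ) : 1 + t ^ 2 / 2 ≤ cosh t := by
  have h1 : cosh t = 1 + 2 * sinh (t / 2) ^ 2 := by
    have h2 := Real.cosh_two_mul (t / 2)
    have h3 := Real.cosh_sq (t / 2)
    rw [show 2 * (t / 2) = t by ring] at h2
    linarith
  have h4 : (t / 2) ^ 2 ≤ sinh (t / 2) ^ 2 := by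
    rcases le_total 0 (t / 2) with h | h
    · have := Real.self_le_sinh_iff.2 h
      gcongr
    · have h5 : 0 ≤ -(t / 2) := by linarith
      have h6 := Real.self_le_sinh_iff.2 h5
      rw [Real.sinh_neg] at h6
      have : (-(t / 2)) ^ 2 ≤ (-(sinh (t / 2))) ^ 2 := by gcongr
      linarith [neg_sq (t / 2), neg_sq (sinh (t / 2))]
  linarith [show (t / 2) ^ 2 = t ^ 2 / 4 by ring]

theorem cube_le_sinh {t : ℝ} (ht : 0 ≤ t) : t * (1 + t ^ 2 / 8) ≤ sinh t := by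
  have h2 := Real.sinh_two_mul (t / 2)
  rw [show 2 * (t / 2) = t by ring] at h2
  have h3 := sq_le_cosh (t / 2)
  have h4 : t / 2 ≤ sinh (t / 2) := Real.self_le_sinh_iff.2 (by linarith)
  have h5 : t / 2 * (1 + (t / 2) ^ 2 / 2) ≤ sinh (t / 2) * cosh (t / 2) := by
    gcongr
  rw [h2]
  linarith [show t * (1 + t ^ 2 / 8) = 2 * (t / 2 * (1 + (t / 2) ^ 2 / 2)) by ring]

theorem cosh_upper {ε : ℝ} (hε : 0 < ε) :
    ∀ᶠ t : ℝ in 𝓝 0, 2 * (cosh t - 1) ≤ (1 + ε) * t ^ 2 := by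
  have h1 : ∀ᶠ t : ℝ in 𝓝 0, t ^ 2 / 2 < min 1 ε := by
    have h2 : ContinuousAt (fun t : ℝ => t ^ 2 / 2) 0 := by fun_prop
    refine h2.eventually_lt (continuousAt_const (y := min 1 ε)) ?_
    simp [hε]
  filter_upwards [h1] with t ht
  have h2 := Real.cosh_le_exp_half_sq t
  have h3 : t ^ 2 / 2 ≤ 1 := ht.le.trans (min_le_left _ _)
  have h4 : t ^ 2 / 2 ≤ ε := ht.le.trans (min_le_right _ _)
  have h5 := Real.abs_exp_sub_one_sub_id_le (x := t ^ 2 / 2) (by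
    rw [abs_of_nonneg (by positivity)]; exact h3)
  have h6 := (abs_le.1 h5).2
  have h7 : (t ^ 2 / 2) ^ 2 ≤ ε * (t ^ 2 / 2) := by
    rw [sq]; gcongr
  linarith

variable {E : Type} [NormedAddCommGroup E] [InnerProductSpace ℝ E]

/-- spatial part of the hyperboloid point with exponential coordinate `v` -/
noncomputable def hS (κ : ℝ) (v : E) : E := (sinh (κ * ‖v‖) / ‖v‖) • v

/-- `cosh` of the (scaled) hyperbolic distance -/
noncomputable def hC (κ : ℝ) (v w : E) : ℝ :=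
  cosh (κ * ‖v‖) * cosh (κ * ‖w‖) - ⟪hS κ v, hS κ w⟫_ℝ

variable {κ : ℝ}

theorem norm_hS (hκ : 0 < κ) (v : E) : ‖hS κ v‖ = sinh (κ * ‖v‖) := by
  have h0 : 0 ≤ sinh (κ * ‖v‖) := Real.sinh_nonneg_iff.2 (by positivity)
  rw [hS, norm_smul, Real.norm_eq_abs, abs_of_nonneg (by positivity)]
  rcases eq_or_ne v 0 with rfl | hv
  · simp
  · rw [div_mul_cancel₀ _ (norm_ne_zero_iff.2 hv)]

theorem norm_hS_sq (hκ : 0 < κ) (v : E) : ‖hS κ v‖ ^ 2 = cosh (κ * ‖v‖) ^ 2 - 1 := by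
  rw [norm_hS hκ, Real.cosh_sq]; ring

theorem hC_self (hκ : 0 < κ) (v : E) : hC κ v v = 1 := by
  rw [hC, real_inner_self_eq_norm_sq, norm_hS_sq hκ]; ring

theorem hC_comm (v w : E) : hC κ v w = hC κ w v := by
  rw [hC, hC, real_inner_comm]; ring

theorem hC_zero (v : E) : hC κ 0 v = cosh (κ * ‖v‖) := by
  simp [hC, hS]

/-- explicit formula -/
theorem hC_eq {v w : E} (hv : v ≠ 0) (hw : w ≠ 0) :
    hC κ v w = cosh (κ * (‖w‖ - ‖v‖)) +
      sinh (κ * ‖v‖) * sinh (κ * ‖w‖) / (‖v‖ * ‖w‖) * (‖v‖ * ‖w‖ - ⟪v, w⟫_ℝ) := by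
  have hv' : ‖v‖ ≠ 0 := norm_ne_zero_iff.2 hv
  have hw' : ‖w‖ ≠ 0 := norm_ne_zero_iff.2 hw
  rw [hC, hS, hS, real_inner_smul_left, real_inner_smul_right, mul_sub κ, Real.cosh_sub]
  field_simp
  ring

theorem hC_lower (hκ : 0 < κ) (v w : E) : κ ^ 2 * ‖w - v‖ ^ 2 ≤ 2 * (hC κ v w - 1) := by
  rcases eq_or_ne v 0 with rfl | hv
  · rw [hC_zero, sub_zero]
    have := sq_le_cosh (κ * ‖w‖)
    linarith [mul_pow κ ‖w‖ 2]
  rcases eq_or_ne w 0 with rfl | hw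
  · rw [hC_comm, hC_zero, zero_sub, norm_neg]
    have := sq_le_cosh (κ * ‖v‖)
    linarith [mul_pow κ ‖v‖ 2]
  have hv' : 0 < ‖v‖ := norm_pos_iff.2 hv
  have hw' : 0 < ‖w‖ := norm_pos_iff.2 hw
  rw [hC_eq hv hw, norm_sub_sq_real, real_inner_comm v w]
  have h1 := sq_le_cosh (κ * (‖w‖ - ‖v‖))
  have h2 : κ * ‖v‖ ≤ sinh (κ * ‖v‖) := Real.self_le_sinh_iff.2 (by positivity)
  have h3 : κ * ‖w‖ ≤ sinh (κ * ‖w‖) := Real.self_le_sinh_iff.2 (by positivity)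
  have h4 : κ ^ 2 ≤ sinh (κ * ‖v‖) * sinh (κ * ‖w‖) / (‖v‖ * ‖w‖) := by
    rw [le_div_iff₀ (by positivity)]
    calc κ ^ 2 * (‖v‖ * ‖w‖) = (κ * ‖v‖) * (κ * ‖w‖) := by ring
      _ ≤ _ := by gcongr
  have h5 : 0 ≤ ‖v‖ * ‖w‖ - ⟪v, w⟫_ℝ := sub_nonneg.2 (real_inner_le_norm v w)
  have h6 := mul_le_mul_of_nonneg_right h4 h5
  linarith [mul_pow κ (‖w‖ - ‖v‖) 2]

theorem one_le_hC (hκ : 0 < κ) (v w : E) : 1 ≤ hC κ v w := by
  have := hC_lower hκ v w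
  have : 0 ≤ κ ^ 2 * ‖w - v‖ ^ 2 := by positivity
  linarith

/-- A sharper lower bound in polar form. -/
theorem hC_polar {v w : E} (hv : v ≠ 0) (hw : w ≠ 0) :
    2 * (hC κ v w - 1) = 2 * (cosh (κ * (‖w‖ - ‖v‖)) - 1) +
      sinh (κ * ‖v‖) * sinh (κ * ‖w‖) / ‖v‖ ^ 2 * ‖(‖v‖ / ‖w‖) • w - v‖ ^ 2 := by
  have hv' : 0 < ‖v‖ := norm_pos_iff.2 hv
  have hw' : 0 < ‖w‖ := norm_pos_iff.2 hw
  have h1 : ‖(‖v‖ / ‖w‖) • w - v‖ ^ 2 = 2 * ‖v‖ ^ 2 - 2 * (‖v‖ / ‖w‖) * ⟪v, w⟫_ℝ := by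
    rw [norm_sub_sq_real, norm_smul, real_inner_smul_left, real_inner_comm v w,
      Real.norm_eq_abs, abs_of_pos (by positivity)]
    field_simp
    ring
  rw [hC_eq hv hw, h1]
  field_simp
  ring

theorem exists_hS (hκ : 0 < κ) {c : ℝ} (hc : 1 ≤ c) {X : E} (hX : ‖X‖ ^ 2 = c ^ 2 - 1) :
    ∃ (a : ℝ), hS κ (a • X) = X ∧ cosh (κ * ‖a • X‖) = c := by
  have h0 : 0 ≤ Real.arsinh ‖X‖ := Real.arsinh_nonneg_iff.2 (norm_nonneg _)
  rcases eq_or_ne X 0 with rfl | hX0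
  · refine ⟨0, by simp [hS], ?_⟩
    simp only [norm_zero, smul_zero, mul_zero, Real.cosh_zero]
    rw [norm_zero] at hX
    have : c ^ 2 = 1 := by linarith
    nlinarith
  have hX' : 0 < ‖X‖ := norm_pos_iff.2 hX0
  have hn : ‖(Real.arsinh ‖X‖ / (κ * ‖X‖)) • X‖ = Real.arsinh ‖X‖ / κ := by
    rw [norm_smul, Real.norm_eq_abs, abs_of_nonneg (by positivity)]
    field_simp
  have hκn : κ * ‖(Real.arsinh ‖X‖ / (κ * ‖X‖)) • X‖ = Real.arsinh ‖X‖ := by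
    rw [hn]; field_simp
  have hpos : 0 < Real.arsinh ‖X‖ := by
    rw [← Real.sinh_pos_iff, Real.sinh_arsinh]; exact hX'
  refine ⟨Real.arsinh ‖X‖ / (κ * ‖X‖), ?_, ?_⟩
  · rw [hS, hκn, hn, Real.sinh_arsinh, smul_smul]
    have : ‖X‖ / (Real.arsinh ‖X‖ / κ) * (Real.arsinh ‖X‖ / (κ * ‖X‖)) = 1 := by
      field_simp
    rw [this, one_smul]
  · rw [hκn]
    have h1 := Real.cosh_sq (Real.arsinh ‖X‖)
    rw [Real.sinh_arsinh] at h1
    have h2 : cosh (Real.arsinh ‖X‖) ^ 2 = c ^ 2 := by linarith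
    have h3 := Real.cosh_pos (Real.arsinh ‖X‖)
    exact (sq_eq_sq₀ h3.le (by linarith)).1 h2

theorem sinh_identity (a b : ℝ) :
    sinh a ^ 2 + sinh b ^ 2 + 2 * (sinh a * sinh b * cosh (a + b)) = sinh (a + b) ^ 2 := by
  rw [Real.cosh_add, Real.sinh_add]
  have h1 := Real.cosh_sq a
  have h2 := Real.cosh_sq b
  linear_combination (-(sinh b ^ 2)) * h1 - (sinh a ^ 2) * h2

/-- The geodesic from `v` to `w`. -/
theorem exists_hgeo (hκ : 0 < κ) (v w : E) {l : ℝ} (hl : 0 < l) (hvw : hC κ v w = cosh (κ * l)) :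
    ∃ p : ℝ → E, p 0 = v ∧ p l = w ∧
      (∀ s, ∃ a b : ℝ, p s = a • v + b • w) ∧
      (∀ s ∈ Set.Icc 0 l, ‖p s‖ ≤ max ‖v‖ ‖w‖) ∧
      ∀ s ∈ Set.Icc 0 l, ∀ t ∈ Set.Icc 0 l, hC κ (p s) (p t) = cosh (κ * (t - s)) := by
  obtain ⟨L, hL⟩ : ∃ L, L = sinh (κ * l) := ⟨_, rfl⟩
  have hL0 : 0 < L := by rw [hL]; exact Real.sinh_pos_iff.2 (by positivity)
  obtain ⟨α, hα⟩ : ∃ α : ℝ → ℝ, α = fun s => sinh (κ * (l - s)) / L := ⟨_, rfl⟩
  obtain ⟨β, hβ⟩ : ∃ β : ℝ → ℝ, β = fun s => sinh (κ * s) / L := ⟨_, rfl⟩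
  have hα0 : ∀ s ∈ Set.Icc 0 l, 0 ≤ α s := fun s hs => by
    rw [hα]
    exact div_nonneg (Real.sinh_nonneg_iff.2 (mul_nonneg hκ.le (by linarith [hs.2]))) hL0.le
  have hβ0 : ∀ s ∈ Set.Icc 0 l, 0 ≤ β s := fun s hs => by
    rw [hβ]
    exact div_nonneg (Real.sinh_nonneg_iff.2 (mul_nonneg hκ.le hs.1)) hL0.le
  -- bilinear identity
  have hbil : ∀ s t, α s * α t + β s * β t + (α s * β t + α t * β s) * cosh (κ * l) =
      cosh (κ * (t - s)) := by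
    intro s t
    rw [hα, hβ]
    simp only
    have e1 : κ * (l - s) = κ * l - κ * s := by ring
    have e2 : κ * (l - t) = κ * l - κ * t := by ring
    have e3 : κ * (t - s) = κ * t - κ * s := by ring
    rw [e1, e2, e3, Real.sinh_sub, Real.sinh_sub, Real.cosh_sub]
    field_simp
    rw [hL]
    obtain ⟨S, hS⟩ : ∃ S, S = sinh (κ * l) := ⟨_, rfl⟩
    obtain ⟨K, hK⟩ : ∃ K, K = cosh (κ * l) := ⟨_, rfl⟩
    have h1 : K ^ 2 = S ^ 2 + 1 := by rw [hS, hK]; exact Real.cosh_sq _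
    rw [← hS, ← hK]
    linear_combination (-(sinh (κ * s) * sinh (κ * t))) * h1
  obtain ⟨cs, hcs⟩ : ∃ cs : ℝ → ℝ, cs = fun s => α s * cosh (κ * ‖v‖) + β s * cosh (κ * ‖w‖) :=
    ⟨_, rfl⟩
  obtain ⟨X, hX⟩ : ∃ X : ℝ → E, X = fun s => α s • hS κ v + β s • hS κ w := ⟨_, rfl⟩
  have hprod : ∀ s t, cs s * cs t - ⟪X s, X t⟫_ℝ = cosh (κ * (t - s)) := by
    intro s t
    rw [← hbil s t, ← hvw, hcs, hX, hC]
    simp only [inner_add_left, inner_add_right, real_inner_smul_left, real_inner_smul_right,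
      real_inner_self_eq_norm_sq, norm_hS_sq hκ, real_inner_comm (hS κ v) (hS κ w)]
    ring
  have hsum : ∀ s ∈ Set.Icc 0 l, α s + β s ≤ 1 := by
    intro s hs
    rw [hα, hβ]
    simp only
    rw [← add_div, div_le_one hL0, hL]
    have e1 : κ * l = κ * (l - s) + κ * s := by ring
    have h1 := Real.one_le_cosh (κ * s)
    have h2 := Real.one_le_cosh (κ * (l - s))
    have h3 : 0 ≤ sinh (κ * s) := Real.sinh_nonneg_iff.2 (mul_nonneg hκ.le hs.1)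
    have h4 : 0 ≤ sinh (κ * (l - s)) :=
      Real.sinh_nonneg_iff.2 (mul_nonneg hκ.le (by linarith [hs.2]))
    rw [e1, Real.sinh_add]
    nlinarith
  have hcs1 : ∀ s ∈ Set.Icc 0 l, 1 ≤ cs s := by
    intro s hs
    have h1 := hprod s s
    rw [sub_self, mul_zero, Real.cosh_zero, real_inner_self_eq_norm_sq] at h1
    have h2 : 0 ≤ cs s := by
      rw [hcs]
      have := hα0 s hs
      have := hβ0 s hs
      have := Real.cosh_pos (κ * ‖v‖)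
      have := Real.cosh_pos (κ * ‖w‖)
      positivity
    nlinarith [sq_nonneg ‖X s‖]
  have hex : ∀ s, ∃ a : ℝ, s ∈ Set.Icc 0 l →
      (hS κ (a • X s) = X s ∧ cosh (κ * ‖a • X s‖) = cs s) := by
    intro s
    by_cases hs : s ∈ Set.Icc 0 l
    · have h1 := hprod s s
      rw [sub_self, mul_zero, Real.cosh_zero, real_inner_self_eq_norm_sq] at h1
      obtain ⟨a, ha⟩ := exists_hS hκ (hcs1 s hs) (X := X s) (by linarith)
      exact ⟨a, fun _ => ha⟩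
    · exact ⟨0, fun h => absurd h hs⟩
  choose a ha using hex
  have hinj : ∀ u u' : E, hS κ u = hS κ u' → cosh (κ * ‖u‖) = cosh (κ * ‖u'‖) → u = u' := by
    intro u u' h1 h2
    have h3 : hC κ u u' = 1 := by
      rw [hC, ← h1, ← h2, real_inner_self_eq_norm_sq, norm_hS_sq hκ]; ring
    have h4 := hC_lower hκ u u'
    rw [h3, sub_self, mul_zero] at h4
    have h5 : ‖u' - u‖ ^ 2 ≤ 0 := by
      by_contra hcon
      rw [not_le] at hcon
      have : 0 < κ ^ 2 * ‖u' - u‖ ^ 2 := by positivity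
      linarith
    have h6 : ‖u' - u‖ = 0 := by
      have := sq_nonneg ‖u' - u‖
      exact pow_eq_zero_iff (two_ne_zero) |>.1 (le_antisymm h5 this)
    exact (sub_eq_zero.1 (norm_eq_zero.1 h6)).symm
  have h0m : (0 : ℝ) ∈ Set.Icc 0 l := ⟨le_rfl, hl.le⟩
  have hlm : l ∈ Set.Icc 0 l := ⟨hl.le, le_rfl⟩
  have hα00 : α 0 = 1 := by rw [hα]; simp only [sub_zero]; rw [← hL, div_self hL0.ne']
  have hβ00 : β 0 = 0 := by rw [hβ]; simp
  have hαl : α l = 0 := by rw [hα]; simp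
  have hβl : β l = 1 := by rw [hβ]; simp only; rw [← hL, div_self hL0.ne']
  refine ⟨fun s => a s • X s, ?_, ?_, ?_, ?_, ?_⟩
  · obtain ⟨h1, h2⟩ := ha 0 h0m
    refine hinj _ _ (h1.trans ?_) (h2.trans ?_)
    · rw [hX]; simp [hα00, hβ00]
    · rw [hcs]; simp [hα00, hβ00]
  · obtain ⟨h1, h2⟩ := ha l hlm
    refine hinj _ _ (h1.trans ?_) (h2.trans ?_)
    · rw [hX]; simp [hαl, hβl]
    · rw [hcs]; simp [hαl, hβl]
  · intro s
    refine ⟨a s * (α s * (sinh (κ * ‖v‖) / ‖v‖)), a s * (β s * (sinh (κ * ‖w‖) / ‖w‖)), ?_⟩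
    rw [hX]
    simp only [hS, smul_add, smul_smul]
  · intro s hs
    obtain ⟨h1, h2⟩ := ha s hs
    have h3 : cosh (κ * ‖a s • X s‖) ≤ cosh (κ * max ‖v‖ ‖w‖) := by
      rw [h2, hcs]
      simp only
      have hm : 0 ≤ max ‖v‖ ‖w‖ := (norm_nonneg v).trans (le_max_left _ _)
      have e1 : cosh (κ * ‖v‖) ≤ cosh (κ * max ‖v‖ ‖w‖) := by
        rw [Real.cosh_le_cosh, abs_of_nonneg (by positivity), abs_of_nonneg (by positivity)]
        gcongr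
        exact le_max_left _ _
      have e2 : cosh (κ * ‖w‖) ≤ cosh (κ * max ‖v‖ ‖w‖) := by
        rw [Real.cosh_le_cosh, abs_of_nonneg (by positivity), abs_of_nonneg (by positivity)]
        gcongr
        exact le_max_right _ _
      have e3 := mul_le_mul_of_nonneg_left e1 (hα0 s hs)
      have e4 := mul_le_mul_of_nonneg_left e2 (hβ0 s hs)
      have e5 := mul_le_mul_of_nonneg_right (hsum s hs) (Real.cosh_pos (κ * max ‖v‖ ‖w‖)).le
      linarith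
    have hm : 0 ≤ max ‖v‖ ‖w‖ := (norm_nonneg v).trans (le_max_left _ _)
    rw [Real.cosh_le_cosh, abs_of_nonneg (by positivity), abs_of_nonneg (by positivity)] at h3
    exact le_of_mul_le_mul_left h3 hκ
  · intro s hs t ht
    rw [hC, (ha s hs).1, (ha t ht).1, (ha s hs).2, (ha t ht).2]
    exact hprod s t

end Pool.Agent.H82.AX
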