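import Pool.Agent.H82.AX.Chart
import Pool.Agent.H82.AX.Hyp

/-!
# Hinge comparison
-/

set_option autoImplicit false

open scoped Topology InnerProductSpace
open Real (sinh cosh)

namespace Pool.Agent.H82.AX

open Pool.Agent.H75.AX.Spec

variable {E : Type} [NormedAddCommGroup E] [InnerProductSpace ℝ E]

variable {M : Set E} {n : ℕ} {Pi : E → E →L[ℝ] E} {Q : E → E →L[ℝ] E →L[ℝ] E} {C r : ℝ}

variable (h : Geom M n Pi Q C r) (hC1 : 1 ≤ C)
include h hC1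

/-- Local comparison with the hyperbolic metric of curvature `-(14 C)²`. -/
theorem hinge_local {x v : E} (hx : x ∈ M) (hvt : Pi x v = v) (hv : ‖v‖ ≤ rad C r) {ε : ℝ}
    (hε : 0 < ε) : ∀ᶠ w in 𝓝 v, Pi x w = w → ‖w‖ ≤ rad C r →
      (14 * C) ^ 2 * ‖ex M Pi Q x w - ex M Pi Q x v‖ ^ 2 ≤
        (1 + ε) * (2 * (hC (14 * C) v w - 1)) := by
  have hCp := h.C_pos
  obtain ⟨κ, hκ⟩ : ∃ κ, κ = 14 * C := ⟨_, rfl⟩
  rw [← hκ]
  have hκ0 : 0 < κ := by rw [hκ]; positivity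
  rcases eq_or_ne v 0 with rfl | hv0
  · refine Filter.Eventually.of_forall fun w hwt hwr => ?_
    rw [ex_zero h hC1 hx]
    have h1 := ex_norm_le h hC1 hx hwt hwr
    have h2 := hC_lower hκ0 (0 : E) w
    rw [sub_zero] at h2
    have h3 : κ ^ 2 * ‖ex M Pi Q x w - x‖ ^ 2 ≤ κ ^ 2 * ‖w‖ ^ 2 := by gcongr
    have h4 : 0 ≤ 2 * (hC κ 0 w - 1) := by
      have : 0 ≤ κ ^ 2 * ‖w‖ ^ 2 := by positivity
      linarith
    nlinarith
  · have hv' : 0 < ‖v‖ := norm_pos_iff.2 hv0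
    obtain ⟨K, hK⟩ : ∃ K, K = 6 * C + 14 / ‖v‖ := ⟨_, rfl⟩
    have hK0 : 0 < K := by rw [hK]; positivity
    obtain ⟨A, hA⟩ : ∃ A, A = 1 + 24 * C ^ 2 * ‖v‖ ^ 2 := ⟨_, rfl⟩
    have hA1 : 1 ≤ A := by
      rw [hA]
      have : 0 ≤ 24 * C ^ 2 * ‖v‖ ^ 2 := by positivity
      linarith
    have hsinh : κ * ‖v‖ * A < sinh (κ * ‖v‖) := by
      have h1 := cube_le_sinh (t := κ * ‖v‖) (by positivity)
      have h2 : A < 1 + (κ * ‖v‖) ^ 2 / 8 := by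
        rw [hA, hκ]
        have : 0 < C ^ 2 * ‖v‖ ^ 2 := by positivity
        nlinarith
      have h3 : κ * ‖v‖ * A < κ * ‖v‖ * (1 + (κ * ‖v‖) ^ 2 / 8) := by gcongr
      linarith
    have hev : ∀ᶠ w in 𝓝 v, κ ^ 2 * A ^ 2 < sinh (κ * ‖v‖) * sinh (κ * ‖w‖) / ‖v‖ ^ 2 := by
      have h1 : ContinuousAt (fun w : E => sinh (κ * ‖v‖) * sinh (κ * ‖w‖) / ‖v‖ ^ 2) v := by
        fun_prop
      refine (continuousAt_const (y := κ ^ 2 * A ^ 2)).eventually_lt h1 ?_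
      rw [lt_div_iff₀ (by positivity)]
      calc κ ^ 2 * A ^ 2 * ‖v‖ ^ 2 = (κ * ‖v‖ * A) * (κ * ‖v‖ * A) := by ring
        _ < _ := by gcongr
    filter_upwards [bm_small hv0 (show 0 < ε / (2 * K) by positivity), hev] with w hw hws hwt hwr
    obtain ⟨hw0, hw1⟩ := hw
    have h1 := ex_local h hC1 hx hvt hwt hv hwr hv0 hw0
    have hw' : ‖(‖v‖ / ‖w‖) • w‖ ≤ ‖v‖ := by
      rw [norm_smul, Real.norm_eq_abs, abs_of_pos (by have := norm_pos_iff.2 hw0; positivity),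
        div_mul_cancel₀ _ (norm_ne_zero_iff.2 hw0)]
    have h2 := ex_upper h hC1 hx hvt (tan_smul hwt (‖v‖ / ‖w‖)) le_rfl hw' hv
    rw [← hK] at h1
    rw [← hA] at h2
    rw [hC_polar hv0 hw0]
    obtain ⟨m, hm⟩ : ∃ m, m = ‖(‖v‖ / ‖w‖) • w - v‖ := ⟨_, rfl⟩
    obtain ⟨b, hb⟩ : ∃ b, b = |‖w‖ - ‖v‖| := ⟨_, rfl⟩
    obtain ⟨D, hD⟩ : ∃ D, D = ‖ex M Pi Q x w - ex M Pi Q x v‖ := ⟨_, rfl⟩
    obtain ⟨D', hD'⟩ : ∃ D', D' = ‖ex M Pi Q x ((‖v‖ / ‖w‖) • w) - ex M Pi Q x v‖ := ⟨_, rfl⟩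
    obtain ⟨S, hS⟩ : ∃ S, S = sinh (κ * ‖v‖) * sinh (κ * ‖w‖) / ‖v‖ ^ 2 := ⟨_, rfl⟩
    have hcosh := sq_le_cosh (κ * (‖w‖ - ‖v‖))
    rw [mul_pow, ← sq_abs (‖w‖ - ‖v‖), ← hb] at hcosh
    rw [← hm, ← hb] at hw1
    rw [← hD, ← hD', ← hm, ← hb, ← sq_abs (‖w‖ - ‖v‖), ← hb] at h1
    rw [← hm, ← hD'] at h2
    rw [← hS] at hws ⊢
    rw [← hD, ← hm]
    have hm0 : 0 ≤ m := hm ▸ norm_nonneg _
    have hb0 : 0 ≤ b := hb ▸ abs_nonneg _
    have hD0 : 0 ≤ D := hD ▸ norm_nonneg _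
    have h3 : K * (b + m) ^ 3 ≤ ε * (b ^ 2 + m ^ 2) := by
      have h4 : K * (b + m) ≤ ε / 2 := by
        rw [lt_div_iff₀ (by positivity)] at hw1
        linarith
      have h5 : (b + m) ^ 2 ≤ 2 * (b ^ 2 + m ^ 2) := by nlinarith [sq_nonneg (b - m)]
      calc K * (b + m) ^ 3 = K * (b + m) * (b + m) ^ 2 := by ring
        _ ≤ ε / 2 * (2 * (b ^ 2 + m ^ 2)) := by gcongr
        _ = _ := by ring
    have h4 : D ^ 2 ≤ b ^ 2 + D' ^ 2 + K * (b + m) ^ 3 := by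
      have := (abs_le.1 h1).2
      linarith
    have h5 : D' ^ 2 ≤ A ^ 2 * m ^ 2 := by
      have hD'0 : 0 ≤ D' := hD' ▸ norm_nonneg _
      rw [← mul_pow]
      gcongr
    have h6 : m ^ 2 ≤ A ^ 2 * m ^ 2 := by
      have : 1 ≤ A ^ 2 := by nlinarith
      have := sq_nonneg m
      nlinarith
    have h7 : D ^ 2 ≤ (1 + ε) * (b ^ 2 + A ^ 2 * m ^ 2) := by
      have : ε * m ^ 2 ≤ ε * (A ^ 2 * m ^ 2) := by gcongr
      linarith
    have h8 : κ ^ 2 * (b ^ 2 + A ^ 2 * m ^ 2) ≤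
        2 * (cosh (κ * (‖w‖ - ‖v‖)) - 1) + S * m ^ 2 := by
      have : κ ^ 2 * A ^ 2 * m ^ 2 ≤ S * m ^ 2 := by gcongr
      linarith
    calc κ ^ 2 * D ^ 2 ≤ κ ^ 2 * ((1 + ε) * (b ^ 2 + A ^ 2 * m ^ 2)) := by gcongr
      _ = (1 + ε) * (κ ^ 2 * (b ^ 2 + A ^ 2 * m ^ 2)) := by ring
      _ ≤ _ := by gcongr

/-- Hinge comparison. -/
theorem hinge {x v w : E} (hx : x ∈ M) (hvt : Pi x v = v) (hwt : Pi x w = w)
    (hv : ‖v‖ ≤ rad C r) (hw : ‖w‖ ≤ rad C r) :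
    cosh (14 * C * dM M (ex M Pi Q x v) (ex M Pi Q x w)) ≤ hC (14 * C) v w := by
  have hCp := h.C_pos
  obtain ⟨κ, hκ⟩ : ∃ κ, κ = 14 * C := ⟨_, rfl⟩
  have hκ0 : 0 < κ := by rw [hκ]; positivity
  have hloc := fun (v : E) (hvt : Pi x v = v) (hv : ‖v‖ ≤ rad C r) (ε : ℝ) (hε : 0 < ε) =>
    hinge_local h hC1 hx hvt hv hε
  rw [← hκ] at hloc ⊢
  rcases eq_or_ne v w with rfl | hne
  · rw [dM_self (ex_mem h hC1 hx hvt hv), hC_self hκ0, mul_zero, Real.cosh_zero]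
  have hone : 1 < hC κ v w := by
    have h1 := hC_lower hκ0 v w
    have h2 : 0 < ‖w - v‖ := norm_pos_iff.2 (sub_ne_zero.2 hne.symm)
    have h3 : 0 < κ ^ 2 * ‖w - v‖ ^ 2 := by positivity
    linarith
  obtain ⟨l, hl0, hl⟩ : ∃ l, 0 < l ∧ hC κ v w = cosh (κ * l) := by
    obtain ⟨y, hy⟩ : ∃ y, y = Real.arsinh (Real.sqrt (hC κ v w ^ 2 - 1)) := ⟨_, rfl⟩
    have h1 : 0 < Real.sqrt (hC κ v w ^ 2 - 1) := Real.sqrt_pos.2 (by nlinarith)
    have h2 : 0 < y := by rw [← Real.sinh_pos_iff, hy, Real.sinh_arsinh]; exact h1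
    refine ⟨y / κ, by positivity, ?_⟩
    rw [mul_div_cancel₀ _ hκ0.ne']
    have h3 := Real.cosh_sq y
    rw [hy, Real.sinh_arsinh, Real.sq_sqrt (by nlinarith), ← hy] at h3
    have h4 : cosh y ^ 2 = hC κ v w ^ 2 := by linarith
    exact ((sq_eq_sq₀ (Real.cosh_pos y).le (by linarith)).1 h4).symm
  obtain ⟨p, p0, pl, pspan, pnorm, pC⟩ := exists_hgeo hκ0 v w hl0 hl
  have ptan : ∀ s, Pi x (p s) = p s := by
    intro s
    obtain ⟨a, b, hab⟩ := pspan s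
    rw [hab, map_add, map_smul, map_smul, hvt, hwt]
  have prad : ∀ s ∈ Set.Icc 0 l, ‖p s‖ ≤ rad C r := fun s hs => (pnorm s hs).trans (max_le hv hw)
  have hpcont : ∀ s ∈ Set.Icc 0 l, Filter.Tendsto p (𝓝[Set.Icc 0 l] s) (𝓝 (p s)) := by
    intro s hs
    rw [tendsto_iff_norm_sub_tendsto_zero]
    have h1 : Filter.Tendsto (fun t => Real.sqrt (2 * (cosh (κ * (t - s)) - 1) / κ ^ 2))
        (𝓝[Set.Icc 0 l] s) (𝓝 0) := by
      have h2 : ContinuousAt (fun t => Real.sqrt (2 * (cosh (κ * (t - s)) - 1) / κ ^ 2)) s := by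
        fun_prop
      have h3 := h2.tendsto
      simp only [sub_self, mul_zero, Real.cosh_zero, zero_div, Real.sqrt_zero] at h3
      exact h3.mono_left nhdsWithin_le_nhds
    refine squeeze_zero' (Filter.Eventually.of_forall fun _ => norm_nonneg _) ?_ h1
    filter_upwards [self_mem_nhdsWithin] with t ht
    refine Real.le_sqrt_of_sq_le ?_
    rw [le_div_iff₀ (by positivity)]
    have := hC_lower hκ0 (p s) (p t)
    rw [pC s hs t ht] at this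
    linarith
  have hPD : PD M (ex M Pi Q x v) (ex M Pi Q x w) l := by
    refine ⟨hl0.le, fun s => ex M Pi Q x (p s), ?_, fun s hs => ex_mem h hC1 hx (ptan s)
      (prad s hs), by simp only [p0], by simp only [pl]⟩
    refine lip_local ?_ ?_
    · intro s hs
      have h1 := hpcont s hs
      change Filter.Tendsto _ _ _
      rw [tendsto_iff_norm_sub_tendsto_zero] at h1 ⊢
      have h2 := h1.const_mul 2
      rw [mul_zero] at h2
      refine squeeze_zero' (Filter.Eventually.of_forall fun _ => norm_nonneg _) ?_ h2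
      filter_upwards [self_mem_nhdsWithin] with t ht
      exact ex_lip h hC1 hx (ptan s) (ptan t) (prad s hs) (prad t ht)
    · intro s hs a ha
      have hs' : s ∈ Set.Icc 0 l := ⟨hs.1, hs.2.le⟩
      have e0 : 𝓝[>] s ≤ 𝓝[Set.Icc 0 l] s := by
        have e3 : 𝓝[>] s = 𝓝[Set.Ioc s l] s := (nhdsWithin_Ioc_eq_nhdsGT hs.2).symm
        rw [e3]
        exact nhdsWithin_mono _ fun t ht => ⟨hs.1.trans ht.1.le, ht.2⟩
      have hε : 0 < a - 1 := by linarith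
      have e1 := ((hpcont s hs').mono_left e0).eventually
        (hloc (p s) (ptan s) (prad s hs') (a - 1) hε)
      have e2 : ∀ᶠ t in 𝓝[>] s, 2 * (cosh (κ * (t - s)) - 1) ≤
          (1 + (a - 1)) * (κ * (t - s)) ^ 2 := by
        have h2 : Filter.Tendsto (fun t => κ * (t - s)) (𝓝[>] s) (𝓝 0) := by
          have h3 : ContinuousAt (fun t => κ * (t - s)) s := by fun_prop
          have h4 := h3.tendsto
          simp only [sub_self, mul_zero] at h4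
          exact h4.mono_left nhdsWithin_le_nhds
        exact h2.eventually (cosh_upper hε)
      filter_upwards [e1, e2, Ioc_mem_nhdsGT hs.2] with t h1 h2 hst
      have ht' : t ∈ Set.Icc 0 l := ⟨hs.1.trans hst.1.le, hst.2⟩
      have h3 := h1 (ptan t) (prad t ht')
      rw [pC s hs' t ht'] at h3
      have h4 : 0 < t - s := sub_pos.2 hst.1
      have h5 : κ ^ 2 * ‖ex M Pi Q x (p t) - ex M Pi Q x (p s)‖ ^ 2 ≤
          κ ^ 2 * (a * (t - s)) ^ 2 := by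
        calc _ ≤ (1 + (a - 1)) * (2 * (cosh (κ * (t - s)) - 1)) := h3
          _ ≤ (1 + (a - 1)) * ((1 + (a - 1)) * (κ * (t - s)) ^ 2) := by
            have : 0 ≤ 1 + (a - 1) := by linarith
            gcongr
          _ = _ := by ring
      have h6 := le_of_mul_le_mul_left h5 (by positivity : (0 : ℝ) < κ ^ 2)
      have h7 : 0 ≤ a * (t - s) := by
        have : 0 ≤ a := by linarith
        positivity
      exact le_of_sq_le_sq h6 h7
  rw [hl, Real.cosh_le_cosh, abs_of_nonneg (mul_nonneg hκ0.le (dM_nonneg _ _)),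
    abs_of_nonneg (by positivity)]
  have := dM_le hPD
  gcongr

end Pool.Agent.H82.AX
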