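import Pool.Agent.H82.AX.Lev
import Pool.Agent.H75.AX.Spec

/-!
# J5: a compact connected regular level set carries second-order data
-/

set_option autoImplicit false

open scoped Topology InnerProductSpace NNReal

namespace Pool.Agent.H82.AX

open Pool.Agent.H75.AX.Spec

theorem const_of_deriv {F : Type} [NormedAddCommGroup F] [NormedSpace ℝ F] {τ : ℝ} (hτ : 0 ≤ τ)
    {f : ℝ → F} (h : ∀ t ∈ Set.Icc 0 τ, HasDerivWithinAt f 0 (Set.Icc 0 τ) t) :
    ∀ t ∈ Set.Icc 0 τ, f t = f 0 := by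
  intro t ht
  have h1 := Convex.norm_image_sub_le_of_norm_hasDerivWithin_le (C := 0) h
    (fun _ _ => by rw [norm_zero]) (convex_Icc _ _) (Set.left_mem_Icc.2 hτ) ht
  rw [zero_mul] at h1
  exact sub_eq_zero.1 (norm_le_zero_iff.1 h1)

variable {E E' : Type} [NormedAddCommGroup E] [InnerProductSpace ℝ E] [FiniteDimensional ℝ E]
  [NormedAddCommGroup E'] [InnerProductSpace ℝ E'] [FiniteDimensional ℝ E']
  [CompleteSpace E] [CompleteSpace E']

/-- The geodesic flow for unit times. -/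
theorem flow {Φ : E → E'} (hΦ : ContDiff ℝ 3 Φ) {M : Set E} (hM : M = Φ ⁻¹' {0}) {δ C : ℝ}
    (hδ : 0 < δ) (hC : 0 < C)
    (hunit : ∀ x ∈ Metric.cthickening δ M, IsUnit (gG (fderiv ℝ Φ x)))
    (hlip : ∀ x ∈ Metric.cthickening δ M, ∀ y ∈ Metric.cthickening δ M,
      ‖gQ (fderiv ℝ Φ x) (fderiv ℝ (fderiv ℝ Φ) x) -
        gQ (fderiv ℝ Φ y) (fderiv ℝ (fderiv ℝ Φ) y)‖ ≤ C * ‖x - y‖)
    (hbd : ∀ x ∈ Metric.cthickening δ M,
      ‖gQ (fderiv ℝ Φ x) (fderiv ℝ (fderiv ℝ Φ) x)‖ ≤ C) :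
    ∃ τ : ℝ, 0 < τ ∧ ∀ x ∈ M, ∀ u, fderiv ℝ Φ x u = 0 → ‖u‖ ≤ 1 → ∃ γ γ' : ℝ → E,
      γ 0 = x ∧ γ' 0 = u ∧ ∀ t ∈ Set.Icc 0 τ, γ t ∈ M ∧
        HasDerivWithinAt γ (γ' t) (Set.Icc 0 τ) t ∧
        HasDerivWithinAt γ' (gQ (fderiv ℝ Φ (γ t)) (fderiv ℝ (fderiv ℝ Φ) (γ t)) (γ' t) (γ' t))
          (Set.Icc 0 τ) t ∧
        fderiv ℝ Φ (γ t) (γ' t) = 0 ∧ ‖γ' t‖ = ‖u‖ := by
  obtain ⟨A, hA⟩ : ∃ A, A = fderiv ℝ Φ := ⟨_, rfl⟩
  obtain ⟨D, hD⟩ : ∃ D, D = fderiv ℝ A := ⟨_, rfl⟩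
  obtain ⟨Q, hQ⟩ : ∃ Q : E → E →L[ℝ] E →L[ℝ] E, Q = fun x => gQ (A x) (D x) := ⟨_, rfl⟩
  obtain ⟨K, hK⟩ : ∃ K, K = Metric.cthickening δ M := ⟨_, rfl⟩
  rw [← hA] at hunit hlip hbd ⊢
  rw [← hD] at hlip hbd ⊢
  rw [← hK] at hunit hlip hbd
  have hlip' : ∀ x ∈ K, ∀ y ∈ K, ‖Q x - Q y‖ ≤ C * ‖x - y‖ := by rw [hQ]; exact hlip
  have hbd' : ∀ x ∈ K, ‖Q x‖ ≤ C := by rw [hQ]; exact hbd
  have hA2 : ContDiff ℝ 2 A := by rw [hA]; exact hΦ.fderiv_right (m := 2) (by norm_num)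
  have hAd : ∀ x, HasFDerivAt A (D x) x := fun x => by
    rw [hD]
    exact (hA2.differentiable (by norm_num) x).hasFDerivAt
  have hΦd : ∀ x, HasFDerivAt Φ (A x) x := fun x => by
    rw [hA]
    exact (hΦ.differentiable (by norm_num) x).hasFDerivAt
  obtain ⟨a, ha⟩ : ∃ a : ℝ, a = min 1 δ := ⟨_, rfl⟩
  have ha0 : 0 < a := by rw [ha]; exact lt_min one_pos hδ
  have ha1 : a ≤ 1 := ha ▸ min_le_left _ _
  have haδ : a ≤ δ := ha ▸ min_le_right _ _
  obtain ⟨L, hL⟩ : ∃ L : ℝ, L = 2 + 4 * C := ⟨_, rfl⟩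
  have hL0 : 0 < L := by rw [hL]; positivity
  refine ⟨a / L, by positivity, ?_⟩
  obtain ⟨τ, hτ⟩ : ∃ τ, τ = a / L := ⟨_, rfl⟩
  have hτ0 : 0 < τ := by rw [hτ]; positivity
  rw [← hτ]
  intro x hx u hu hu1
  obtain ⟨f, hf⟩ : ∃ f : E × E → E × E, f = fun y => (y.2, Q y.1 y.2 y.2) := ⟨_, rfl⟩
  obtain ⟨S, hS⟩ : ∃ S : Set (E × E), S = Metric.closedBall (x, u) a := ⟨_, rfl⟩
  have hSK : ∀ y ∈ S, y.1 ∈ K ∧ ‖y.2‖ ≤ 2 := by
    intro y hy
    rw [hS, mem_closedBall_iff_norm] at hy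
    have h1 : ‖y.1 - x‖ ≤ a := (norm_fst_le (y - (x, u))).trans hy
    have h2 : ‖y.2 - u‖ ≤ a := (norm_snd_le (y - (x, u))).trans hy
    constructor
    · rw [hK]
      refine Metric.mem_cthickening_of_dist_le y.1 x δ M hx ?_
      rw [dist_eq_norm]
      exact h1.trans haδ
    · have h3 : ‖y.2‖ ≤ ‖y.2 - u‖ + ‖u‖ := by
        have := norm_add_le (y.2 - u) u
        simpa using this
      linarith
  have hfb : ∀ y ∈ S, ‖f y‖ ≤ L := by
    intro y hy
    obtain ⟨h1, h2⟩ := hSK y hy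
    rw [hf, Prod.norm_def]
    refine max_le ?_ ?_
    · simp only
      rw [hL]; linarith
    · simp only
      refine ((Q y.1 y.2).le_opNorm y.2).trans ?_
      have h3 : ‖Q y.1 y.2‖ ≤ C * 2 :=
        ((Q y.1).le_opNorm y.2).trans (mul_le_mul (hbd' _ h1) h2 (norm_nonneg _) hC.le)
      have h4 : ‖Q y.1 y.2‖ * ‖y.2‖ ≤ C * 2 * 2 :=
        mul_le_mul h3 h2 (norm_nonneg _) (by positivity)
      rw [hL]; linarith
  have hfl : ∀ y ∈ S, ∀ z ∈ S, ‖f y - f z‖ ≤ (1 + 8 * C) * ‖y - z‖ := by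
    intro y hy z hz
    obtain ⟨h1, h2⟩ := hSK y hy
    obtain ⟨k1, k2⟩ := hSK z hz
    have n1 : ‖y.1 - z.1‖ ≤ ‖y - z‖ := norm_fst_le (y - z)
    have n2 : ‖y.2 - z.2‖ ≤ ‖y - z‖ := norm_snd_le (y - z)
    have n0 : 0 ≤ ‖y - z‖ := norm_nonneg _
    have e : f y - f z = (y.2 - z.2, Q y.1 y.2 y.2 - Q z.1 z.2 z.2) := by rw [hf]; rfl
    rw [e, Prod.norm_def]
    refine max_le ?_ ?_
    · simp only
      have : 0 ≤ 8 * C * ‖y - z‖ := by positivity
      linarith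
    · simp only
      have e2 : Q y.1 y.2 y.2 - Q z.1 z.2 z.2 = (Q y.1 - Q z.1) y.2 y.2 +
          (Q z.1 y.2 (y.2 - z.2) + Q z.1 (y.2 - z.2) z.2) := by
        simp only [map_sub, sub_apply]
        abel
      rw [e2]
      have m1 : ‖(Q y.1 - Q z.1) y.2 y.2‖ ≤ C * ‖y - z‖ * 2 * 2 := by
        refine (((Q y.1 - Q z.1) y.2).le_opNorm y.2).trans ?_
        refine mul_le_mul ?_ h2 (norm_nonneg _) (by positivity)
        refine ((Q y.1 - Q z.1).le_opNorm y.2).trans ?_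
        refine mul_le_mul ?_ h2 (norm_nonneg _) (by positivity)
        exact (hlip' _ h1 _ k1).trans (by gcongr)
      have m2 : ‖Q z.1 y.2 (y.2 - z.2)‖ ≤ C * 2 * ‖y - z‖ := by
        refine ((Q z.1 y.2).le_opNorm _).trans ?_
        refine mul_le_mul ?_ n2 (norm_nonneg _) (by positivity)
        exact ((Q z.1).le_opNorm y.2).trans (mul_le_mul (hbd' _ k1) h2 (norm_nonneg _) hC.le)
      have m3 : ‖Q z.1 (y.2 - z.2) z.2‖ ≤ C * ‖y - z‖ * 2 := by
        refine ((Q z.1 (y.2 - z.2)).le_opNorm _).trans ?_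
        refine mul_le_mul ?_ k2 (norm_nonneg _) (by positivity)
        exact ((Q z.1).le_opNorm _).trans (mul_le_mul (hbd' _ k1) n2 (norm_nonneg _) hC.le)
      calc _ ≤ _ := (norm_add_le _ _).trans (add_le_add le_rfl (norm_add_le _ _))
        _ ≤ _ := by linarith
  classical
  obtain ⟨g, hg⟩ : ∃ g : E × E → E × E, g = fun y => if y ∈ S then f y else 0 := ⟨_, rfl⟩
  have hgS : ∀ y ∈ S, g y = f y := fun y hy => by rw [hg]; exact if_pos hy
  have hgb : ∀ y, ‖g y‖ ≤ L := by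
    intro y
    by_cases hy : y ∈ S
    · rw [hgS y hy]; exact hfb y hy
    · rw [hg]; simp only [if_neg hy, norm_zero]; exact hL0.le
  have h0τ : (0 : ℝ) ∈ Set.Icc 0 τ := ⟨le_rfl, hτ0.le⟩
  have hpl : IsPicardLindelof (fun _ => g) (⟨0, h0τ⟩ : Set.Icc 0 τ) (x, u) (Real.toNNReal a) 0
      (Real.toNNReal L) (Real.toNNReal (1 + 8 * C)) := by
    refine IsPicardLindelof.of_time_independent ?_ ?_ ?_
    · intro y _
      rw [Real.coe_toNNReal _ hL0.le]
      exact hgb y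
    · rw [Real.coe_toNNReal _ ha0.le, ← hS]
      refine LipschitzOnWith.of_dist_le_mul fun y hy z hz => ?_
      rw [hgS y hy, hgS z hz, dist_eq_norm, dist_eq_norm, Real.coe_toNNReal _ (by positivity)]
      exact hfl y hy z hz
    · rw [Real.coe_toNNReal _ ha0.le, Real.coe_toNNReal _ hL0.le]
      simp only [sub_zero, sub_self, NNReal.coe_zero]
      rw [max_eq_left hτ0.le, hτ]
      field_simp
      exact le_rfl
  obtain ⟨α, hα0, hα⟩ := hpl.exists_eq_forall_mem_Icc_hasDerivWithinAt₀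
  simp only at hα0
  have hαS : ∀ t ∈ Set.Icc 0 τ, α t ∈ S := by
    intro t ht
    have h1 := Convex.norm_image_sub_le_of_norm_hasDerivWithin_le hα
      (fun t _ => hgb (α t)) (convex_Icc _ _) h0τ ht
    rw [hS, mem_closedBall_iff_norm, ← hα0]
    refine h1.trans ?_
    rw [Real.norm_eq_abs, sub_zero, abs_of_nonneg ht.1]
    calc L * t ≤ L * τ := by have := ht.2; gcongr
      _ = a := by rw [hτ]; field_simp
  have hα' : ∀ t ∈ Set.Icc 0 τ, HasDerivWithinAt α (f (α t)) (Set.Icc 0 τ) t := by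
    intro t ht
    have := hα t ht
    rwa [hgS _ (hαS t ht)] at this
  obtain ⟨γ, hγ⟩ : ∃ γ : ℝ → E, γ = fun t => (α t).1 := ⟨_, rfl⟩
  obtain ⟨γ', hγ'⟩ : ∃ γ' : ℝ → E, γ' = fun t => (α t).2 := ⟨_, rfl⟩
  have d1 : ∀ t ∈ Set.Icc 0 τ, HasDerivWithinAt γ (γ' t) (Set.Icc 0 τ) t := by
    intro t ht
    have := (ContinuousLinearMap.fst ℝ E E).hasFDerivAt.comp_hasDerivWithinAt t (hα' t ht)
    rw [hf] at this
    rw [hγ, hγ']
    exact this
  have d2 : ∀ t ∈ Set.Icc 0 τ, HasDerivWithinAt γ' (Q (γ t) (γ' t) (γ' t)) (Set.Icc 0 τ) t := by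
    intro t ht
    have := (ContinuousLinearMap.snd ℝ E E).hasFDerivAt.comp_hasDerivWithinAt t (hα' t ht)
    rw [hf] at this
    rw [hγ, hγ']
    exact this
  have hγ0 : γ 0 = x := by rw [hγ]; simp only [hα0]
  have hγ'0 : γ' 0 = u := by rw [hγ']; simp only [hα0]
  have hun : ∀ t ∈ Set.Icc 0 τ, IsUnit (gG (A (γ t))) := fun t ht => by
    rw [hγ]; exact hunit _ (hSK _ (hαS t ht)).1
  have hx0 : A x u = 0 := hu
  have c1 : ∀ t ∈ Set.Icc 0 τ, A (γ t) (γ' t) = 0 := by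
    have h1 : ∀ t ∈ Set.Icc 0 τ, HasDerivWithinAt (fun t => A (γ t) (γ' t)) 0 (Set.Icc 0 τ) t := by
      intro t ht
      have h2 := ((hAd (γ t)).comp_hasDerivWithinAt t (d1 t ht)).clm_apply (d2 t ht)
      have h3 : D (γ t) (γ' t) (γ' t) + A (γ t) (Q (γ t) (γ' t) (γ' t)) = 0 := by
        rw [hQ]
        simp only
        rw [gQ_apply, map_neg, A_gB (hun t ht)]
        exact add_neg_cancel _
      rw [Function.comp_apply, h3] at h2
      exact h2
    intro t ht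
    rw [const_of_deriv hτ0.le h1 t ht, hγ0, hγ'0]
    exact hx0
  have c2 : ∀ t ∈ Set.Icc 0 τ, γ t ∈ M := by
    have h1 : ∀ t ∈ Set.Icc 0 τ, HasDerivWithinAt (fun t => Φ (γ t)) 0 (Set.Icc 0 τ) t := by
      intro t ht
      have h2 := (hΦd (γ t)).comp_hasDerivWithinAt t (d1 t ht)
      rw [c1 t ht] at h2
      exact h2
    intro t ht
    have h2 := const_of_deriv hτ0.le h1 t ht
    rw [hγ0] at h2
    rw [hM] at hx ⊢
    exact h2.trans hx
  refine ⟨γ, γ', hγ0, hγ'0, fun t ht => ⟨c2 t ht, d1 t ht, ?_, c1 t ht, ?_⟩⟩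
  · have := d2 t ht
    rw [hQ] at this
    exact this
  · have h1 : ∀ t ∈ Set.Icc 0 τ,
        HasDerivWithinAt (fun t => ⟪γ' t, γ' t⟫_ℝ) 0 (Set.Icc 0 τ) t := by
      intro t ht
      have h2 := (d2 t ht).inner ℝ (d2 t ht)
      have h3 : ⟪Q (γ t) (γ' t) (γ' t), γ' t⟫_ℝ = 0 := by
        rw [hQ]
        simp only
        rw [gQ_apply, inner_neg_left, gB_orth _ (c1 t ht), neg_zero]
      rw [real_inner_comm (Q (γ t) (γ' t) (γ' t)) (γ' t), h3, add_zero] at h2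
      exact h2
    have h2 := const_of_deriv hτ0.le h1 t ht
    simp only [real_inner_self_eq_norm_sq, hγ'0] at h2
    exact (sq_eq_sq₀ (norm_nonneg _) (norm_nonneg _)).1 h2

/-- The specification J5 holds. -/
theorem J5 : Pool.Agent.H75.AX.Spec.J5 := by
  intro E E' _ _ _ _ _ _ Φ M n hΦ hM hcomp hconn hsurj hfr
  have : CompleteSpace E := FiniteDimensional.complete ℝ E
  have : CompleteSpace E' := FiniteDimensional.complete ℝ E'
  obtain ⟨A, hA⟩ : ∃ A, A = fderiv ℝ Φ := ⟨_, rfl⟩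
  obtain ⟨D, hD⟩ : ∃ D, D = fderiv ℝ A := ⟨_, rfl⟩
  have hA2 : ContDiff ℝ 2 A := by rw [hA]; exact hΦ.fderiv_right (m := 2) (by norm_num)
  have hD1 : ContDiff ℝ 1 D := by rw [hD]; exact hA2.fderiv_right (m := 1) (by norm_num)
  have hΦd : ∀ x, HasFDerivAt Φ (A x) x := fun x => by
    rw [hA]
    exact (hΦ.differentiable (by norm_num) x).hasFDerivAt
  rw [← hA] at hsurj
  -- the open set of regular points
  have hopen : IsOpen {x | IsUnit (gG (A x))} := by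
    have hc : Continuous (fun x => gG (A x)) := by
      have h1 : Continuous (fun x => ContinuousLinearMap.adjoint (A x)) :=
        (ContinuousLinearMap.adjoint (𝕜 := ℝ) (E := E) (F := E')).continuous.comp hA2.continuous
      exact hA2.continuous.clm_comp h1
    exact Units.isOpen.preimage hc
  have hsub : M ⊆ {x | IsUnit (gG (A x))} := fun x hx => gG_unit (hsurj x hx)
  obtain ⟨δ, hδ, hδM⟩ := hcomp.exists_cthickening_subset_open hopen hsub
  have hKc : IsCompact (Metric.cthickening δ M) := hcomp.cthickening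
  have hMK : M ⊆ Metric.cthickening δ M := Metric.self_subset_cthickening M
  obtain ⟨C1, hC1, hP1, _⟩ := lip_compact hKc (f := fun x => gP (A x)) fun x hx =>
    gP_smooth (hA2.contDiffAt.of_le (by norm_num)) (hδM hx)
  obtain ⟨C2, hC2, hQ1, hQ2⟩ := lip_compact hKc (f := fun x => gQ (A x) (D x)) fun x hx =>
    gQ_smooth (hA2.contDiffAt.of_le (by norm_num)) hD1.contDiffAt (hδM hx)
  obtain ⟨C3, hC3, _, hB⟩ := lip_compact hKc (f := fun x => gB (A x)) fun x hx =>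
    gB_smooth (hA2.contDiffAt.of_le (by norm_num)) (hδM hx)
  obtain ⟨R, hR⟩ := hcomp.isBounded.subset_closedBall (0 : E)
  obtain ⟨C4, hC4, hA4, _⟩ := lip_compact (isCompact_closedBall (0 : E) R) (f := A) fun x hx =>
    hA2.contDiffAt.of_le (by norm_num)
  have hchord : ∀ x ∈ M, ∀ y ∈ M, ‖A x (y - x)‖ ≤ C4 * ‖y - x‖ ^ 2 := by
    intro x hx y hy
    have hseg : segment ℝ x y ⊆ Metric.closedBall (0 : E) R :=
      (convex_closedBall (0 : E) R).segment_subset (hR hx) (hR hy)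
    have h1 : ∀ z ∈ segment ℝ x y, ‖A z - A x‖ ≤ C4 * ‖y - x‖ := by
      intro z hz
      refine (hA4 z (hseg hz) x (hR hx)).trans ?_
      gcongr
      obtain ⟨s, t, hs, ht, hst, rfl⟩ := hz
      have e : s • x + t • y - x = t • (y - x) := by
        have : s = 1 - t := by linarith
        rw [this]; module
      rw [e, norm_smul, Real.norm_eq_abs, abs_of_nonneg ht]
      have : t ≤ 1 := by linarith
      have := mul_le_mul_of_nonneg_right this (norm_nonneg (y - x))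
      linarith
    have h2 := Convex.norm_image_sub_le_of_norm_hasFDerivWithin_le' (φ := A x)
      (fun z _ => (hΦd z).hasFDerivWithinAt) h1 (convex_segment x y) (left_mem_segment ℝ x y)
      (right_mem_segment ℝ x y)
    have hx0 : Φ x = 0 := by rw [hM] at hx; exact hx
    have hy0 : Φ y = 0 := by rw [hM] at hy; exact hy
    rw [hx0, hy0, sub_self, zero_sub, norm_neg] at h2
    rw [sq, ← mul_assoc]
    exact h2
  obtain ⟨τ, hτ0, hτ⟩ := flow hΦ hM hδ hC2 (fun x hx => by rw [← hA]; exact hδM hx)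
    (fun x hx y hy => by rw [← hA, ← hD]; exact hQ1 x hx y hy)
    (fun x hx => by rw [← hA, ← hD]; exact hQ2 x hx)
  rw [← hA, ← hD] at hτ
  refine ⟨fun x => gP (A x), fun x => gQ (A x) (D x), C1 + C2 + C3 * C4, τ, ?_⟩
  have hC34 : 0 < C3 * C4 := by positivity
  refine ⟨hcomp, hconn, by positivity, hτ0, fun x hx v => gP_idem (hsub hx) v,
    fun x hx v w => gP_symm (hsub hx) v w, fun x hx => gP_rank (hsub hx) hfr, ?_, ?_, ?_, ?_, ?_, ?_⟩
  · intro x hx y hy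
    refine (hP1 x (hMK hx) y (hMK hy)).trans ?_
    gcongr
    linarith
  · intro x hx y hy
    have e : y - x - gP (A x) (y - x) = gB (A x) (A x (y - x)) := by rw [gP_apply]; abel
    rw [e]
    refine ((gB (A x)).le_opNorm _).trans ?_
    have h1 := hB x (hMK hx)
    have h2 := hchord x hx y hy
    calc ‖gB (A x)‖ * ‖A x (y - x)‖ ≤ C3 * (C4 * ‖y - x‖ ^ 2) := by gcongr
      _ = (C3 * C4) * ‖y - x‖ ^ 2 := by ring
      _ ≤ _ := by gcongr; linarith
  · intro x hx v w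
    rw [gQ_apply, map_neg, gP_gB (hsub hx), neg_zero]
  · intro x hx y hy
    refine (hQ1 x (hMK hx) y (hMK hy)).trans ?_
    gcongr
    linarith
  · intro x hx
    refine (hQ2 x (hMK hx)).trans ?_
    linarith
  · intro x hx v hv hvτ
    have hAv : A x v = 0 := (gP_eq_iff (hsub hx) v).1 hv
    obtain ⟨γ, γ', g1, g2, g3⟩ := hτ x hx (τ⁻¹ • v) (by rw [map_smul, hAv, smul_zero]) (by
      rw [norm_smul, Real.norm_eq_abs, abs_of_pos (by positivity)]
      rw [inv_mul_le_iff₀ hτ0]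
      linarith)
    have hm : ∀ t ∈ Set.Icc (0 : ℝ) 1, τ * t ∈ Set.Icc 0 τ := fun t ht =>
      ⟨mul_nonneg hτ0.le ht.1, by have := mul_le_mul_of_nonneg_left ht.2 hτ0.le; linarith⟩
    have hsc : ∀ t, HasDerivWithinAt (fun t : ℝ => τ * t) τ (Set.Icc 0 1) t := by
      intro t
      simpa using (hasDerivWithinAt_id t (Set.Icc (0 : ℝ) 1)).const_mul τ
    refine ⟨fun t => γ (τ * t), fun t => τ • γ' (τ * t), by simp [g1], ?_, fun t ht => ?_⟩
    · simp only [mul_zero, g2, smul_smul]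
      rw [mul_inv_cancel₀ hτ0.ne', one_smul]
    obtain ⟨k1, k2, k3, k4, k5⟩ := g3 _ (hm t ht)
    refine ⟨k1, k2.scomp t (hsc t) (fun t ht => hm t ht), ?_, ?_, ?_⟩
    · have h1 := (k3.scomp t (hsc t) (fun t ht => hm t ht)).const_smul τ
      have e : gQ (A (γ (τ * t))) (D (γ (τ * t))) (τ • γ' (τ * t)) (τ • γ' (τ * t)) =
          τ • τ • gQ (A (γ (τ * t))) (D (γ (τ * t))) (γ' (τ * t)) (γ' (τ * t)) := by
        rw [map_smul, map_smul]
        rfl
      rw [e]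
      exact h1
    · rw [gP_eq_iff (hsub k1), map_smul, k4, smul_zero]
    · rw [norm_smul, k5, norm_smul, Real.norm_eq_abs, Real.norm_eq_abs, abs_of_pos hτ0,
        abs_of_pos (by positivity), ← mul_assoc, mul_inv_cancel₀ hτ0.ne', one_mul]

end Pool.Agent.H82.AX
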