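import Pool.Agent.H82.AX.Loc

/-!
# J6: the quotient of a closed submanifold by a finite group of isometries
-/

set_option autoImplicit false

open scoped Topology InnerProductSpace

namespace Pool.Agent.H82.AX

open Pool.Agent.H75.AX.Spec Pool.Agent.H75.AX

/-- The specification J6 holds. -/
theorem J6 : Pool.Agent.H75.AX.Spec.J6 := by
  intro E _ _ _ M Pi Q C₀ r h₀ H _ _ ρ hρ
  have : CompleteSpace E := FiniteDimensional.complete ℝ E
  have h := Geom.mono h₀ (le_max_left C₀ 1)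
  have hC1 : 1 ≤ max C₀ 1 := le_max_right _ _
  have hM := pconn h hC1
  have aux : ∀ (X : Type) [MetricSpace X] (π : M → X)
      (_ : ∀ x y : M, dist (π x) (π y) = DX ρ M x y) (_ : Function.Surjective π),
      Continuous π ∧ Function.Surjective π ∧
      (∀ x y : M, π x = π y ↔ ∃ h : H, ρ h x = y) ∧
      CompactSpace X ∧ ConnectedSpace X ∧ IsLengthSpace X ∧ CurvatureBoundedBelow X ∧
      ((∃ x ∈ M, ∀ h, ρ h x = x → h = 1) → dimH (Set.univ : Set X) = 3) ∧
      (∀ x : M, (∀ h, ρ h x = x → h = 1) →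
        ∃ U : Set X, IsOpen U ∧ π x ∈ U ∧ Nonempty (U ≃ₜ EuclideanSpace ℝ (Fin 3))) ∧
      (∀ x : M, ∀ h₀ : H, h₀ ≠ 1 → (∀ h, ρ h x = x ↔ h = 1 ∨ h = h₀) →
        (∀ v, Pi x v = v → ρ h₀ v = -v) →
        ∃ U : Set X, IsOpen U ∧ π x ∈ U ∧ Nonempty (U ≃ₜ ConeRP)) := by
    intro X _ π hd hs
    refine ⟨pi_cont h hC1 hd, hs, ?_, X_compact h hC1 hd hs, X_conn h hC1 hd hs,
      X_length h hC1 hρ hd hs, X_curv h hC1 hρ hd hs, ?_, ?_, ?_⟩
    · intro x y
      constructor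
      · intro hxy
        have h1 : dist (π x) (π y) = 0 := by rw [hxy, dist_self]
        rw [hd] at h1
        exact DX_eq_zero hρ hM x.2 y.2 h1
      · rintro ⟨g, hg⟩
        refine dist_eq_zero.1 ?_
        rw [hd, ← hg, DX_right]
        exact le_antisymm ((DX_le_dM _ _).trans (dM_self x.2).le) (DX_nonneg _ _)
    · rintro ⟨x, hx, hfree⟩
      exact dimH_eq h hC1 hρ hd hs rfl ⟨x, hx⟩ hfree
    · intro x hfree
      exact chart_free h hC1 hρ hd hs rfl x hfree
    · intro x g0 _ hstab hneg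
      exact chart_cone h hC1 hρ hd hs rfl x g0 hstab hneg
  exact ⟨Quotient (orb ρ M), qMet hρ hM, Quotient.mk _,
    @aux _ (qMet hρ hM) _ (qMet_dist hρ hM) Quotient.exists_rep⟩

end Pool.Agent.H82.AX
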