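import Mathlib

/-!
# Second-order data of a regular level set
-/

set_option autoImplicit false

open scoped Topology InnerProductSpace
open ContinuousLinearMap (adjoint)

namespace Pool.Agent.H82.AX

variable {E E' : Type} [NormedAddCommGroup E] [InnerProductSpace ℝ E] [FiniteDimensional ℝ E]
  [NormedAddCommGroup E'] [InnerProductSpace ℝ E'] [FiniteDimensional ℝ E']

noncomputable section

theorem adj_bdd [CompleteSpace E] [CompleteSpace E'] :
    IsBoundedLinearMap ℝ (fun A : E →L[ℝ] E' => adjoint A) where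
  map_add := fun A B => map_add _ A B
  map_smul := fun c A => by
    change adjoint (c • A) = c • adjoint A
    rw [map_smulₛₗ]
    rfl
  bound := ⟨1, one_pos, fun A => by
    rw [one_mul, LinearIsometryEquiv.norm_map]⟩

variable [CompleteSpace E] [CompleteSpace E']

/-- `A A*` -/
def gG (A : E →L[ℝ] E') : E' →L[ℝ] E' := A ∘L adjoint A

/-- the minimal right inverse `A* (A A*)⁻¹` -/
def gB (A : E →L[ℝ] E') : E' →L[ℝ] E := adjoint A ∘L Ring.inverse (gG A)

/-- the orthogonal projection on `ker A` -/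
def gP (A : E →L[ℝ] E') : E →L[ℝ] E := ContinuousLinearMap.id ℝ E - gB A ∘L A

/-- the second-order term -/
def gQ (A : E →L[ℝ] E') (D : E →L[ℝ] E →L[ℝ] E') : E →L[ℝ] E →L[ℝ] E :=
  (ContinuousLinearMap.compL ℝ E E' E (-(gB A))) ∘L D

theorem gQ_apply (A : E →L[ℝ] E') (D : E →L[ℝ] E →L[ℝ] E') (v w : E) :
    gQ A D v w = -(gB A (D v w)) := rfl

theorem gG_unit {A : E →L[ℝ] E'} (hA : Function.Surjective A) : IsUnit (gG A) := by
  rw [ContinuousLinearMap.isUnit_iff_bijective]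
  have hinj : Function.Injective (gG A) := by
    rw [injective_iff_map_eq_zero]
    intro a ha
    have h1 : ⟪A (adjoint A a), a⟫_ℝ = 0 := by
      have : A (adjoint A a) = 0 := ha
      rw [this, inner_zero_left]
    rw [real_inner_comm, ← ContinuousLinearMap.adjoint_inner_left, inner_self_eq_zero] at h1
    obtain ⟨v, hv⟩ := hA a
    have h2 : ⟪a, a⟫_ℝ = 0 := by
      nth_rewrite 2 [← hv]
      rw [← ContinuousLinearMap.adjoint_inner_left, h1, inner_zero_left]
    exact inner_self_eq_zero.1 h2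
  exact ⟨hinj, (LinearMap.injective_iff_surjective (f := (gG A : E' →ₗ[ℝ] E'))).1 hinj⟩

theorem A_gB {A : E →L[ℝ] E'} (hA : IsUnit (gG A)) (b : E') : A (gB A b) = b := by
  have h1 : gG A * Ring.inverse (gG A) = 1 := Ring.mul_inverse_cancel _ hA
  have h2 : (gG A * Ring.inverse (gG A)) b = b := by rw [h1]; rfl
  exact h2

theorem gB_orth {A : E →L[ℝ] E'} (b : E') {w : E} (hw : A w = 0) : ⟪gB A b, w⟫_ℝ = 0 := by
  change ⟪adjoint A (Ring.inverse (gG A) b), w⟫_ℝ = 0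
  rw [ContinuousLinearMap.adjoint_inner_left, hw, inner_zero_right]

theorem gP_apply (A : E →L[ℝ] E') (v : E) : gP A v = v - gB A (A v) := rfl

theorem A_gP {A : E →L[ℝ] E'} (hA : IsUnit (gG A)) (v : E) : A (gP A v) = 0 := by
  rw [gP_apply, map_sub, A_gB hA, sub_self]

theorem gP_eq_iff {A : E →L[ℝ] E'} (hA : IsUnit (gG A)) (v : E) : gP A v = v ↔ A v = 0 := by
  constructor
  · intro h
    rw [← h, A_gP hA]
  · intro h
    rw [gP_apply, h, map_zero, sub_zero]

theorem gP_idem {A : E →L[ℝ] E'} (hA : IsUnit (gG A)) (v : E) : gP A (gP A v) = gP A v :=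
  (gP_eq_iff hA _).2 (A_gP hA v)

theorem gP_symm {A : E →L[ℝ] E'} (hA : IsUnit (gG A)) (v w : E) :
    ⟪gP A v, w⟫_ℝ = ⟪v, gP A w⟫_ℝ := by
  have h1 : ⟪gB A (A v), gP A w⟫_ℝ = 0 := gB_orth _ (A_gP hA w)
  have h2 : ⟪gB A (A w), gP A v⟫_ℝ = 0 := gB_orth _ (A_gP hA v)
  have e1 : v = gP A v + gB A (A v) := by rw [gP_apply]; abel
  have e2 : w = gP A w + gB A (A w) := by rw [gP_apply]; abel
  have k1 : ⟪gP A v, w⟫_ℝ = ⟪gP A v, gP A w⟫_ℝ := by
    conv_lhs => rw [e2]
    rw [inner_add_right, real_inner_comm (gB A (A w)), h2, add_zero]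
  have k2 : ⟪v, gP A w⟫_ℝ = ⟪gP A v, gP A w⟫_ℝ := by
    conv_lhs => rw [e1]
    rw [inner_add_left, h1, add_zero]
  rw [k1, k2]

theorem gP_gB {A : E →L[ℝ] E'} (hA : IsUnit (gG A)) (b : E') : gP A (gB A b) = 0 := by
  rw [gP_apply, A_gB hA, sub_self]

theorem gP_rank {A : E →L[ℝ] E'} (hA : IsUnit (gG A)) {n : ℕ}
    (hn : Module.finrank ℝ E = n + Module.finrank ℝ E') :
    Module.finrank ℝ (LinearMap.range (gP A : E →ₗ[ℝ] E)) = n := by
  have h1 : LinearMap.range (gP A : E →ₗ[ℝ] E) = LinearMap.ker (A : E →ₗ[ℝ] E') := by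
    ext v
    constructor
    · rintro ⟨w, rfl⟩
      exact A_gP hA w
    · intro hv
      exact ⟨v, (gP_eq_iff hA v).2 hv⟩
  have h2 : LinearMap.range (A : E →ₗ[ℝ] E') = ⊤ :=
    LinearMap.range_eq_top.2 fun b => ⟨gB A b, A_gB hA b⟩
  have h3 := LinearMap.finrank_range_add_finrank_ker (A : E →ₗ[ℝ] E')
  rw [h2, finrank_top] at h3
  rw [h1]
  omega

theorem gB_smooth {F : Type} [NormedAddCommGroup F] [NormedSpace ℝ F] {A : F → E →L[ℝ] E'} {x : F}
    (hA : ContDiffAt ℝ 1 A x) (hu : IsUnit (gG (A x))) : ContDiffAt ℝ 1 (fun y => gB (A y)) x := by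
  have h1 : ContDiffAt ℝ 1 (fun y => adjoint (A y)) x := by
    have := (adj_bdd (E := E) (E' := E')).contDiff.contDiffAt (n := 1) (x := A x)
    exact this.comp x hA
  have h2 : ContDiffAt ℝ 1 (fun y => gG (A y)) x := hA.clm_comp h1
  obtain ⟨u, hu⟩ := hu
  have h3 : ContDiffAt ℝ 1 (fun y => Ring.inverse (gG (A y))) x := by
    have h4 : ContDiffAt ℝ 1 (Ring.inverse : (E' →L[ℝ] E') → _) (gG (A x)) := by
      rw [← hu]
      exact contDiffAt_ringInverse ℝ u
    exact h4.comp x h2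
  exact h1.clm_comp h3

theorem gP_smooth {F : Type} [NormedAddCommGroup F] [NormedSpace ℝ F] {A : F → E →L[ℝ] E'} {x : F}
    (hA : ContDiffAt ℝ 1 A x) (hu : IsUnit (gG (A x))) : ContDiffAt ℝ 1 (fun y => gP (A y)) x :=
  contDiffAt_const.sub ((gB_smooth hA hu).clm_comp hA)

theorem gQ_smooth {F : Type} [NormedAddCommGroup F] [NormedSpace ℝ F] {A : F → E →L[ℝ] E'}
    {D : F → E →L[ℝ] E →L[ℝ] E'} {x : F}
    (hA : ContDiffAt ℝ 1 A x) (hD : ContDiffAt ℝ 1 D x) (hu : IsUnit (gG (A x))) :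
    ContDiffAt ℝ 1 (fun y => gQ (A y) (D y)) x := by
  have h1 : ContDiffAt ℝ 1
      (fun y => ContinuousLinearMap.compL ℝ E E' E (-(gB (A y)))) x := by
    have hc : ContDiff ℝ 1 (ContinuousLinearMap.compL ℝ E E' E) := ContinuousLinearMap.contDiff _
    exact hc.contDiffAt.comp x (gB_smooth hA hu).neg
  exact h1.clm_comp hD

/-- Lipschitz and bounded on compact sets. -/
theorem lip_compact {F G : Type} [NormedAddCommGroup F] [NormedSpace ℝ F] [NormedAddCommGroup G]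
    [NormedSpace ℝ G] {K : Set F} (hK : IsCompact K) {f : F → G}
    (hf : ∀ x ∈ K, ContDiffAt ℝ 1 f x) :
    ∃ C : ℝ, 0 < C ∧ (∀ x ∈ K, ∀ y ∈ K, ‖f x - f y‖ ≤ C * ‖x - y‖) ∧ ∀ x ∈ K, ‖f x‖ ≤ C := by
  have h1 : LocallyLipschitzOn K f := by
    intro x hx
    obtain ⟨L, t, ht, hL⟩ := (hf x hx).exists_lipschitzOnWith
    exact ⟨L, t, mem_nhdsWithin_of_mem_nhds ht, hL⟩
  obtain ⟨L, hL⟩ := h1.exists_lipschitzOnWith_of_compact hK
  obtain ⟨C, hC⟩ := hK.exists_bound_of_continuousOn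
    (fun x hx => (hf x hx).continuousAt.continuousWithinAt)
  refine ⟨max (max L C) 1, lt_max_of_lt_right one_pos, fun x hx y hy => ?_, fun x hx =>
    (hC x hx).trans ((le_max_right _ _).trans (le_max_left _ _))⟩
  have := hL.dist_le_mul x hx y hy
  rw [dist_eq_norm, dist_eq_norm] at this
  refine this.trans ?_
  gcongr
  exact (le_max_left _ _).trans (le_max_left _ _)

end

end Pool.Agent.H82.AX
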