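import Pool.Agent.H82.AX.Fin

/-!
# Local structure of the quotient
-/

set_option autoImplicit false

open scoped Topology InnerProductSpace
open Real (sinh cosh)

namespace Pool.Agent.H82.AX

open Pool.Agent.H75.AX.Spec Pool.Agent.H75.AX

/-- An odd open injective continuous map of `ℝ³` into a small ball. -/
theorem exists_sigma {T : Type} [NormedAddCommGroup T] [InnerProductSpace ℝ T]
    [FiniteDimensional ℝ T] (hT : Module.finrank ℝ T = 3) {δ : ℝ} (hδ : 0 < δ) :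
    ∃ σ : EuclideanSpace ℝ (Fin 3) → T, Continuous σ ∧ Function.Injective σ ∧ IsOpenMap σ ∧
      (∀ a, ‖σ a‖ < δ) ∧ σ 0 = 0 ∧ ∀ a, σ (-a) = -σ a := by
  have hfr : Module.finrank ℝ (EuclideanSpace ℝ (Fin 3)) = Module.finrank ℝ T := by
    rw [hT, finrank_euclideanSpace_fin]
  obtain ⟨L⟩ : Nonempty (EuclideanSpace ℝ (Fin 3) ≃L[ℝ] T) :=
    ⟨ContinuousLinearEquiv.ofFinrankEq hfr⟩
  obtain ⟨U, hU⟩ : ∃ U : OpenPartialHomeomorph T T, U = OpenPartialHomeomorph.univUnitBall :=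
    ⟨_, rfl⟩
  have hUs : U.source = Set.univ := by rw [hU]; rfl
  have hUapp : ∀ a, U a = (√(1 + ‖a‖ ^ 2))⁻¹ • a := by rw [hU]; intro a; rfl
  have hUn : ∀ a, ‖U a‖ < 1 := by
    intro a
    have h1 : U a ∈ U.target := U.map_source (by rw [hUs]; trivial)
    rw [hU] at h1
    have h2 : (OpenPartialHomeomorph.univUnitBall : OpenPartialHomeomorph T T).target =
      Metric.ball 0 1 := rfl
    rw [h2, mem_ball_zero_iff] at h1
    rw [hU]
    exact h1
  have hUc : Continuous U := by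
    rw [← continuousOn_univ, ← hUs]
    exact U.continuousOn
  have hUi : Function.Injective U := by
    intro a b hab
    exact U.injOn (by rw [hUs]; trivial) (by rw [hUs]; trivial) hab
  have hUo : IsOpenMap U := by
    intro s hs
    exact U.isOpen_image_of_subset_source hs (by rw [hUs]; exact Set.subset_univ _)
  refine ⟨fun a => δ • U (L a), ?_, ?_, ?_, ?_, ?_, ?_⟩
  · exact (hUc.comp L.continuous).const_smul δ
  · intro a b hab
    exact L.injective (hUi (smul_right_injective T hδ.ne' hab))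
  · exact (isOpenMap_smul₀ hδ.ne').comp (hUo.comp L.toHomeomorph.isOpenMap)
  · intro a
    rw [norm_smul, Real.norm_eq_abs, abs_of_pos hδ]
    have := hUn (L a)
    nlinarith
  · simp [hUapp]
  · intro a
    simp [hUapp]

variable {E : Type} [NormedAddCommGroup E] [InnerProductSpace ℝ E]

variable {M : Set E} {n : ℕ} {Pi : E → E →L[ℝ] E} {Q : E → E →L[ℝ] E →L[ℝ] E} {C r : ℝ}
variable (h : Geom M n Pi Q C r) (hC1 : 1 ≤ C)
variable {H : Type} [Group H] [Finite H] {ρ : H →* (E ≃ₗᵢ[ℝ] E)}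
  (hρ : ∀ h, ∀ x ∈ M, ρ h x ∈ M)
variable {X : Type} [MetricSpace X] {π : M → X} (hd : ∀ x y : M, dist (π x) (π y) = DX ρ M x y)
  (hs : Function.Surjective π)

/-- gap between a point and its other translates -/
theorem exists_gap (ρ : H →* (E ≃ₗᵢ[ℝ] E)) (x : E) :
    ∃ δ : ℝ, 0 < δ ∧ ∀ g : H, ρ g x ≠ x → 6 * δ ≤ ‖ρ g x - x‖ := by
  classical
  obtain ⟨g0, hg0⟩ := Finite.exists_min (fun g : H => if ρ g x = x then 1 else ‖ρ g x - x‖)
  obtain ⟨m, hm⟩ : ∃ m, m = (if ρ g0 x = x then 1 else ‖ρ g0 x - x‖) := ⟨_, rfl⟩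
  have hm0 : 0 < m := by
    rw [hm]
    split_ifs with h1
    · exact one_pos
    · exact norm_pos_iff.2 (sub_ne_zero.2 h1)
  refine ⟨m / 6, by positivity, fun g hg => ?_⟩
  have h1 := hg0 g
  simp only [← hm, if_neg hg] at h1
  linarith

/-- The chart of the quotient at `x`. -/
structure CF (Pi : E → E →L[ℝ] E) (M : Set E) (ρ : H →* (E ≃ₗᵢ[ℝ] E)) (π : M → X) (x : M)
    (R : ℝ) (ψ : TS Pi x → E) (F : TS Pi x → X) : Prop where
  mem : ∀ u : TS Pi x, ‖u‖ ≤ R → ψ u ∈ M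
  co : ∀ u : TS Pi x, ‖u‖ ≤ R → Pi x (ψ u - x) = u
  near : ∀ u : TS Pi x, ‖u‖ ≤ R → ‖ψ u - x‖ ≤ 2 * ‖u‖
  lip : ∀ u u' : TS Pi x, ‖u‖ ≤ R → ‖u'‖ ≤ R → dM M (ψ u) (ψ u') ≤ 4 * ‖u' - u‖
  inv : ∀ q ∈ M, ‖q - x‖ ≤ R → ∀ u : TS Pi x, (u : E) = Pi x (q - x) → ψ u = q
  F_eq : ∀ u : TS Pi x, ∀ hu : ψ u ∈ M, F u = π ⟨ψ u, hu⟩

omit [Finite H] [MetricSpace X] in
include h hC1 in
theorem exists_CF [CompleteSpace E] (ρ : H →* (E ≃ₗᵢ[ℝ] E)) (π : M → X) (x : M) :
    ∃ ψ F, CF Pi M ρ π x (rad C r / 2) ψ F := by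
  classical
  obtain ⟨ψ, h1, h2, h3⟩ := exists_chart h hC1 x.2
  exact ⟨ψ, fun u => if hu : ψ u ∈ M then π ⟨ψ u, hu⟩ else π x, fun u hu => (h1 u hu).1,
    fun u hu => (h1 u hu).2.1, fun u hu => (h1 u hu).2.2, h2, h3, fun u hu => dif_pos hu⟩

variable {x : M} {R : ℝ} {ψ : TS Pi x → E} {F : TS Pi x → X} (cf : CF Pi M ρ π x R ψ F)

omit [Finite H] in
include hd cf in
theorem CF.F_lip : LipschitzOnWith 4 F (Metric.closedBall 0 R) := by
  refine LipschitzOnWith.of_dist_le_mul fun u hu u' hu' => ?_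
  rw [mem_closedBall_zero_iff] at hu hu'
  rw [cf.F_eq u (cf.mem u hu), cf.F_eq u' (cf.mem u' hu'), hd, dist_comm u u', dist_eq_norm]
  exact (DX_le_dM _ _).trans (cf.lip u u' hu hu')

include h hρ hd hs cf in
/-- `F` is open on small balls. -/
theorem CF.F_open [CompleteSpace E] (hC1 : 1 ≤ C) (hR0 : 0 < R) {V : Set (TS Pi x)}
    (hV : IsOpen V) (hVR : ∀ u ∈ V, ‖u‖ < R / 4) :
    IsOpen (F '' V) := by
  rw [Metric.isOpen_iff]
  rintro _ ⟨u0, hu0, rfl⟩
  obtain ⟨ε, hε, hεV⟩ := Metric.isOpen_iff.1 hV u0 hu0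
  refine ⟨min ε (R / 2), lt_min hε (by positivity), ?_⟩
  intro p hp
  rw [Metric.mem_ball, dist_comm] at hp
  have hu0R : ‖u0‖ ≤ R := by have := hVR u0 hu0; linarith
  obtain ⟨q0, rfl⟩ := hs p
  rw [cf.F_eq u0 (cf.mem u0 hu0R), hd] at hp
  obtain ⟨g, hg⟩ := exists_DX (M := M) (ρ := ρ) (ψ u0) q0
  have hq := hρ g q0 q0.2
  have h1 := norm_le_dM (pconn h hC1) (cf.mem u0 hu0R) hq
  rw [hg] at h1
  have h2 : ‖ρ g q0 - ψ u0‖ < ε := by
    have := hp.trans_le (min_le_left _ _)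
    exact h1.trans_lt this
  have h3 : ‖ρ g q0 - ψ u0‖ < R / 2 := by
    have := hp.trans_le (min_le_right _ _)
    exact h1.trans_lt this
  have h4 := cf.near u0 hu0R
  have h5 : ‖ρ g q0 - x‖ ≤ R := by
    have e : ρ g q0 - (x : E) = (ρ g q0 - ψ u0) + (ψ u0 - x) := by abel
    rw [e]
    have := norm_add_le (ρ g q0 - ψ u0) (ψ u0 - (x : E))
    have := hVR u0 hu0
    linarith
  obtain ⟨u, hu⟩ : ∃ u : TS Pi x, (u : E) = Pi x (ρ g q0 - x) :=
    ⟨⟨Pi x (ρ g q0 - x), (mem_TS h x.2).2 (h.idem x x.2 _)⟩, rfl⟩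
  have h6 := cf.inv _ hq h5 u hu
  refine ⟨u, hεV ?_, ?_⟩
  · rw [Metric.mem_ball, dist_eq_norm]
    have e : ‖u - u0‖ = ‖(u : E) - u0‖ := rfl
    rw [e, hu, ← cf.co u0 hu0R, ← map_sub]
    refine (norm_Pi_le h x.2 _).trans_lt ?_
    have e : ρ g q0 - (x : E) - (ψ u0 - x) = ρ g q0 - ψ u0 := by abel
    rw [e]
    exact h2
  · rw [cf.F_eq u (by rw [h6]; exact hq)]
    refine dist_eq_zero.1 ?_
    rw [hd]
    simp only [h6]
    refine le_antisymm ?_ (DX_nonneg _ _)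
    rw [DX_left hρ]
    exact (DX_le_dM _ _).trans (dM_self q0.2).le

omit [Finite H] [MetricSpace X] in
include cf in
theorem CF.psi_zero (hR0 : 0 < R) : ψ 0 = x :=
  cf.inv x x.2 (by rw [sub_self, norm_zero]; exact hR0.le) 0 (by simp)

omit [Finite H] [MetricSpace X] in
include cf in
theorem CF.F_zero (hR0 : 0 < R) : F 0 = π x := by
  have h1 := cf.psi_zero hR0
  rw [cf.F_eq 0 (by rw [h1]; exact x.2)]
  congr 1
  exact Subtype.ext h1

include h hρ hd cf in
/-- When two points of the chart are identified, it is by the stabilizer. -/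
theorem CF.F_eq_F [CompleteSpace E] (hC1 : 1 ≤ C) {δ : ℝ} (hδR : δ ≤ R)
    (hgap : ∀ g : H, ρ g x ≠ x → 6 * δ ≤ ‖ρ g x - x‖) {u u' : TS Pi x} (hu : ‖u‖ < δ)
    (hu' : ‖u'‖ < δ) (he : F u = F u') : ∃ g : H, ρ g x = x ∧ ρ g (ψ u) = ψ u' := by
  have hm := cf.mem u (hu.le.trans hδR)
  have hm' := cf.mem u' (hu'.le.trans hδR)
  have h1 : dist (F u) (F u') = 0 := by rw [he, dist_self]
  rw [cf.F_eq u hm, cf.F_eq u' hm', hd] at h1
  obtain ⟨g, hg⟩ := DX_eq_zero hρ (pconn h hC1) hm hm' h1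
  refine ⟨g, ?_, hg⟩
  by_contra hne
  have h2 := hgap g hne
  have h3 := cf.near u (hu.le.trans hδR)
  have h4 := cf.near u' (hu'.le.trans hδR)
  have h5 : ‖ρ g x - x‖ ≤ ‖ρ g x - ρ g (ψ u)‖ + ‖ψ u' - x‖ := by
    have e : ρ g x - (x : E) = (ρ g x - ρ g (ψ u)) + (ψ u' - x) := by rw [hg]; abel
    rw [e]
    exact norm_add_le _ _
  rw [rho_iso, norm_sub_rev (x : E) (ψ u)] at h5
  have := norm_nonneg u
  linarith

include h hρ hd cf in
/-- At a free point, the chart is antilipschitz. -/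
theorem CF.F_anti [CompleteSpace E] (hC1 : 1 ≤ C) {δ : ℝ} (hδR : δ ≤ R)
    (hgap : ∀ g : H, g ≠ 1 → 6 * δ ≤ ‖ρ g x - x‖) {u u' : TS Pi x} (hu : ‖u‖ ≤ δ)
    (hu' : ‖u'‖ ≤ δ) : ‖u - u'‖ ≤ dist (F u) (F u') := by
  have hm := cf.mem u (hu.trans hδR)
  have hm' := cf.mem u' (hu'.trans hδR)
  rw [cf.F_eq u hm, cf.F_eq u' hm', hd]
  obtain ⟨g, hg⟩ := exists_DX (M := M) (ρ := ρ) (ψ u) (ψ u')
  rw [← hg]
  have h0 := norm_le_dM (pconn h hC1) hm (hρ g _ hm')
  refine le_trans ?_ h0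
  have hnu : ‖u - u'‖ ≤ ‖u‖ + ‖u'‖ := norm_sub_le _ _
  rcases eq_or_ne g 1 with rfl | hne
  · rw [rho_one]
    have e : ‖u - u'‖ = ‖(u : E) - u'‖ := rfl
    rw [e, ← cf.co u (hu.trans hδR), ← cf.co u' (hu'.trans hδR), ← map_sub]
    refine (norm_Pi_le h x.2 _).trans (le_of_eq ?_)
    rw [norm_sub_rev]
    congr 1
    abel
  · have h2 := hgap g hne
    have h3 := cf.near u (hu.trans hδR)
    have h4 := cf.near u' (hu'.trans hδR)
    have h5 : ‖ρ g x - x‖ ≤ ‖ρ g x - ρ g (ψ u')‖ + (‖ρ g (ψ u') - ψ u‖ + ‖ψ u - x‖) := by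
      have e : ρ g x - (x : E) = (ρ g x - ρ g (ψ u')) + ((ρ g (ψ u') - ψ u) + (ψ u - x)) := by
        abel
      rw [e]
      exact (norm_add_le _ _).trans (add_le_add le_rfl (norm_add_le _ _))
    rw [rho_iso, norm_sub_rev (x : E)] at h5
    linarith

omit [Finite H] [MetricSpace X] in
theorem finite_dim_TS [FiniteDimensional ℝ E] (Pi : E → E →L[ℝ] E) (x : E) :
    FiniteDimensional ℝ (TS Pi x) := inferInstance

include h hC1 hρ hd hs in
theorem chart_free [FiniteDimensional ℝ E] (hn : n = 3) (x : M)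
    (hfree : ∀ g : H, ρ g x = x → g = 1) :
    ∃ U : Set X, IsOpen U ∧ π x ∈ U ∧ Nonempty (U ≃ₜ EuclideanSpace ℝ (Fin 3)) := by
  have : CompleteSpace E := FiniteDimensional.complete ℝ E
  have hr0 := rad_pos h
  obtain ⟨R, hR⟩ : ∃ R, R = rad C r / 2 := ⟨_, rfl⟩
  have hR0 : 0 < R := by rw [hR]; positivity
  obtain ⟨ψ, F, cf⟩ := exists_CF h hC1 ρ π x
  rw [← hR] at cf
  obtain ⟨δ, hδ0, hδ⟩ := exists_gap ρ (x : E)
  obtain ⟨η, hη⟩ : ∃ η, η = min δ (R / 4) := ⟨_, rfl⟩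
  have hη0 : 0 < η := by rw [hη]; exact lt_min hδ0 (by positivity)
  have hηδ : η ≤ δ := hη ▸ min_le_left _ _
  have hηR : η ≤ R / 4 := hη ▸ min_le_right _ _
  have hgap : ∀ g : H, ρ g x ≠ x → 6 * η ≤ ‖ρ g x - x‖ := fun g hg => by
    have := hδ g hg
    linarith
  obtain ⟨σ, s1, s2, s3, s4, s5, s6⟩ := exists_sigma (T := TS Pi x)
    ((h.rank x x.2).trans hn) hη0
  have hmem : ∀ a, σ a ∈ Metric.closedBall (0 : TS Pi x) R := fun a => by
    rw [mem_closedBall_zero_iff]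
    have := s4 a
    linarith
  have hcont : Continuous (fun a => F (σ a)) := by
    have := (cf.F_lip hd).continuousOn.comp (s := Set.univ) s1.continuousOn (fun a _ => hmem a)
    rwa [continuousOn_univ] at this
  have hopen : IsOpenMap (fun a => F (σ a)) := by
    intro V hV
    have := cf.F_open h hρ hd hs hC1 hR0 (s3 V hV) (by
      rintro _ ⟨a, _, rfl⟩
      exact (s4 a).trans_le hηR)
    rw [Set.image_image] at this
    exact this
  have hinj : Function.Injective (fun a => F (σ a)) := by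
    intro a b hab
    obtain ⟨g, g1, g2⟩ := cf.F_eq_F h hρ hd hC1 (by linarith) hgap (s4 a) (s4 b) hab
    rw [hfree g g1, rho_one] at g2
    refine s2 (Subtype.ext ?_)
    rw [← cf.co _ (mem_closedBall_zero_iff.1 (hmem a)),
      ← cf.co _ (mem_closedBall_zero_iff.1 (hmem b)), g2]
  have hemb := Topology.IsOpenEmbedding.of_continuous_injective_isOpenMap hcont hinj hopen
  refine ⟨Set.range (fun a => F (σ a)), hemb.isOpen_range, ⟨0, ?_⟩,
    ⟨hemb.toIsEmbedding.toHomeomorph.symm⟩⟩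
  simp only [s5]
  exact cf.F_zero hR0

include h hC1 hρ hd hs in
theorem chart_cone [FiniteDimensional ℝ E] (hn : n = 3) (x : M) (g0 : H)
    (hstab : ∀ g : H, ρ g x = x ↔ g = 1 ∨ g = g0) (hneg : ∀ v, Pi x v = v → ρ g0 v = -v) :
    ∃ U : Set X, IsOpen U ∧ π x ∈ U ∧ Nonempty (U ≃ₜ ConeRP) := by
  have : CompleteSpace E := FiniteDimensional.complete ℝ E
  have hr0 := rad_pos h
  obtain ⟨R, hR⟩ : ∃ R, R = rad C r / 2 := ⟨_, rfl⟩
  have hR0 : 0 < R := by rw [hR]; positivity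
  obtain ⟨ψ, F, cf⟩ := exists_CF h hC1 ρ π x
  rw [← hR] at cf
  obtain ⟨δ, hδ0, hδ⟩ := exists_gap ρ (x : E)
  obtain ⟨η, hη⟩ : ∃ η, η = min δ (R / 4) := ⟨_, rfl⟩
  have hη0 : 0 < η := by rw [hη]; exact lt_min hδ0 (by positivity)
  have hηδ : η ≤ δ := hη ▸ min_le_left _ _
  have hηR : η ≤ R / 4 := hη ▸ min_le_right _ _
  have hgap : ∀ g : H, ρ g x ≠ x → 6 * η ≤ ‖ρ g x - x‖ := fun g hg => by
    have := hδ g hg
    linarith
  obtain ⟨σ, s1, s2, s3, s4, s5, s6⟩ := exists_sigma (T := TS Pi x)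
    ((h.rank x x.2).trans hn) hη0
  have hmem' : ∀ a, ‖σ a‖ ≤ R := fun a => by
    have := s4 a
    linarith
  have hmem : ∀ a, σ a ∈ Metric.closedBall (0 : TS Pi x) R := fun a => by
    rw [mem_closedBall_zero_iff]
    exact hmem' a
  have hcont : Continuous (fun a => F (σ a)) := by
    have := (cf.F_lip hd).continuousOn.comp (s := Set.univ) s1.continuousOn (fun a _ => hmem a)
    rwa [continuousOn_univ] at this
  have hopen : IsOpenMap (fun a => F (σ a)) := by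
    intro V hV
    have := cf.F_open h hρ hd hs hC1 hR0 (s3 V hV) (by
      rintro _ ⟨a, _, rfl⟩
      exact (s4 a).trans_le hηR)
    rw [Set.image_image] at this
    exact this
  have hg0x : ρ g0 x = x := (hstab g0).2 (Or.inr rfl)
  have hflip : ∀ a, ρ g0 (ψ (σ a)) = ψ (-(σ a)) := by
    intro a
    have e1 : ρ g0 (ψ (σ a)) - (x : E) = ρ g0 (ψ (σ a) - x) := by rw [map_sub, hg0x]
    refine (cf.inv _ (hρ g0 _ (cf.mem _ (hmem' a))) ?_ _ ?_).symm
    · rw [e1, LinearIsometryEquiv.norm_map]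
      have := cf.near _ (hmem' a)
      have := s4 a
      linarith
    · rw [e1, neg_comm h x.2 hneg, cf.co _ (hmem' a)]
      rfl
  have hrel : ∀ a b, F (σ a) = F (σ b) ↔ (a = b ∨ a = -b) := by
    intro a b
    constructor
    · intro hab
      obtain ⟨g, g1, g2⟩ := cf.F_eq_F h hρ hd hC1 (by linarith) hgap (s4 a) (s4 b) hab
      rcases (hstab g).1 g1 with rfl | rfl
      · left
        rw [rho_one] at g2
        refine s2 (Subtype.ext ?_)
        rw [← cf.co _ (hmem' a), ← cf.co _ (hmem' b), g2]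
      · right
        rw [hflip a, ← s6] at g2
        have e1 : σ (-a) = σ b := by
          refine Subtype.ext ?_
          rw [← cf.co _ (hmem' (-a)), ← cf.co _ (hmem' b), g2]
        rw [← s2 e1, neg_neg]
    · rintro (rfl | rfl)
      · rfl
      · have m1 := cf.mem _ (hmem' (-b))
        have m2 := cf.mem _ (hmem' b)
        rw [cf.F_eq _ m1, cf.F_eq _ m2]
        refine dist_eq_zero.1 ?_
        rw [hd]
        simp only
        rw [s6, ← hflip b, DX_left hρ]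
        refine le_antisymm ?_ (DX_nonneg _ _)
        exact (DX_le_dM _ _).trans (dM_self m2).le
  obtain ⟨G, hG⟩ : ∃ G : ConeRP → X, ∀ a, G (Quotient.mk _ a) = F (σ a) :=
    ⟨Quotient.lift (fun a => F (σ a)) (fun a b hab => (hrel a b).2 hab), fun _ => rfl⟩
  have hGmk : G ∘ (Quotient.mk pmSetoid) = fun a => F (σ a) := funext hG
  have hq : Topology.IsQuotientMap (Quotient.mk pmSetoid) := isQuotientMap_quot_mk
  have hGc : Continuous G := by
    rw [hq.continuous_iff, hGmk]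
    exact hcont
  have hGi : Function.Injective G := by
    intro a b
    refine Quotient.inductionOn₂ a b fun a b hab => ?_
    rw [hG, hG, hrel] at hab
    exact Quotient.sound hab
  have hGo : IsOpenMap G := by
    intro V hV
    have h1 := hopen _ (hV.preimage hq.continuous)
    have h2 : (fun a => F (σ a)) '' (Quotient.mk pmSetoid ⁻¹' V) = G '' V := by
      ext p
      constructor
      · rintro ⟨a, ha, rfl⟩
        exact ⟨_, ha, hG a⟩
      · rintro ⟨b, hb, rfl⟩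
        obtain ⟨a, rfl⟩ := Quotient.exists_rep b
        exact ⟨a, hb, (hG a).symm⟩
    rwa [h2] at h1
  have hemb := Topology.IsOpenEmbedding.of_continuous_injective_isOpenMap hGc hGi hGo
  refine ⟨Set.range G, hemb.isOpen_range, ⟨Quotient.mk _ 0, ?_⟩,
    ⟨hemb.toIsEmbedding.toHomeomorph.symm⟩⟩
  rw [hG, s5]
  exact cf.F_zero hR0

include h hC1 hρ hd hs in
theorem dimH_eq [FiniteDimensional ℝ E] (hn : n = 3) (x : M)
    (hfree : ∀ g : H, ρ g x = x → g = 1) : dimH (Set.univ : Set X) = 3 := by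
  have : CompleteSpace E := FiniteDimensional.complete ℝ E
  have hr0 := rad_pos h
  obtain ⟨R, hR⟩ : ∃ R, R = rad C r / 2 := ⟨_, rfl⟩
  have hR0 : 0 < R := by rw [hR]; positivity
  have hfin : ∀ y : M, Module.finrank ℝ (TS Pi y) = 3 := fun y => (h.rank y y.2).trans hn
  refine le_antisymm ?_ ?_
  · -- finite cover
    have hcf : ∀ y : M, ∃ ψ F, CF Pi M ρ π y R ψ F := fun y => by
      rw [hR]; exact exists_CF h hC1 ρ π y
    choose ψ F hF using hcf
    obtain ⟨t, ht⟩ := (isCompact_iff_isCompact_univ.1 h.compact).elim_finite_subcover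
      (fun y : M => Metric.ball y R) (fun y => Metric.isOpen_ball)
      (fun y _ => Set.mem_iUnion.2 ⟨y, Metric.mem_ball_self hR0⟩)
    have hcov : (Set.univ : Set X) ⊆ ⋃ y ∈ (t : Set M), F y '' Metric.closedBall 0 R := by
      intro p _
      obtain ⟨q, rfl⟩ := hs p
      have h1 := ht (Set.mem_univ q)
      simp only [Set.mem_iUnion, exists_prop] at h1 ⊢
      obtain ⟨y, hy, hqy⟩ := h1
      rw [Metric.mem_ball, Subtype.dist_eq, dist_eq_norm] at hqy
      obtain ⟨u, hu⟩ : ∃ u : TS Pi y, (u : E) = Pi y (q - y) :=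
        ⟨⟨Pi y (q - y), (mem_TS h y.2).2 (h.idem y y.2 _)⟩, rfl⟩
      have h2 := (hF y).inv q q.2 hqy.le u hu
      refine ⟨y, hy, u, ?_, ?_⟩
      · rw [mem_closedBall_zero_iff]
        have e : ‖u‖ = ‖(u : E)‖ := rfl
        rw [e, hu]
        exact (norm_Pi_le h y.2 _).trans hqy.le
      · rw [(hF y).F_eq u (by rw [h2]; exact q.2)]
        congr 1
        exact Subtype.ext h2
    refine (dimH_mono hcov).trans ?_
    rw [dimH_bUnion t.countable_toSet]
    refine iSup₂_le fun y _ => ?_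
    refine ((hF y).F_lip hd).dimH_image_le.trans ?_
    refine (dimH_mono (Set.subset_univ _)).trans ?_
    rw [Real.dimH_univ_eq_finrank, hfin y]
    norm_num
  · obtain ⟨ψ, F, cf⟩ := exists_CF h hC1 ρ π x
    rw [← hR] at cf
    obtain ⟨δ, hδ0, hδ⟩ := exists_gap ρ (x : E)
    obtain ⟨η, hη⟩ : ∃ η, η = min δ R := ⟨_, rfl⟩
    have hη0 : 0 < η := by rw [hη]; exact lt_min hδ0 hR0
    have hηδ : η ≤ δ := hη ▸ min_le_left _ _
    have hηR : η ≤ R := hη ▸ min_le_right _ _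
    have hgap : ∀ g : H, g ≠ 1 → 6 * η ≤ ‖ρ g x - x‖ := fun g hg => by
      have := hδ g (fun h => hg (hfree g h))
      linarith
    have hanti : AntilipschitzWith 1 (fun u : Metric.closedBall (0 : TS Pi x) η => F u) := by
      refine AntilipschitzWith.of_le_mul_dist fun u u' => ?_
      rw [NNReal.coe_one, one_mul, Subtype.dist_eq, dist_eq_norm]
      exact cf.F_anti h hρ hd hC1 hηR hgap (mem_closedBall_zero_iff.1 u.2)
        (mem_closedBall_zero_iff.1 u'.2)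
    have h1 : dimH (Metric.closedBall (0 : TS Pi x) η) = 3 := by
      rw [Real.dimH_of_mem_nhds (Metric.closedBall_mem_nhds 0 hη0), hfin x]
      norm_num
    have h2 : dimH (Metric.closedBall (0 : TS Pi x) η) =
        dimH (Set.univ : Set (Metric.closedBall (0 : TS Pi x) η)) := by
      rw [← (isometry_subtype_coe (s := Metric.closedBall (0 : TS Pi x) η)).dimH_image,
        Set.image_univ, Subtype.range_coe]
    rw [← h1, h2]
    exact (hanti.le_dimH_image _).trans (dimH_mono (Set.subset_univ _))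

end Pool.Agent.H82.AX
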