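import Mathlib

/-!
# Stewart's identity in the hyperbolic plane
-/

set_option autoImplicit false

open scoped Topology InnerProductSpace UpperHalfPlane
open Real (sinh cosh)

namespace Pool.Agent.H82.AX

/-- The form on `ℝ^{1,2}` in null coordinates. -/
noncomputable def hB (z w : ℍ) : ℝ :=
  ((z.re ^ 2 + z.im ^ 2) / z.im * (1 / w.im) + (w.re ^ 2 + w.im ^ 2) / w.im * (1 / z.im)) / 2 -
    z.re / z.im * (w.re / w.im)

theorem cosh_dist_eq_hB (z w : ℍ) : cosh (dist z w) = hB z w := by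
  rw [UpperHalfPlane.cosh_dist', hB]
  have hz := z.im_pos
  have hw := w.im_pos
  field_simp
  ring

theorem sinh_identity' (b c : ℝ) :
    sinh c ^ 2 + sinh b ^ 2 + 2 * (sinh c * sinh b * cosh (b + c)) = sinh (b + c) ^ 2 := by
  rw [Real.cosh_add, Real.sinh_add]
  have h1 := Real.cosh_sq b
  have h2 := Real.cosh_sq c
  linear_combination (-(sinh c ^ 2)) * h1 - (sinh b ^ 2) * h2

/-- nondegeneracy -/
theorem null_orth {a b c α β γ : ℝ} (ha : 0 < a) (h1 : a * c - b ^ 2 = 1)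
    (h2 : α * γ = β ^ 2) (h3 : (α * c + γ * a) / 2 = β * b) : α = 0 ∧ β = 0 ∧ γ = 0 := by
  have hc : 0 < c := by
    have : 0 < a * c := by nlinarith [sq_nonneg b]
    exact (pos_iff_pos_of_mul_pos this).1 ha
  have h4 : (α * c + γ * a) ^ 2 = 4 * β ^ 2 * b ^ 2 := by
    have : α * c + γ * a = 2 * (β * b) := by linarith
    rw [this]; ring
  have h5 : (α * c - γ * a) ^ 2 + 4 * β ^ 2 = 0 := by
    have : (α * c - γ * a) ^ 2 = (α * c + γ * a) ^ 2 - 4 * (α * γ) * (a * c) := by ring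
    rw [this, h4, h2]
    have : a * c = 1 + b ^ 2 := by linarith
    rw [this]; ring
  have hβ : β = 0 := by
    have := sq_nonneg (α * c - γ * a)
    have h6 : β ^ 2 = 0 := le_antisymm (by linarith) (sq_nonneg _)
    exact pow_eq_zero_iff two_ne_zero |>.1 h6
  have h7 : α * c - γ * a = 0 := by
    rw [hβ] at h5
    have : (α * c - γ * a) ^ 2 = 0 := by linarith
    exact pow_eq_zero_iff two_ne_zero |>.1 this
  rw [hβ, zero_mul] at h3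
  have h8 : α * c = 0 := by linarith
  have h9 : γ * a = 0 := by linarith
  exact ⟨(mul_eq_zero.1 h8).resolve_right hc.ne', hβ, (mul_eq_zero.1 h9).resolve_right ha.ne'⟩

/-- Stewart's identity. -/
theorem stewart (q x y z : ℍ) (h : dist x z + dist z y = dist x y) :
    sinh (dist z y) * cosh (dist q x) + sinh (dist x z) * cosh (dist q y) =
      sinh (dist x y) * cosh (dist q z) := by
  obtain ⟨b, hb⟩ : ∃ b, b = dist x z := ⟨_, rfl⟩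
  obtain ⟨c, hc⟩ : ∃ c, c = dist z y := ⟨_, rfl⟩
  have hxz := cosh_dist_eq_hB x z
  have hzy := cosh_dist_eq_hB z y
  have hxy := cosh_dist_eq_hB x y
  have hqx := cosh_dist_eq_hB q x
  have hqy := cosh_dist_eq_hB q y
  have hqz := cosh_dist_eq_hB q z
  rw [← h, ← hb, ← hc] at hxy ⊢
  rw [← hb] at hxz
  rw [← hc] at hzy
  rw [hqx, hqy, hqz]
  have px := x.im_pos
  have py := y.im_pos
  have pz := z.im_pos
  -- coordinates
  obtain ⟨x1, hx1⟩ : ∃ x1, x1 = (x.re ^ 2 + x.im ^ 2) / x.im := ⟨_, rfl⟩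
  obtain ⟨x2, hx2⟩ : ∃ x2, x2 = x.re / x.im := ⟨_, rfl⟩
  obtain ⟨x3, hx3⟩ : ∃ x3, x3 = 1 / x.im := ⟨_, rfl⟩
  obtain ⟨y1, hy1⟩ : ∃ y1, y1 = (y.re ^ 2 + y.im ^ 2) / y.im := ⟨_, rfl⟩
  obtain ⟨y2, hy2⟩ : ∃ y2, y2 = y.re / y.im := ⟨_, rfl⟩
  obtain ⟨y3, hy3⟩ : ∃ y3, y3 = 1 / y.im := ⟨_, rfl⟩
  obtain ⟨z1, hz1⟩ : ∃ z1, z1 = (z.re ^ 2 + z.im ^ 2) / z.im := ⟨_, rfl⟩
  obtain ⟨z2, hz2⟩ : ∃ z2, z2 = z.re / z.im := ⟨_, rfl⟩
  obtain ⟨z3, hz3⟩ : ∃ z3, z3 = 1 / z.im := ⟨_, rfl⟩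
  obtain ⟨q1, hq1⟩ : ∃ q1, q1 = (q.re ^ 2 + q.im ^ 2) / q.im := ⟨_, rfl⟩
  obtain ⟨q2, hq2⟩ : ∃ q2, q2 = q.re / q.im := ⟨_, rfl⟩
  obtain ⟨q3, hq3⟩ : ∃ q3, q3 = 1 / q.im := ⟨_, rfl⟩
  have nx : x1 * x3 - x2 ^ 2 = 1 := by rw [hx1, hx2, hx3]; field_simp; ring
  have ny : y1 * y3 - y2 ^ 2 = 1 := by rw [hy1, hy2, hy3]; field_simp; ring
  have nz : z1 * z3 - z2 ^ 2 = 1 := by rw [hz1, hz2, hz3]; field_simp; ring
  have pz1 : 0 < z1 := by rw [hz1]; positivity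
  rw [hB, ← hx1, ← hx2, ← hx3, ← hz1, ← hz2, ← hz3] at hxz
  rw [hB, ← hy1, ← hy2, ← hy3, ← hz1, ← hz2, ← hz3] at hzy
  rw [hB, ← hx1, ← hx2, ← hx3, ← hy1, ← hy2, ← hy3] at hxy
  rw [hB, hB, hB, ← hx1, ← hx2, ← hx3, ← hy1, ← hy2, ← hy3, ← hz1, ← hz2, ← hz3, ← hq1, ← hq2,
    ← hq3]
  obtain ⟨sb, hsb⟩ : ∃ sb, sb = sinh b := ⟨_, rfl⟩
  obtain ⟨sc, hsc⟩ : ∃ sc, sc = sinh c := ⟨_, rfl⟩
  obtain ⟨s, hs⟩ : ∃ s, s = sinh (b + c) := ⟨_, rfl⟩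
  have id1 := sinh_identity' b c
  have id2 := Real.sinh_add b c
  rw [← hsb, ← hsc, ← hs, hxy] at id1
  rw [← hs, ← hsb, ← hsc, hxz, hzy] at id2
  rw [← hsb, ← hsc, ← hs]
  obtain ⟨e1, e2, e3⟩ := null_orth (α := sc * x1 + sb * y1 - s * z1)
    (β := sc * x2 + sb * y2 - s * z2) (γ := sc * x3 + sb * y3 - s * z3) pz1 nz
    (by linear_combination sc ^ 2 * nx + sb ^ 2 * ny + s ^ 2 * nz + id1 + 2 * s * id2)
    (by linear_combination (-s) * nz - id2)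
  linear_combination (q3 / 2) * e1 + (q1 / 2) * e3 - q2 * e2

end Pool.Agent.H82.AX
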