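import Pool.Agent.H82.AX.Hinge
import Pool.Agent.H82.AX.Stewart

/-!
# The quotient metric
-/

set_option autoImplicit false

open scoped Topology InnerProductSpace
open Real (sinh cosh)

namespace Pool.Agent.H82.AX

open Pool.Agent.H75.AX.Spec

variable {E : Type} [NormedAddCommGroup E] [InnerProductSpace ℝ E]

variable {M : Set E} {H : Type} [Group H] {ρ : H →* (E ≃ₗᵢ[ℝ] E)}

theorem rho_mul (g k : H) (x : E) : ρ (g * k) x = ρ g (ρ k x) := by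
  rw [map_mul]; rfl

theorem rho_one (x : E) : ρ 1 x = x := by
  rw [map_one]; rfl

theorem rho_inv (g : H) (x : E) : ρ g⁻¹ (ρ g x) = x := by
  rw [← rho_mul, inv_mul_cancel, rho_one]

/-- The orbit relation. -/
def orb (ρ : H →* (E ≃ₗᵢ[ℝ] E)) (M : Set E) : Setoid M where
  r x y := ∃ g : H, ρ g x = y
  iseqv := by
    refine ⟨fun x => ⟨1, by simp⟩, ?_, ?_⟩
    · rintro x y ⟨g, hg⟩
      refine ⟨g⁻¹, ?_⟩
      rw [← hg, rho_inv]
    · rintro x y z ⟨g, hg⟩ ⟨k, hk⟩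
      refine ⟨k * g, ?_⟩
      rw [← hk, ← hg, rho_mul]

theorem rho_inv' (g : H) (x : E) : ρ g (ρ g⁻¹ x) = x := by
  rw [← rho_mul, mul_inv_cancel, rho_one]

theorem rho_iso (g : H) (x y : E) : ‖ρ g x - ρ g y‖ = ‖x - y‖ := by
  rw [← map_sub, LinearIsometryEquiv.norm_map]

/-- The distance between orbits. -/
noncomputable def DX (ρ : H →* (E ≃ₗᵢ[ℝ] E)) (M : Set E) (x y : E) : ℝ :=
  ⨅ g : H, dM M x (ρ g y)

section
variable (hρ : ∀ h, ∀ x ∈ M, ρ h x ∈ M) (hM : PConn M)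
include hρ

theorem dM_rho (g : H) (x y : E) : dM M (ρ g x) (ρ g y) = dM M x y :=
  dM_map (hρ g) (rho_iso g) (hρ g⁻¹) (rho_iso g⁻¹) (rho_inv g) x y

omit hρ in
theorem DX_le (x y : E) (g : H) : DX ρ M x y ≤ dM M x (ρ g y) :=
  ciInf_le ⟨0, by rintro _ ⟨k, rfl⟩; exact dM_nonneg _ _⟩ g

omit hρ in
theorem DX_le_dM (x y : E) : DX ρ M x y ≤ dM M x y := by
  have := DX_le (M := M) (ρ := ρ) x y 1
  rwa [rho_one] at this

omit hρ in
theorem exists_DX [Finite H] (x y : E) : ∃ g : H, dM M x (ρ g y) = DX ρ M x y :=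
  exists_eq_ciInf_of_finite

omit hρ in
theorem DX_nonneg [Finite H] (x y : E) : 0 ≤ DX ρ M x y := by
  obtain ⟨g, hg⟩ := exists_DX (M := M) (ρ := ρ) x y
  rw [← hg]
  exact dM_nonneg _ _

theorem DX_comm_le [Finite H] (x y : E) : DX ρ M x y ≤ DX ρ M y x := by
  obtain ⟨g, hg⟩ := exists_DX (M := M) (ρ := ρ) y x
  rw [← hg, dM_comm, ← dM_rho hρ g⁻¹, rho_inv]
  exact DX_le x y g⁻¹

theorem DX_comm [Finite H] (x y : E) : DX ρ M x y = DX ρ M y x :=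
  le_antisymm (DX_comm_le hρ x y) (DX_comm_le hρ y x)

omit hρ in
theorem DX_right_le [Finite H] (x y : E) (k : H) : DX ρ M x (ρ k y) ≤ DX ρ M x y := by
  obtain ⟨g, hg⟩ := exists_DX (M := M) (ρ := ρ) x y
  have := DX_le (M := M) (ρ := ρ) x (ρ k y) (g * k⁻¹)
  rwa [← rho_mul, inv_mul_cancel_right, hg] at this

omit hρ in
theorem DX_right [Finite H] (x y : E) (k : H) : DX ρ M x (ρ k y) = DX ρ M x y := by
  refine le_antisymm (DX_right_le x y k) ?_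
  have := DX_right_le (M := M) (ρ := ρ) x (ρ k y) k⁻¹
  rwa [rho_inv] at this

theorem DX_left [Finite H] (x y : E) (k : H) : DX ρ M (ρ k x) y = DX ρ M x y := by
  rw [DX_comm hρ, DX_right, DX_comm hρ]

include hM

theorem DX_triangle [Finite H] {x y z : E} (hx : x ∈ M) (hy : y ∈ M) (hz : z ∈ M) :
    DX ρ M x z ≤ DX ρ M x y + DX ρ M y z := by
  obtain ⟨g, hg⟩ := exists_DX (M := M) (ρ := ρ) x y
  obtain ⟨k, hk⟩ := exists_DX (M := M) (ρ := ρ) y z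
  have h1 := DX_le (M := M) (ρ := ρ) x z (g * k)
  have h2 := dM_triangle hM hx (hρ g y hy) (hρ (g * k) z hz)
  rw [rho_mul g k z, dM_rho hρ g, hg, hk] at h2
  rw [rho_mul] at h1
  exact h1.trans h2

theorem DX_eq_zero [Finite H] {x y : E} (hx : x ∈ M) (hy : y ∈ M) (h : DX ρ M x y = 0) :
    ∃ g : H, ρ g x = y := by
  obtain ⟨g, hg⟩ := exists_DX (M := M) (ρ := ρ) x y
  rw [h] at hg
  have h1 := norm_le_dM hM hx (hρ g y hy)
  rw [hg] at h1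
  have h2 := sub_eq_zero.1 (norm_le_zero_iff.1 h1)
  refine ⟨g⁻¹, ?_⟩
  rw [← h2, rho_inv]

/-- The quotient metric. -/
@[reducible] noncomputable def qMet [Finite H] : MetricSpace (Quotient (orb ρ M)) where
  dist a b := DX ρ M (a.out : E) (b.out : E)
  dist_self a := le_antisymm ((DX_le_dM _ _).trans (dM_self a.out.2).le) (DX_nonneg _ _)
  dist_comm a b := DX_comm hρ _ _
  dist_triangle a b c := DX_triangle hρ hM a.out.2 b.out.2 c.out.2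
  eq_of_dist_eq_zero := by
    intro a b hab
    obtain ⟨g, hg⟩ := DX_eq_zero hρ hM a.out.2 b.out.2 hab
    rw [← Quotient.out_eq a, ← Quotient.out_eq b]
    exact Quotient.sound ⟨g, hg⟩

theorem qMet_dist [Finite H] (x y : M) :
    (qMet hρ hM).dist (Quotient.mk (orb ρ M) x) (Quotient.mk (orb ρ M) y) = DX ρ M x y := by
  change DX ρ M ((Quotient.mk (orb ρ M) x).out : E) ((Quotient.mk (orb ρ M) y).out : E) = _
  obtain ⟨g, hg⟩ := Quotient.mk_out (s := orb ρ M) x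
  obtain ⟨k, hk⟩ := Quotient.mk_out (s := orb ρ M) y
  rw [← hg, ← hk, DX_left hρ, DX_right]

end

/-- Stewart's inequality for the quotient. -/
theorem quot_stewart {n : ℕ} {Pi : E → E →L[ℝ] E} {Q : E → E →L[ℝ] E →L[ℝ] E}
    {C r : ℝ} (h : Geom M n Pi Q C r) (hC1 : 1 ≤ C) [CompleteSpace E] [Finite H]
    (hρ : ∀ h, ∀ x ∈ M, ρ h x ∈ M) {q x y z : E} (hq : q ∈ M) (hx : x ∈ M) (hy : y ∈ M)
    (hz : z ∈ M) (hqz : DX ρ M z q ≤ rad C r / 4) (hxz : DX ρ M z x ≤ rad C r / 4)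
    (hyz : DX ρ M z y ≤ rad C r / 4) (hxy : DX ρ M x y = DX ρ M x z + DX ρ M z y)
    (hxz0 : 0 < DX ρ M x z) (hzy0 : 0 < DX ρ M z y) :
    sinh (14 * C * DX ρ M z y) * cosh (14 * C * DX ρ M q x) +
      sinh (14 * C * DX ρ M x z) * cosh (14 * C * DX ρ M q y) ≤
      sinh (14 * C * DX ρ M x z + 14 * C * DX ρ M z y) * cosh (14 * C * DX ρ M q z) := by
  have hCp := h.C_pos
  have hM := pconn h hC1
  obtain ⟨κ, hκ⟩ : ∃ κ, κ = 14 * C := ⟨_, rfl⟩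
  have hκ0 : 0 < κ := by rw [hκ]; positivity
  have hr0 := rad_pos h
  -- lifts
  have lift : ∀ p ∈ M, DX ρ M z p ≤ rad C r / 4 → ∃ g : H, ∃ v, Pi z v = v ∧
      ‖v‖ = DX ρ M z p ∧ ‖v‖ ≤ rad C r ∧ ex M Pi Q z v = ρ g p := by
    intro p hp hzp
    obtain ⟨g, hg⟩ := exists_DX (M := M) (ρ := ρ) z p
    have h1 := norm_le_dM hM hz (hρ g p hp)
    obtain ⟨v, e1, e2, e3⟩ := near_ex h hC1 hz (hρ g p hp) (by linarith)
    have h2 := norm_Pi_le h hz (ρ g p - z)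
    have h3 := dM_ray h hC1 hz e1 (by linarith)
    rw [e3, hg] at h3
    exact ⟨g, v, e1, h3.symm, by linarith, e3⟩
  obtain ⟨gq, u, u1, u2, u3, u4⟩ := lift q hq hqz
  obtain ⟨gx, v, v1, v2, v3, v4⟩ := lift x hx hxz
  obtain ⟨gy, w, w1, w2, w3, w4⟩ := lift y hy hyz
  have hinge' : ∀ (p p' : E) (g g' : H) (a b : E), Pi z a = a → Pi z b = b → ‖a‖ ≤ rad C r →
      ‖b‖ ≤ rad C r → ex M Pi Q z a = ρ g p → ex M Pi Q z b = ρ g' p' →
      cosh (κ * DX ρ M p p') ≤ hC κ a b := by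
    intro p p' g g' a b a1 b1 a2 b2 a3 b3
    have h1 := hinge h hC1 hz a1 b1 a2 b2
    rw [← hκ, a3, b3] at h1
    refine le_trans ?_ h1
    have h2 : DX ρ M p p' ≤ dM M (ρ g p) (ρ g' p') := by
      rw [← DX_left hρ p p' g, ← DX_right (ρ g p) p' g']
      exact DX_le_dM _ _
    rw [Real.cosh_le_cosh, abs_of_nonneg (mul_nonneg hκ0.le (DX_nonneg _ _)),
      abs_of_nonneg (mul_nonneg hκ0.le (dM_nonneg _ _))]
    gcongr
  have hxy' := hinge' x y gx gy v w v1 w1 v3 w3 v4 w4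
  have hqx' := hinge' q x gq gx u v u1 v1 u3 v3 u4 v4
  have hqy' := hinge' q y gq gy u w u1 w1 u3 w3 u4 w4
  rw [DX_comm hρ x z, ← v2, ← w2] at hxy
  rw [DX_comm hρ x z, ← v2] at hxz0 ⊢
  rw [← w2] at hzy0 ⊢
  rw [DX_comm hρ q z, ← u2, ← hκ]
  rw [hxy] at hxy'
  have hv0 : v ≠ 0 := norm_pos_iff.1 hxz0
  have hw0 : w ≠ 0 := norm_pos_iff.1 hzy0
  -- the directions are opposite
  have hopp : ‖v‖ • w + ‖w‖ • v = 0 := by
    rw [mul_add, Real.cosh_add, hC, hS, hS, real_inner_smul_left, real_inner_smul_right] at hxy'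
    have s1 : 0 < sinh (κ * ‖v‖) := Real.sinh_pos_iff.2 (by positivity)
    have s2 : 0 < sinh (κ * ‖w‖) := Real.sinh_pos_iff.2 (by positivity)
    have h1 : sinh (κ * ‖v‖) * sinh (κ * ‖w‖) / (‖v‖ * ‖w‖) * (‖v‖ * ‖w‖ + ⟪v, w⟫_ℝ) ≤ 0 := by
      have e : sinh (κ * ‖v‖) * sinh (κ * ‖w‖) / (‖v‖ * ‖w‖) * (‖v‖ * ‖w‖ + ⟪v, w⟫_ℝ) =
          sinh (κ * ‖v‖) * sinh (κ * ‖w‖) +
            sinh (κ * ‖v‖) / ‖v‖ * (sinh (κ * ‖w‖) / ‖w‖ * ⟪v, w⟫_ℝ) := by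
        field_simp
      rw [e]
      linarith
    have h2 : 0 < sinh (κ * ‖v‖) * sinh (κ * ‖w‖) / (‖v‖ * ‖w‖) := by positivity
    have h3 : ‖v‖ * ‖w‖ + ⟪v, w⟫_ℝ ≤ 0 := by
      by_contra hcon
      rw [not_le] at hcon
      have := mul_pos h2 hcon
      linarith
    have h4 : ‖‖v‖ • w + ‖w‖ • v‖ ^ 2 ≤ 0 := by
      rw [norm_add_sq_real, norm_smul, norm_smul, real_inner_smul_left, real_inner_smul_right,
        norm_norm, norm_norm, real_inner_comm v w]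
      have : 0 ≤ ‖v‖ * ‖w‖ := by positivity
      nlinarith
    have h5 : ‖‖v‖ • w + ‖w‖ • v‖ = 0 := by
      have := sq_nonneg ‖‖v‖ • w + ‖w‖ • v‖
      exact pow_eq_zero_iff two_ne_zero |>.1 (le_antisymm h4 this)
    exact norm_eq_zero.1 h5
  have hin : ‖v‖ * ⟪u, w⟫_ℝ + ‖w‖ * ⟪u, v⟫_ℝ = 0 := by
    rw [← real_inner_smul_right, ← real_inner_smul_right, ← inner_add_right, hopp,
      inner_zero_right]
  have s1 : 0 ≤ sinh (κ * ‖v‖) := Real.sinh_nonneg_iff.2 (by positivity)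
  have s2 : 0 ≤ sinh (κ * ‖w‖) := Real.sinh_nonneg_iff.2 (by positivity)
  have k1 := mul_le_mul_of_nonneg_left hqx' s2
  have k2 := mul_le_mul_of_nonneg_left hqy' s1
  have e1 : sinh (κ * ‖w‖) * hC κ u v + sinh (κ * ‖v‖) * hC κ u w =
      sinh (κ * ‖v‖ + κ * ‖w‖) * cosh (κ * ‖u‖) := by
    rw [hC, hC, hS, hS, hS, real_inner_smul_left, real_inner_smul_right, real_inner_smul_left,
      real_inner_smul_right, Real.sinh_add]
    have e2 : ⟪u, w⟫_ℝ = -(‖w‖ * ⟪u, v⟫_ℝ) / ‖v‖ := by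
      field_simp
      linarith
    rw [e2]
    field_simp
    ring
  rw [← e1]
  linarith

end Pool.Agent.H82.AX
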