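import Pool.Agent.H82.AX.Quot

/-!
# Tangential charts
-/

set_option autoImplicit false

open scoped Topology InnerProductSpace
open Real (sinh cosh)

namespace Pool.Agent.H82.AX

open Pool.Agent.H75.AX.Spec

variable {E : Type} [NormedAddCommGroup E] [InnerProductSpace ℝ E]

/-- tangent space -/
def TS (Pi : E → E →L[ℝ] E) (x : E) : Submodule ℝ E := LinearMap.range (Pi x : E →ₗ[ℝ] E)

variable {M : Set E} {n : ℕ} {Pi : E → E →L[ℝ] E} {Q : E → E →L[ℝ] E →L[ℝ] E} {C r : ℝ}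

theorem mem_TS (h : Geom M n Pi Q C r) {x : E} (hx : x ∈ M) {v : E} :
    v ∈ TS Pi x ↔ Pi x v = v := by
  constructor
  · rintro ⟨w, rfl⟩
    exact h.idem x hx w
  · intro hv
    exact ⟨v, hv⟩

variable (h : Geom M n Pi Q C r) (hC1 : 1 ≤ C)
include h hC1

theorem PD_ex {x v w : E} (hx : x ∈ M) (hvt : Pi x v = v) (hwt : Pi x w = w)
    (hv : ‖v‖ ≤ rad C r) (hw : ‖w‖ ≤ rad C r) :
    PD M (ex M Pi Q x v) (ex M Pi Q x w) (2 * ‖w - v‖) := by
  have ht : ∀ t : ℝ, Pi x (v + t • (w - v)) = v + t • (w - v) := by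
    intro t
    rw [map_add, map_smul, map_sub, hvt, hwt]
  have hn : ∀ t ∈ Set.Icc (0 : ℝ) 1, ‖v + t • (w - v)‖ ≤ rad C r := by
    intro t ht
    have e : v + t • (w - v) = (1 - t) • v + t • w := by module
    rw [e]
    refine (norm_add_le _ _).trans ?_
    rw [norm_smul, norm_smul, Real.norm_eq_abs, Real.norm_eq_abs,
      abs_of_nonneg (by linarith [ht.2]), abs_of_nonneg ht.1]
    have h1 : (1 - t) * ‖v‖ ≤ (1 - t) * rad C r :=
      mul_le_mul_of_nonneg_left hv (by linarith [ht.2])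
    have h2 : t * ‖w‖ ≤ t * rad C r := mul_le_mul_of_nonneg_left hw ht.1
    linarith
  have h1 := PD.of_lip (M := M) (K := 2 * ‖w - v‖) (by positivity)
    (c := fun t => ex M Pi Q x (v + t • (w - v))) (fun a ha b hb hab => by
      have := ex_lip h hC1 hx (ht a) (ht b) (hn a ha) (hn b hb)
      refine this.trans (le_of_eq ?_)
      have e : v + b • (w - v) - (v + a • (w - v)) = (b - a) • (w - v) := by module
      rw [e, norm_smul, Real.norm_eq_abs, abs_of_nonneg (sub_nonneg.2 hab)]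
      ring) (fun t h' => ex_mem h hC1 hx (ht t) (hn t h'))
  simp only [zero_smul, add_zero, one_smul, add_sub_cancel] at h1
  exact h1

theorem exists_chart [CompleteSpace E] {x : E} (hx : x ∈ M) : ∃ ψ : TS Pi x → E,
    (∀ u : TS Pi x, ‖u‖ ≤ rad C r / 2 → ψ u ∈ M ∧ Pi x (ψ u - x) = u ∧ ‖ψ u - x‖ ≤ 2 * ‖u‖) ∧
    (∀ u u' : TS Pi x, ‖u‖ ≤ rad C r / 2 → ‖u'‖ ≤ rad C r / 2 →
      dM M (ψ u) (ψ u') ≤ 4 * ‖u' - u‖) ∧
    (∀ q ∈ M, ‖q - x‖ ≤ rad C r / 2 → ∀ u : TS Pi x, (u : E) = Pi x (q - x) → ψ u = q) := by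
  have hex : ∀ u : TS Pi x, ∃ v, ‖u‖ ≤ rad C r / 2 → (Pi x v = v ∧ ‖v‖ ≤ 2 * ‖u‖ ∧
      Pi x (ex M Pi Q x v - x) = u) := by
    intro u
    by_cases hu : ‖u‖ ≤ rad C r / 2
    · obtain ⟨v, hv⟩ := exists_solve h hC1 hx ((mem_TS h hx).1 u.2) hu
      exact ⟨v, fun _ => hv⟩
    · exact ⟨0, fun h => absurd h hu⟩
  choose V hV using hex
  have key1 : ∀ u : TS Pi x, ‖u‖ ≤ rad C r / 2 → ex M Pi Q x (V u) ∈ M ∧
      Pi x (ex M Pi Q x (V u) - x) = u ∧ ‖ex M Pi Q x (V u) - x‖ ≤ 2 * ‖u‖ := by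
    intro u hu
    obtain ⟨h1, h2, h3⟩ := hV u hu
    have h4 : ‖V u‖ ≤ rad C r := by linarith
    exact ⟨ex_mem h hC1 hx h1 h4, h3, (ex_norm_le h hC1 hx h1 h4).trans h2⟩
  refine ⟨fun u => ex M Pi Q x (V u), key1, ?_, ?_⟩
  · intro u u' hu hu'
    obtain ⟨h1, h2, h3⟩ := hV u hu
    obtain ⟨h1', h2', h3'⟩ := hV u' hu'
    have h4 : ‖V u‖ ≤ rad C r := by linarith
    have h4' : ‖V u'‖ ≤ rad C r := by linarith
    have h5 := dM_le (PD_ex h hC1 hx h1 h1' h4 h4')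
    have h6 := ex_half h hC1 hx h1 h1' h4 h4'
    have h7 : (u' : E) - u - (V u' - V u) =
        Pi x (ex M Pi Q x (V u') - ex M Pi Q x (V u) - (V u' - V u)) := by
      rw [← h3, ← h3', ← map_sub, map_sub (Pi x) _ (V u' - V u), map_sub (Pi x) (V u') (V u),
        h1, h1']
      congr 2
      abel
    have h8 : ‖(u' : E) - u - (V u' - V u)‖ ≤ ‖V u' - V u‖ / 2 := by
      rw [h7]; exact (norm_Pi_le h hx _).trans h6
    have h9 : ‖V u' - V u‖ ≤ ‖(u' : E) - u‖ + ‖(u' : E) - u - (V u' - V u)‖ := by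
      have e : V u' - V u = ((u' : E) - u) - ((u' : E) - u - (V u' - V u)) := by abel
      conv_lhs => rw [e]
      exact norm_sub_le _ _
    have h10 : ‖u' - u‖ = ‖(u' : E) - u‖ := rfl
    rw [h10]
    linarith
  · intro q hq hqx u hu
    have hr0 := rad_pos h
    have hun : ‖u‖ ≤ rad C r / 2 := by
      have h1 : ‖u‖ = ‖(u : E)‖ := rfl
      rw [h1, hu]
      exact (norm_Pi_le h hx _).trans hqx
    obtain ⟨h1, h2, h3⟩ := key1 u hun
    exact tan_inj h hC1 hx h1 hq (by linarith) (by linarith) (by rw [h2, hu])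

omit hC1 in
/-- A linear isometry acting by `-1` on the tangent space. -/
theorem neg_comm {x : E} (hx : x ∈ M) {φ : E ≃ₗᵢ[ℝ] E} (hφ : ∀ v, Pi x v = v → φ v = -v)
    (e : E) : Pi x (φ e) = -(Pi x e) := by
  have h1 : φ (Pi x e) = -(Pi x e) := hφ _ (h.idem x hx e)
  obtain ⟨m, hm⟩ : ∃ m, m = e - Pi x e := ⟨_, rfl⟩
  have hPm : Pi x m = 0 := by rw [hm, map_sub, h.idem x hx, sub_self]
  have h2 : Pi x (φ m) = 0 := by
    obtain ⟨t, ht⟩ : ∃ t, t = Pi x (φ m) := ⟨_, rfl⟩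
    rw [← ht]
    have ht' : Pi x t = t := by rw [ht, h.idem x hx]
    have h3 : φ t = -t := hφ t ht'
    have h4 : ⟪t, t⟫_ℝ = 0 := by
      calc ⟪t, t⟫_ℝ = ⟪φ m, Pi x t⟫_ℝ := by rw [← h.symm x hx, ← ht]
        _ = -⟪φ m, φ t⟫_ℝ := by rw [ht', h3, inner_neg_right, neg_neg]
        _ = -⟪m, t⟫_ℝ := by rw [LinearIsometryEquiv.inner_map_map]
        _ = -⟪Pi x m, t⟫_ℝ := by rw [h.symm x hx, ht']
        _ = 0 := by rw [hPm, inner_zero_left, neg_zero]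
    exact inner_self_eq_zero.1 h4
  have h5 : e = Pi x e + m := by rw [hm]; abel
  conv_lhs => rw [h5]
  rw [map_add, map_add, h1, h2, add_zero, map_neg, h.idem x hx]

end Pool.Agent.H82.AX
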